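import Pool.Agent.Y164.PS.Lvl

/-!
The choice of the parameters.
-/

set_option autoImplicit false
set_option linter.all false

namespace Pool.Agent.Y164.PS

open Finset Polynomial Pool.Agent.H341R2.Sharp Filter Topology
open scoped Classical

theorem tend_div25 : Tendsto (fun l : ℕ => l / 25) atTop atTop :=
  Nat.tendsto_div_const_atTop (by norm_num)

theorem tend_log2 : Tendsto (fun n : ℕ => Nat.log 2 n) atTop atTop := by
  rw [tendsto_atTop_atTop]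
  intro b
  refine ⟨2 ^ b, fun n hn => ?_⟩
  exact Nat.le_log_of_pow_le (by norm_num) hn

theorem asy1 (C ε : ℝ) (hε : 0 < ε) : ∀ᶠ l : ℕ in atTop, C * (729 / 1024 : ℝ) ^ (l / 25) ≤ ε := by
  have h1 : Tendsto (fun l : ℕ => C * (729 / 1024 : ℝ) ^ (l / 25)) atTop (𝓝 (C * 0)) :=
    ((tendsto_pow_atTop_nhds_zero_of_lt_one (by norm_num) (by norm_num)).comp tend_div25).const_mul C
  rw [mul_zero] at h1
  exact h1.eventually_le_const hε

theorem asy2 (C ε : ℝ) (hε : 0 < ε) : ∀ᶠ l : ℕ in atTop, C * (1 / 2 : ℝ) ^ l ≤ ε := by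
  have h1 : Tendsto (fun l : ℕ => C * (1 / 2 : ℝ) ^ l) atTop (𝓝 (C * 0)) :=
    (tendsto_pow_atTop_nhds_zero_of_lt_one (by norm_num) (by norm_num)).const_mul C
  rw [mul_zero] at h1
  exact h1.eventually_le_const hε

theorem asy3 (c : ℕ) (hc : 1 ≤ c) (ε : ℝ) (hε : 0 < ε) : ∀ᶠ l : ℕ in atTop,
    (1 + Real.log ((c * l : ℕ) : ℝ)) / ((l / 25 : ℕ) + 1) ≤ ε := by
  have hc0 : (0 : ℝ) < c := by exact_mod_cast hc
  have h1 : Tendsto (fun x : ℝ => (1 + Real.log x) / x) atTop (𝓝 0) := by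
    have h2 : Tendsto (fun x : ℝ => Real.log x / x) atTop (𝓝 0) :=
      Real.isLittleO_log_id_atTop.tendsto_div_nhds_zero
    have h3 : Tendsto (fun x : ℝ => 1 / x) atTop (𝓝 0) := by
      simpa using tendsto_inv_atTop_zero (𝕜 := ℝ)
    have h4 := h3.add h2
    rw [add_zero] at h4
    refine h4.congr fun x => ?_
    rw [← add_div]
  have h2 : Tendsto (fun l : ℕ => ((c * l : ℕ) : ℝ)) atTop atTop := by
    apply tendsto_natCast_atTop_atTop.comp
    exact tendsto_id.const_mul_atTop' (by omega)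
  have h3 := (h1.comp h2).eventually_le_const (show (0 : ℝ) < ε / (25 * c) by positivity)
  filter_upwards [h3, eventually_ge_atTop 1] with l hl hl1
  have hl0 : (0 : ℝ) < l := by exact_mod_cast hl1
  rw [Function.comp] at hl
  have h4 : (l : ℝ) ≤ 25 * ((l / 25 : ℕ) + 1) := by
    have : l ≤ 25 * (l / 25 + 1) := by omega
    exact_mod_cast this
  have h5 : (0 : ℝ) < ((c * l : ℕ) : ℝ) := by push_cast; positivity
  rw [div_le_div_iff₀ h5 (by positivity)] at hl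
  rw [div_le_iff₀ (by positivity)]
  have h6 : 25 * (c : ℝ) * (1 + Real.log ((c * l : ℕ) : ℝ)) ≤ 25 * c * (ε * ((l / 25 : ℕ) + 1)) := by
    calc 25 * (c : ℝ) * (1 + Real.log ((c * l : ℕ) : ℝ)) =
        (1 + Real.log ((c * l : ℕ) : ℝ)) * (25 * c) := by ring
      _ ≤ ε * ((c * l : ℕ) : ℝ) := hl
      _ = ε * c * l := by push_cast; ring
      _ ≤ ε * c * (25 * ((l / 25 : ℕ) + 1)) := mul_le_mul_of_nonneg_left h4 (by positivity)
      _ = _ := by ring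
  exact le_of_mul_le_mul_left h6 (by positivity)

theorem asy4 {n l s : ℕ} (h1 : 2 ^ l ≤ n) (h2 : 25 * s ≤ l) :
    (2 : ℝ) ^ (7 * s) * cb n ≤ (1 / 2) ^ s := by
  have h3 := cb_sq n
  have h4 := (cb_pos n).le
  have h5 : ((2 : ℝ) ^ (7 * s) * cb n) ^ 2 ≤ ((1 / 2) ^ s) ^ 2 := by
    have h6 : (2 : ℝ) ^ (25 * s) ≤ n := by
      calc (2 : ℝ) ^ (25 * s) ≤ 2 ^ l := pow_le_pow_right₀ (by norm_num) h2
        _ ≤ n := by exact_mod_cast h1
    have h7 : cb n ^ 2 * 2 ^ (25 * s) ≤ 1 := by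
      refine le_trans ?_ h3
      apply mul_le_mul_of_nonneg_left _ (by positivity)
      linarith [show (0 : ℝ) ≤ n from Nat.cast_nonneg _]
    have h8 : (1 / 2 : ℝ) ^ s * 2 ^ s = 1 := by rw [← mul_pow]; norm_num
    have h9 : ((2 : ℝ) ^ (7 * s) * cb n) ^ 2 = cb n ^ 2 * 2 ^ (14 * s) := by
      rw [mul_pow, ← pow_mul]
      rw [show 7 * s * 2 = 14 * s by ring]
      ring
    have h10 : (2 : ℝ) ^ (25 * s) = 2 ^ (14 * s) * 2 ^ (9 * s) * (2 ^ s) ^ 2 := by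
      rw [← pow_mul, ← pow_add, ← pow_add]
      congr 1
      ring
    rw [h9]
    have h11 : (1 : ℝ) ≤ 2 ^ (9 * s) := one_le_pow₀ (by norm_num)
    have h12 : cb n ^ 2 * 2 ^ (14 * s) * (2 ^ s) ^ 2 ≤ 1 := by
      refine le_trans ?_ h7
      rw [h10]
      have h13 : (0 : ℝ) ≤ cb n ^ 2 * 2 ^ (14 * s) * (2 ^ s) ^ 2 := by positivity
      calc cb n ^ 2 * 2 ^ (14 * s) * (2 ^ s) ^ 2 ≤ cb n ^ 2 * 2 ^ (14 * s) * (2 ^ s) ^ 2 * 2 ^ (9 * s) :=
            le_mul_of_one_le_right h13 h11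
        _ = _ := by ring
    have h13 : (0 : ℝ) < (2 ^ s) ^ 2 := by positivity
    have h14 : ((1 / 2 : ℝ) ^ s) ^ 2 * (2 ^ s) ^ 2 = 1 := by rw [← mul_pow, h8, one_pow]
    refine le_of_mul_le_mul_right ?_ h13
    rw [h14]
    exact h12
  exact le_of_sq_le_sq h5 (by positivity)

variable {k : Type} [Field k] [Fintype k] [DecidableEq k]
variable {a b : k[X]}

theorem et_le {n l A : ℕ} (hn : n < 2 ^ (l + 1)) :
    et a b n ((2 * A + 3) * l) * 4 ^ (A * l) ≤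
      (2 * (5 * (2 + dQ a b) + 2 + 2 * (2 + Fintype.card (Tau a b)))) * (1 / 2) ^ l := by
  have h1 : (n : ℝ) ≤ 2 * 2 ^ l := by
    have : n ≤ 2 * 2 ^ l := by rw [pow_succ] at hn; omega
    exact_mod_cast this
  have h2 : (1 : ℝ) ≤ 2 ^ l := one_le_pow₀ (by norm_num)
  have h0 : (0 : ℝ) ≤ n := Nat.cast_nonneg _
  set x : ℝ := 2 ^ l with hx
  have h3 : (5 * (n + dQ a b : ℕ) + 2 + n * (n + Fintype.card (Tau a b)) : ℝ) ≤
      (5 * (2 + dQ a b) + 2 + 2 * (2 + Fintype.card (Tau a b))) * x ^ 2 := by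
    push_cast
    have e1 : x ≤ x ^ 2 := by nlinarith
    have e2 : (1 : ℝ) ≤ x ^ 2 := by nlinarith
    have e3 : (n : ℝ) * n ≤ 4 * x ^ 2 := by nlinarith
    have e4 : (0 : ℝ) ≤ dQ a b := Nat.cast_nonneg _
    have e5 : (0 : ℝ) ≤ Fintype.card (Tau a b) := Nat.cast_nonneg _
    have e6 : (dQ a b : ℝ) ≤ dQ a b * x ^ 2 := le_mul_of_one_le_right e4 e2
    have e7 : (n : ℝ) * Fintype.card (Tau a b) ≤ 2 * Fintype.card (Tau a b) * x ^ 2 := by
      calc (n : ℝ) * Fintype.card (Tau a b) ≤ 2 * x ^ 2 * Fintype.card (Tau a b) :=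
            mul_le_mul_of_nonneg_right (by linarith) e5
        _ = _ := by ring
    nlinarith
  have h4 : (2 : ℝ) ^ ((2 * A + 3) * l) = 4 ^ (A * l) * x ^ 2 * x := by
    have : (4 : ℝ) ^ (A * l) = 2 ^ (2 * (A * l)) := by
      rw [show (4 : ℝ) = 2 ^ 2 by norm_num, ← pow_mul]
    rw [this, hx, ← pow_mul, ← pow_add, ← pow_add]
    congr 1
    ring
  have h5 : (1 / 2 : ℝ) ^ l = 1 / x := by rw [hx, one_div_pow]
  rw [et, h4, h5]
  have hx0 : 0 < x := by positivity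
  have h6 : (0 : ℝ) < 4 ^ (A * l) := by positivity
  rw [div_mul_eq_mul_div, div_le_iff₀ (by positivity)]
  have h7 := mul_le_mul_of_nonneg_right h3 (show (0 : ℝ) ≤ 2 * 4 ^ (A * l) by positivity)
  refine le_trans (le_of_eq ?_) (h7.trans (le_of_eq ?_))
  · ring
  · field_simp

end Pool.Agent.Y164.PS
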