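import Pool.Agent.Y164.PS.Sym

/-!
Sums of the symbol over the primes of a given degree.
-/

set_option autoImplicit false
set_option linter.all false

namespace Pool.Agent.Y164.PS

open Polynomial Finset Pool.Agent.H341R2.Sharp

variable {k : Type} [Field k] [Fintype k] [DecidableEq k]

variable (k) in
/-- the monic irreducible polynomials of degree `d` -/
noncomputable def Pr (d : ℕ) : Finset k[X] := (Irr k d).filter (fun P => P.natDegree = d)

theorem mem_Pr {d : ℕ} {P : k[X]} : P ∈ Pr k d ↔ P.Monic ∧ Irreducible P ∧ P.natDegree = d := by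
  rw [Pr, mem_filter, mem_Irr]
  constructor
  · rintro ⟨⟨h1, h2, _⟩, h3⟩
    exact ⟨h1, h2, h3⟩
  · rintro ⟨h1, h2, h3⟩
    exact ⟨⟨h1, h2, h3.le⟩, h3⟩

theorem lam_one_left (P : k[X]) : lam 1 P = 1 := by
  unfold lam
  rw [natDegree_one, resultant_zero_right_deg]
  simp

theorem T_one (hk : ringChar k ≠ 2) (m : ℕ) (hm : 1 ≤ m) : T (1 : k[X]) m = (Fintype.card k : ℤ) ^ m := by
  classical
  obtain ⟨p, hp⟩ := CharP.exists k
  have : Fact (Nat.Prime p) := ⟨CharP.char_is_prime k p⟩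
  have : NeZero m := ⟨by omega⟩
  let E := FiniteField.Extension k p m
  let _ : Fintype E := Fintype.ofFinite E
  have hfr : Module.finrank k E = m := FiniteField.finrank_extension k p m
  have hcard : Fintype.card E = Fintype.card k ^ m := by
    rw [Module.card_eq_pow_finrank (K := k) (V := E), hfr]
  have h4 := T_eq_sum (E := E) hk (1 : k[X])
  rw [hfr] at h4
  rw [h4]
  simp [hcard]

theorem sum_deg (hk : ringChar k ≠ 2) (m : ℕ) (hm : 1 ≤ m) :
    ∑ P ∈ (Irr k m).filter (fun P => P.natDegree ∣ m), P.natDegree = Fintype.card k ^ m := by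
  have h := T_one (k := k) hk m hm
  unfold T at h
  simp only [lam_one_left, one_pow, mul_one] at h
  exact_mod_cast h

theorem split_T (m : ℕ) (hm : 1 ≤ m) (f : k[X] → ℝ) :
    ∑ P ∈ (Irr k m).filter (fun P => P.natDegree ∣ m), f P =
      ∑ P ∈ Pr k m, f P +
        ∑ P ∈ (Irr k m).filter (fun P => P.natDegree ∣ m ∧ P.natDegree < m), f P := by
  have h1 : (Irr k m).filter (fun P => P.natDegree ∣ m) =
      (Pr k m) ∪ (Irr k m).filter (fun P => P.natDegree ∣ m ∧ P.natDegree < m) := by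
    ext P
    rw [mem_union, Pr, mem_filter, mem_filter, mem_filter]
    constructor
    · rintro ⟨h, h'⟩
      rcases (Nat.le_of_dvd hm h').eq_or_lt with h2 | h2
      · exact Or.inl ⟨h, h2⟩
      · exact Or.inr ⟨h, h', h2⟩
    · rintro (⟨h, h'⟩ | ⟨h, h', _⟩)
      · exact ⟨h, h' ▸ dvd_rfl⟩
      · exact ⟨h, h'⟩
  rw [h1, sum_union]
  rw [disjoint_left]
  intro P hP hP'
  rw [mem_Pr] at hP
  rw [mem_filter] at hP'
  omega

theorem card_Pr_le (hk : ringChar k ≠ 2) (d : ℕ) (hd : 1 ≤ d) :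
    (d : ℝ) * (Pr k d).card ≤ (Fintype.card k : ℝ) ^ d := by
  have h := sum_deg (k := k) hk d hd
  have h1 : ∑ P ∈ Pr k d, P.natDegree ≤
      ∑ P ∈ (Irr k d).filter (fun P => P.natDegree ∣ d), P.natDegree := by
    apply sum_le_sum_of_subset
    intro P hP
    rw [mem_Pr] at hP
    rw [mem_filter, mem_Irr]
    exact ⟨⟨hP.1, hP.2.1, hP.2.2.le⟩, hP.2.2 ▸ dvd_rfl⟩
  have h2 : ∑ P ∈ Pr k d, P.natDegree = (Pr k d).card * d := by
    rw [sum_congr rfl (fun P hP => (mem_Pr.1 hP).2.2), sum_const, smul_eq_mul]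
  rw [h, h2] at h1
  rw [mul_comm]
  exact_mod_cast h1

theorem rest_le (hk : ringChar k ≠ 2) (d : ℕ) (hd : 1 ≤ d) :
    ∑ P ∈ (Irr k d).filter (fun P => P.natDegree ∣ d ∧ P.natDegree < d), (P.natDegree : ℝ) ≤
      2 * (Real.sqrt (Fintype.card k)) ^ d := by
  set q : ℝ := (Fintype.card k : ℝ) with hq
  have hq2 : 2 ≤ q := by
    rw [hq]
    exact_mod_cast (Fintype.one_lt_card (α := k))
  have h1 : ∑ P ∈ (Irr k d).filter (fun P => P.natDegree ∣ d ∧ P.natDegree < d), (P.natDegree : ℝ) ≤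
      ∑ e ∈ Icc 1 (d / 2), ∑ P ∈ Pr k e, (P.natDegree : ℝ) := by
    rw [← sum_biUnion]
    · apply sum_le_sum_of_subset_of_nonneg
      · intro P hP
        rw [mem_filter, mem_Irr] at hP
        obtain ⟨⟨h1, h2, h3⟩, h4, h5⟩ := hP
        rw [mem_biUnion]
        refine ⟨P.natDegree, ?_, mem_Pr.2 ⟨h1, h2, rfl⟩⟩
        rw [mem_Icc]
        refine ⟨h2.natDegree_pos, ?_⟩
        obtain ⟨c, hc⟩ := h4
        rw [Nat.le_div_iff_mul_le (by norm_num)]
        have : 2 ≤ c := by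
          by_contra hlt
          have : c = 0 ∨ c = 1 := by omega
          rcases this with rfl | rfl
          · omega
          · omega
        rw [hc]
        exact Nat.mul_le_mul_left _ this
      · intro _ _ _
        positivity
    · intro e _ e' _ hne
      rw [Function.onFun, disjoint_left]
      intro P hP hP'
      rw [mem_Pr] at hP hP'
      exact hne (hP.2.2.symm.trans hP'.2.2)
  have h2 : ∀ e ∈ Icc 1 (d / 2), ∑ P ∈ Pr k e, (P.natDegree : ℝ) ≤ q ^ e := by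
    intro e he
    rw [mem_Icc] at he
    have h3 := card_Pr_le (k := k) hk e he.1
    rw [sum_congr rfl (fun P hP => by rw [(mem_Pr.1 hP).2.2]), sum_const, nsmul_eq_mul, mul_comm]
    exact h3
  have h3 : ∀ h : ℕ, ∑ e ∈ Icc 1 h, q ^ e ≤ 2 * q ^ h - 2 := by
    intro h
    induction h with
    | zero => simp
    | succ h ih =>
      rw [sum_Icc_succ_top (by omega), pow_succ]
      have : 1 ≤ q ^ h := one_le_pow₀ (by linarith)
      nlinarith
  have h4 : q ^ (d / 2) ≤ (Real.sqrt q) ^ d := by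
    have h5 : (Real.sqrt q) ^ (2 * (d / 2)) = q ^ (d / 2) := by
      rw [pow_mul, Real.sq_sqrt (by linarith)]
    rw [← h5]
    apply pow_le_pow_right₀
    · rw [Real.one_le_sqrt]; linarith
    · omega
  calc _ ≤ _ := h1
    _ ≤ ∑ e ∈ Icc 1 (d / 2), q ^ e := sum_le_sum h2
    _ ≤ 2 * q ^ (d / 2) - 2 := h3 _
    _ ≤ _ := by linarith

theorem card_Pr_ge (hk : ringChar k ≠ 2) (d : ℕ) (hd : 1 ≤ d) :
    (Fintype.card k : ℝ) ^ d - 2 * (Real.sqrt (Fintype.card k)) ^ d ≤ (d : ℝ) * (Pr k d).card := by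
  have h1 := sum_deg (k := k) hk d hd
  have h2 := split_T (k := k) d hd (fun P => (P.natDegree : ℝ))
  have h3 := rest_le (k := k) hk d hd
  have h4 : ∑ P ∈ Pr k d, (P.natDegree : ℝ) = (d : ℝ) * (Pr k d).card := by
    rw [sum_congr rfl (fun P hP => by rw [(mem_Pr.1 hP).2.2]), sum_const, nsmul_eq_mul, mul_comm]
  have h5 : ∑ P ∈ (Irr k d).filter (fun P => P.natDegree ∣ d), (P.natDegree : ℝ) =
      (Fintype.card k : ℝ) ^ d := by exact_mod_cast h1
  rw [h5, h4] at h2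
  linarith

theorem abs_lam_le (f g : k[X]) : |(lam f g : ℝ)| ≤ 1 := by
  rcases lam_mem f g with h | h | h <;> rw [h] <;> simp

theorem char_sum (hk : ringChar k ≠ 2) {M : k[X]} (hM : M.Monic) (hM1 : 1 ≤ M.natDegree)
    (hns : ∀ (c : k) (h : k[X]), M ≠ C c * h ^ 2) (d : ℕ) (hd : 1 ≤ d) :
    (d : ℝ) * |∑ P ∈ Pr k d, (lam M P : ℝ)| ≤
      (5 * M.natDegree + 2) * (Real.sqrt (Fintype.card k)) ^ d := by
  have h1 := (T_bound hk hM hM1 hns d hd).1
  have h2 : (T M d : ℝ) = ∑ P ∈ (Irr k d).filter (fun P => P.natDegree ∣ d),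
      (P.natDegree : ℝ) * (lam M P : ℝ) ^ (d / P.natDegree) := by
    rw [T]; push_cast; rfl
  have h3 := split_T (k := k) d hd (fun P => (P.natDegree : ℝ) * (lam M P : ℝ) ^ (d / P.natDegree))
  have h4 : ∑ P ∈ Pr k d, (P.natDegree : ℝ) * (lam M P : ℝ) ^ (d / P.natDegree) =
      (d : ℝ) * ∑ P ∈ Pr k d, (lam M P : ℝ) := by
    rw [mul_sum]
    refine sum_congr rfl fun P hP => ?_
    rw [(mem_Pr.1 hP).2.2, Nat.div_self (by omega), pow_one]
  have h5 : |∑ P ∈ (Irr k d).filter (fun P => P.natDegree ∣ d ∧ P.natDegree < d),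
      (P.natDegree : ℝ) * (lam M P : ℝ) ^ (d / P.natDegree)| ≤
      2 * (Real.sqrt (Fintype.card k)) ^ d := by
    refine (abs_sum_le_sum_abs _ _).trans ((sum_le_sum fun P hP => ?_).trans (rest_le hk d hd))
    rw [abs_mul, abs_pow, Nat.abs_cast]
    calc (P.natDegree : ℝ) * |(lam M P : ℝ)| ^ (d / P.natDegree) ≤ (P.natDegree : ℝ) * 1 := by
          apply mul_le_mul_of_nonneg_left _ (by positivity)
          exact pow_le_one₀ (abs_nonneg _) (abs_lam_le _ _)
      _ = _ := mul_one _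
  have h6 : (d : ℝ) * |∑ P ∈ Pr k d, (lam M P : ℝ)| = |(d : ℝ) * ∑ P ∈ Pr k d, (lam M P : ℝ)| := by
    rw [abs_mul, Nat.abs_cast]
  rw [h6, ← h4]
  have h7 : ∑ P ∈ Pr k d, (P.natDegree : ℝ) * (lam M P : ℝ) ^ (d / P.natDegree) =
      (T M d : ℝ) - ∑ P ∈ (Irr k d).filter (fun P => P.natDegree ∣ d ∧ P.natDegree < d),
      (P.natDegree : ℝ) * (lam M P : ℝ) ^ (d / P.natDegree) := by
    rw [h2, h3]; ring
  rw [h7]
  calc _ ≤ |(T M d : ℝ)| + |∑ P ∈ (Irr k d).filter (fun P => P.natDegree ∣ d ∧ P.natDegree < d),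
      (P.natDegree : ℝ) * (lam M P : ℝ) ^ (d / P.natDegree)| := abs_sub _ _
    _ ≤ _ := by linarith

end Pool.Agent.Y164.PS
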