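import Pool.Agent.Y164.PS.Sym

/-!
Products of given primes.
-/

set_option autoImplicit false
set_option linter.all false

open Polynomial IsDedekindDomain
open scoped Classical

namespace Pool.Agent.Y164.PS

open Pool.Agent.H341R2.Sharp Finset

variable {k : Type} [Field k] [Fintype k] [DecidableEq k]
variable {κ : Type} [Fintype κ]

/-- the product of given primes -/
noncomputable def el (R : κ → k[X]) (r : k) (n : κ → ℕ) : k[X] := C r * ∏ x, R x ^ n x

/-- the symbol of the part prime to `P` -/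
noncomputable def Lm (R : κ → k[X]) (r : k) (n : κ → ℕ) (P : k[X]) : F2 :=
  ∑ x, (n x : F2) * L (R x) P + (P.natDegree : F2) * ch r

/-- a family of primes -/
structure Fam (R : κ → k[X]) : Prop where
  mon : ∀ x, (R x).Monic
  irr : ∀ x, Irreducible (R x)
  inj : Function.Injective R

variable {R : κ → k[X]}

theorem el_mul (r r' : k) (n n' : κ → ℕ) : el R r n * el R r' n' = el R (r * r') (n + n') := by
  simp only [el, Pi.add_apply, pow_add, prod_mul_distrib, C_mul]
  ring

theorem Lm_mul {r r' : k} (hr : r ≠ 0) (hr' : r' ≠ 0) (n n' : κ → ℕ) (P : k[X]) :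
    Lm R (r * r') (n + n') P = Lm R r n P + Lm R r' n' P := by
  simp only [Lm, Pi.add_apply, Nat.cast_add, add_mul, sum_add_distrib, ch_mul hr hr', mul_add]
  ring

theorem el_ne (hR : Fam R) {r : k} (hr : r ≠ 0) (n : κ → ℕ) : el R r n ≠ 0 :=
  mul_ne_zero (C_ne_zero.2 hr) (prod_ne_zero_iff.2 fun x _ => pow_ne_zero _ (hR.mon x).ne_zero)

theorem Fam.coprime (hR : Fam R) {x y : κ} (h : x ≠ y) : IsCoprime (R x) (R y) := by
  apply coprime_of_not_dvd (hR.irr y)
  intro hd
  exact h (hR.inj (eq_of_monic_of_associated (hR.mon y) (hR.mon x)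
    ((hR.irr y).associated_of_dvd (hR.irr x) hd)).symm)

theorem L_pow {f g : k[X]} (hg : g ≠ 0) (hf : f ≠ 0) (h : IsCoprime f g) (n : ℕ) :
    L (f ^ n) g = (n : F2) * L f g := by
  induction n with
  | zero =>
    rw [pow_zero, Nat.cast_zero, zero_mul]
    have := L_prod_left (s := (∅ : Finset ℕ)) (f := fun _ => f) hg (by simp) (by simp)
    simpa using this
  | succ n ih =>
    rw [pow_succ, L_mul_left hg (pow_ne_zero _ hf) hf (h.pow_left) h, ih]
    push_cast
    ring

/-- the part of `el` prime to `R x0` -/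
noncomputable def el' (R : κ → k[X]) (x0 : κ) (r : k) (n : κ → ℕ) : k[X] :=
  C r * ∏ x ∈ univ.erase x0, R x ^ n x

theorem el_eq (x0 : κ) (r : k) (n : κ → ℕ) : el R r n = R x0 ^ n x0 * el' R x0 r n := by
  rw [el, el', ← mul_prod_erase univ _ (mem_univ x0)]
  ring

theorem el'_not_dvd (hR : Fam R) (x0 : κ) {r : k} (hr : r ≠ 0) (n : κ → ℕ) :
    ¬ R x0 ∣ el' R x0 r n := by
  intro h
  rcases (hR.irr x0).prime.dvd_or_dvd h with h | h
  · exact (hR.irr x0).not_isUnit (isUnit_of_dvd_unit h (isUnit_C.2 (isUnit_iff_ne_zero.2 hr)))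
  · rw [(hR.irr x0).prime.dvd_finset_prod_iff] at h
    obtain ⟨y, hy, h⟩ := h
    have h1 := (hR.irr x0).prime.dvd_of_dvd_pow h
    exact (hR.irr x0).not_isUnit ((hR.coprime (ne_of_mem_erase hy).symm).isUnit_of_dvd' dvd_rfl h1)

theorem L_el' (hR : Fam R) (x0 : κ) {r : k} (hr : r ≠ 0) (n : κ → ℕ) :
    L (el' R x0 r n) (R x0) = Lm R r n (R x0) := by
  have h0 := (hR.irr x0).ne_zero
  have hcop : ∀ x ∈ univ.erase x0, IsCoprime (R x ^ n x) (R x0) := fun x hx =>
    (hR.coprime (ne_of_mem_erase hx)).pow_left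
  rw [el', L_mul_left h0 (C_ne_zero.2 hr)
    (prod_ne_zero_iff.2 fun x _ => pow_ne_zero _ (hR.mon x).ne_zero) (coprime_C hr _)
    (IsCoprime.prod_left hcop), L_C hr, L_prod_left h0
    (fun x _ => pow_ne_zero _ (hR.mon x).ne_zero) hcop, Lm,
    ← add_sum_erase univ (fun x => (n x : F2) * L (R x) (R x0)) (mem_univ x0)]
  have h1 : L (R x0) (R x0) = 0 := by
    apply L_of_not_coprime h0
    intro h
    exact (hR.irr x0).not_isUnit (h.isUnit_of_dvd' dvd_rfl dvd_rfl)
  rw [h1, mul_zero, zero_add, add_comm]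
  congr 1
  exact sum_congr rfl fun x hx =>
    L_pow h0 (hR.mon x).ne_zero (hR.coprime (ne_of_mem_erase hx)) _

theorem cast_eq_zero_iff_even (n : ℕ) : (n : F2) = 0 ↔ Even n := ZMod.natCast_eq_zero_iff_even

theorem F2_eq_of_add {x y : F2} (h : x + y = 0) : x = y := by
  revert x y; decide

end Pool.Agent.Y164.PS
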