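import Pool.Agent.Y164.PS.El0
import Pool.Agent.Y164.PS.Chr

/-!
The data attached to the bad primes of the curve.
-/

set_option autoImplicit false
set_option linter.all false

open Polynomial IsDedekindDomain
open scoped Classical

namespace Pool.Agent.Y164.PS

open Pool.Agent.H341R2.Sharp Finset UniqueFactorizationMonoid

variable {k : Type} [Field k] [Fintype k] [DecidableEq k]

/-- the monic irreducible divisors of `a b (a - b)` -/
noncomputable def bp (a b : k[X]) : Finset k[X] :=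
  (Irr k (a * b * (a - b)).natDegree).filter fun Q => Q ∣ a * b * (a - b)

/-- the type of the bad primes -/
abbrev Tau (a b : k[X]) : Type := {Q : k[X] // Q ∈ bp a b}

/-- the bad primes -/
def QQ (a b : k[X]) (s : Tau a b) : k[X] := s.1

/-- the multiplicity -/
noncomputable def mu (f Q : k[X]) : ℕ := (normalizedFactors f).count Q

/-- the hypotheses on `a`, `b` -/
structure Hyp (a b : k[X]) (N : ℕ) : Prop where
  hk : ringChar k ≠ 2
  hm : IsSquare (-1 : k)
  ha : a ≠ 0
  hb : b ≠ 0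
  hab : a ≠ b
  hco : IsCoprime a b
  da : a.natDegree = N
  db : b.natDegree = N
  dc : (a - b).natDegree = N

variable {a b : k[X]} {N : ℕ} (H : Hyp a b N)

include H in
theorem Hyp.prod_ne : a * b * (a - b) ≠ 0 :=
  mul_ne_zero (mul_ne_zero H.ha H.hb) (sub_ne_zero.2 H.hab)

include H in
theorem mem_bp {Q : k[X]} : Q ∈ bp a b ↔ Q.Monic ∧ Irreducible Q ∧ Q ∣ a * b * (a - b) := by
  rw [bp, mem_filter, mem_Irr]
  constructor
  · rintro ⟨⟨h1, h2, _⟩, h3⟩
    exact ⟨h1, h2, h3⟩
  · rintro ⟨h1, h2, h3⟩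
    exact ⟨⟨h1, h2, natDegree_le_of_dvd h3 H.prod_ne⟩, h3⟩

include H in
theorem Hyp.fam : Fam (QQ a b) where
  mon := fun s => ((mem_bp H).1 s.2).1
  irr := fun s => ((mem_bp H).1 s.2).2.1
  inj := Subtype.val_injective

include H in
theorem Hyp.coac : IsCoprime a (a - b) := by
  obtain ⟨x, y, h⟩ := H.hco
  exact ⟨x + y, -y, by linear_combination h⟩

include H in
theorem Hyp.cobc : IsCoprime b (a - b) := by
  obtain ⟨x, y, h⟩ := H.hco
  exact ⟨x + y, x, by linear_combination h⟩

include H in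
/-- the types of the bad primes -/
theorem tri (s : Tau a b) : (QQ a b s ∣ a ∧ ¬ QQ a b s ∣ b ∧ ¬ QQ a b s ∣ a - b) ∨
    (¬ QQ a b s ∣ a ∧ QQ a b s ∣ b ∧ ¬ QQ a b s ∣ a - b) ∨
    (¬ QQ a b s ∣ a ∧ ¬ QQ a b s ∣ b ∧ QQ a b s ∣ a - b) := by
  obtain ⟨h1, h2, h3⟩ := (mem_bp H).1 s.2
  have cop : ∀ {p q : k[X]}, IsCoprime p q → QQ a b s ∣ p → ¬ QQ a b s ∣ q :=
    fun h hp hq => h2.not_isUnit (h.isUnit_of_dvd' hp hq)
  rcases h2.prime.dvd_or_dvd h3 with h | h
  · rcases h2.prime.dvd_or_dvd h with h | h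
    · exact Or.inl ⟨h, cop H.hco h, cop H.coac h⟩
    · exact Or.inr (Or.inl ⟨cop H.hco.symm h, h, cop H.cobc h⟩)
  · exact Or.inr (Or.inr ⟨cop H.coac.symm h, cop H.cobc.symm h, h⟩)

theorem mu_eq_zero {f Q : k[X]} (h : ¬ Q ∣ f) : mu f Q = 0 := by
  rw [mu, Multiset.count_eq_zero]
  exact fun h' => h (dvd_of_mem_normalizedFactors h')

include H in
/-- factorization -/
theorem fac {f : k[X]} (hf : f ≠ 0) (hd : ∀ Q : k[X], Q ∣ f → Q ∣ a * b * (a - b)) :
    f = el (QQ a b) f.leadingCoeff (fun s => mu f s.1) := by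
  have h1 : (normalizedFactors f).prod = C f.leadingCoeff⁻¹ * f := by
    rw [prod_normalizedFactors_eq hf, normalize_apply, coe_normUnit_of_ne_zero hf, mul_comm]
  have h2 : (normalizedFactors f).prod = ∏ s : Tau a b, s.1 ^ mu f s.1 := by
    rw [prod_multiset_count]
    have h3 : (normalizedFactors f).toFinset ⊆ bp a b := by
      intro Q hQ
      rw [Multiset.mem_toFinset] at hQ
      rw [mem_bp H]
      exact ⟨((Polynomial.mem_normalizedFactors_iff hf).1 hQ).2.1, irreducible_of_normalized_factor Q hQ,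
        hd Q (dvd_of_mem_normalizedFactors hQ)⟩
    rw [prod_subset h3 (fun Q _ hQ => by
      rw [Multiset.mem_toFinset] at hQ
      rw [Multiset.count_eq_zero_of_notMem hQ, pow_zero])]
    exact (prod_coe_sort (bp a b) (fun Q => Q ^ mu f Q)).symm
  have hl : f.leadingCoeff ≠ 0 := leadingCoeff_ne_zero.2 hf
  show f = C f.leadingCoeff * ∏ s : Tau a b, s.1 ^ mu f s.1
  rw [← h2, h1, ← mul_assoc, ← C_mul, mul_inv_cancel₀ hl, C_1, one_mul]

include H in
theorem dvd3 : (∀ Q : k[X], Q ∣ a → Q ∣ a * b * (a - b)) ∧ (∀ Q : k[X], Q ∣ b → Q ∣ a * b * (a - b)) ∧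
    (∀ Q : k[X], Q ∣ a - b → Q ∣ a * b * (a - b)) :=
  ⟨fun Q h => (h.mul_right _).mul_right _, fun Q h => (h.mul_left _).mul_right _,
    fun Q h => h.mul_left _⟩

include H in
theorem deg_fac {f : k[X]} (hf : f ≠ 0) (hd : ∀ Q : k[X], Q ∣ f → Q ∣ a * b * (a - b)) :
    f.natDegree = ∑ s : Tau a b, mu f s.1 * (QQ a b s).natDegree := by
  have hl : f.leadingCoeff ≠ 0 := leadingCoeff_ne_zero.2 hf
  conv_lhs => rw [fac H hf hd]
  rw [el, natDegree_C_mul hl, natDegree_prod_of_monic _ _ fun s _ => ((H.fam).mon s).pow _]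
  refine sum_congr rfl fun s _ => ?_
  rw [((H.fam).mon s).natDegree_pow]

include H in
theorem L_fac {f : k[X]} (hf : f ≠ 0) (hd : ∀ Q : k[X], Q ∣ f → Q ∣ a * b * (a - b))
    (s : Tau a b) (hs : ¬ QQ a b s ∣ f) :
    L f (QQ a b s) = ∑ s', (mu f s'.1 : F2) * L (QQ a b s') (QQ a b s) +
      ((QQ a b s).natDegree : F2) * ch f.leadingCoeff := by
  have hl : f.leadingCoeff ≠ 0 := leadingCoeff_ne_zero.2 hf
  have h1 := fac H hf hd
  have h2 : f = el' (QQ a b) s f.leadingCoeff (fun s => mu f s.1) := by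
    conv_lhs => rw [h1, el_eq s]
    have : mu f s.1 = 0 := mu_eq_zero hs
    simp only [this, pow_zero, one_mul]
  conv_lhs => rw [h2]
  rw [L_el' H.fam s hl]
  rfl

theorem id1 : ∀ A B C y1 y2 : F2, A * B = 0 → A * C = 0 → B * C = 0 →
    (y1 * (A + C) + y2 * (A + B)) * (B + C) = y1 * C + y2 * B := by decide

theorem id2 : ∀ A B C y1 y2 : F2, A * B = 0 → A * C = 0 → B * C = 0 →
    (y1 * (A + C) + y2 * (A + B)) * (A + C) = y1 * (A + C) + y2 * A := by decide

theorem id3 : ∀ A B C y1 y2 : F2, A * B = 0 → A * C = 0 → B * C = 0 →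
    (y1 * (A + C) + y2 * (A + B)) * (A + B) = y1 * A + y2 * (A + B) := by decide

/-- the vectors `t` -/
noncomputable def tv (a b : k[X]) (s : Tau a b) : W :=
  ((mu a s.1 : F2) + mu b s.1, (mu a s.1 : F2) + mu (a - b) s.1)

include H in
theorem cross (s : Tau a b) : ((mu a s.1 : F2) * mu b s.1 = 0) ∧
    ((mu a s.1 : F2) * mu (a - b) s.1 = 0) ∧ ((mu b s.1 : F2) * mu (a - b) s.1 = 0) := by
  rcases tri H s with ⟨h1, h2, h3⟩ | ⟨h1, h2, h3⟩ | ⟨h1, h2, h3⟩
  · have e2 : mu b s.1 = 0 := mu_eq_zero h2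
    have e3 : mu (a - b) s.1 = 0 := mu_eq_zero h3
    rw [e2, e3]; simp
  · have e1 : mu a s.1 = 0 := mu_eq_zero h1
    have e3 : mu (a - b) s.1 = 0 := mu_eq_zero h3
    rw [e1, e3]; simp
  · have e1 : mu a s.1 = 0 := mu_eq_zero h1
    have e2 : mu b s.1 = 0 := mu_eq_zero h2
    rw [e1, e2]; simp

/-- the values at the bad primes -/
noncomputable def gv (a b : k[X]) (s : Tau a b) : F2 :=
  if QQ a b s ∣ a then L b (QQ a b s) else L a (QQ a b s)

/-- the data -/
noncomputable def datum : Dat (Tau a b) where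
  t := tv a b
  G := fun s s' => L (QQ a b s) (QQ a b s')
  e := fun s => ((QQ a b s).natDegree : F2)
  l := (ch a.leadingCoeff, ch b.leadingCoeff, ch (a - b).leadingCoeff)
  N := (N : F2)
  g := gv a b
  symm := fun s s' => L_comm H.hm _ _
  h1 := by
    intro s y
    have hc : a - b ≠ 0 := sub_ne_zero.2 H.hab
    obtain ⟨da, db, dc⟩ := dvd3 H
    have S : ∀ {f : k[X]}, f ≠ 0 → (∀ Q : k[X], Q ∣ f → Q ∣ a * b * (a - b)) → ¬ QQ a b s ∣ f →
        ∑ s', L (QQ a b s) (QQ a b s') * (mu f s'.1 : F2) =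
        L f (QQ a b s) + ((QQ a b s).natDegree : F2) * ch f.leadingCoeff := by
      intro f hf hd hs
      rw [L_fac H hf hd s hs]
      have h1 : ∑ s', L (QQ a b s) (QQ a b s') * (mu f s'.1 : F2) =
          ∑ s', (mu f s'.1 : F2) * L (QQ a b s') (QQ a b s) :=
        sum_congr rfl fun s' _ => by rw [L_comm H.hm, mul_comm]
      rw [h1]
      have := F2_add_self (((QQ a b s).natDegree : F2) * ch f.leadingCoeff)
      rw [add_assoc, this, add_zero]
    have hirr := (H.fam).irr s
    have hmon := (H.fam).mon s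
    rcases tri H s with ⟨h1, h2, h3⟩ | ⟨h1, h2, h3⟩ | ⟨h1, h2, h3⟩
    · have e2 : mu b s.1 = 0 := mu_eq_zero h2
      have e3 : mu (a - b) s.1 = 0 := mu_eq_zero h3
      have hL : L (a - b) (QQ a b s) = L b (QQ a b s) := by
        rw [← L_neg_left H.hk H.hm hmon hirr]
        apply L_congr H.hk hmon hirr
        have : -(a - b) - b = -a := by ring
        rw [this]
        exact (dvd_neg).2 h1
      have k1 : ∀ s', L (QQ a b s) (QQ a b s') * (om y (tv a b s') * om (tv a b s') (tv a b s)) =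
          (mu a s.1 : F2) * (y.1 * (L (QQ a b s) (QQ a b s') * (mu (a - b) s'.1 : F2)) +
            y.2 * (L (QQ a b s) (QQ a b s') * (mu b s'.1 : F2))) := by
        intro s'
        obtain ⟨c1, c2, c3⟩ := cross H s'
        have := id1 (mu a s'.1) (mu b s'.1) (mu (a - b) s'.1) y.1 y.2 c1 c2 c3
        simp only [om, tv, e2, e3, Nat.cast_zero, add_zero]
        linear_combination (L (QQ a b s) (QQ a b s') * (mu a s.1 : F2)) * this +
          (L (QQ a b s) (QQ a b s') * (mu a s.1 : F2) * (mu a s'.1 : F2) *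
            (y.1 * (mu a s'.1 + mu (a - b) s'.1) + y.2 * (mu a s'.1 + mu b s'.1))) * F2_add_self 1
      rw [sum_congr rfl (fun s' _ => k1 s'), ← mul_sum, sum_add_distrib, ← mul_sum, ← mul_sum,
        S hc dc h3, S H.hb db h2, hL, gv, if_pos h1]
      simp only [om, ks, tv, e2, e3, Nat.cast_zero, add_zero]
      linear_combination ((QQ a b s).natDegree : F2) * (mu a s.1 : F2) *
        (y.1 * ch (a - b).leadingCoeff + y.2 * ch b.leadingCoeff + y.1 * ch a.leadingCoeff +
          y.2 * ch a.leadingCoeff) * F2_add_self 1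
    · have e1 : mu a s.1 = 0 := mu_eq_zero h1
      have e3 : mu (a - b) s.1 = 0 := mu_eq_zero h3
      have hL : L (a - b) (QQ a b s) = L a (QQ a b s) := by
        apply L_congr H.hk hmon hirr
        have : a - b - a = -b := by ring
        rw [this]
        exact (dvd_neg).2 h2
      have k1 : ∀ s', L (QQ a b s) (QQ a b s') * (om y (tv a b s') * om (tv a b s') (tv a b s)) =
          (mu b s.1 : F2) * (y.1 * (L (QQ a b s) (QQ a b s') * (mu a s'.1 : F2)) +
            y.1 * (L (QQ a b s) (QQ a b s') * (mu (a - b) s'.1 : F2)) +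
            y.2 * (L (QQ a b s) (QQ a b s') * (mu a s'.1 : F2))) := by
        intro s'
        obtain ⟨c1, c2, c3⟩ := cross H s'
        have := id2 (mu a s'.1) (mu b s'.1) (mu (a - b) s'.1) y.1 y.2 c1 c2 c3
        simp only [om, tv, e1, e3, Nat.cast_zero, add_zero, zero_add]
        linear_combination (L (QQ a b s) (QQ a b s') * (mu b s.1 : F2)) * this
      rw [sum_congr rfl (fun s' _ => k1 s'), ← mul_sum, sum_add_distrib, sum_add_distrib, ← mul_sum,
        ← mul_sum, ← mul_sum, S hc dc h3, S H.ha da h1, hL, gv, if_neg h1]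
      simp only [om, ks, tv, e1, e3, Nat.cast_zero, add_zero, zero_add]
      linear_combination (((QQ a b s).natDegree : F2) * (mu b s.1 : F2) *
        (y.1 * ch (a - b).leadingCoeff + y.1 * ch a.leadingCoeff +
          y.2 * ch a.leadingCoeff) + (mu b s.1 : F2) * y.1 * L a (QQ a b s)) * F2_add_self 1
    · have e1 : mu a s.1 = 0 := mu_eq_zero h1
      have e2 : mu b s.1 = 0 := mu_eq_zero h2
      have hL : L b (QQ a b s) = L a (QQ a b s) := by
        symm
        apply L_congr H.hk hmon hirr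
        exact h3
      have k1 : ∀ s', L (QQ a b s) (QQ a b s') * (om y (tv a b s') * om (tv a b s') (tv a b s)) =
          (mu (a - b) s.1 : F2) * (y.1 * (L (QQ a b s) (QQ a b s') * (mu a s'.1 : F2)) +
            y.2 * (L (QQ a b s) (QQ a b s') * (mu a s'.1 : F2)) +
            y.2 * (L (QQ a b s) (QQ a b s') * (mu b s'.1 : F2))) := by
        intro s'
        obtain ⟨c1, c2, c3⟩ := cross H s'
        have := id3 (mu a s'.1) (mu b s'.1) (mu (a - b) s'.1) y.1 y.2 c1 c2 c3
        simp only [om, tv, e1, e2, Nat.cast_zero, add_zero, zero_add]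
        linear_combination (L (QQ a b s) (QQ a b s') * (mu (a - b) s.1 : F2)) * this
      rw [sum_congr rfl (fun s' _ => k1 s'), ← mul_sum, sum_add_distrib, sum_add_distrib, ← mul_sum,
        ← mul_sum, ← mul_sum, S H.hb db h2, S H.ha da h1, hL, gv, if_neg h1]
      simp only [om, ks, tv, e1, e2, Nat.cast_zero, add_zero, zero_add]
      linear_combination (((QQ a b s).natDegree : F2) * (mu (a - b) s.1 : F2) *
        (y.1 * ch a.leadingCoeff + y.2 * ch a.leadingCoeff +
          y.2 * ch b.leadingCoeff) + (mu (a - b) s.1 : F2) * y.2 * L a (QQ a b s)) * F2_add_self 1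
  h4 := by
    intro y
    have hc : a - b ≠ 0 := sub_ne_zero.2 H.hab
    obtain ⟨da, db, dc⟩ := dvd3 H
    have S : ∀ {f : k[X]}, f ≠ 0 → (∀ Q : k[X], Q ∣ f → Q ∣ a * b * (a - b)) → f.natDegree = N →
        ∑ s : Tau a b, ((QQ a b s).natDegree : F2) * (mu f s.1 : F2) = (N : F2) := by
      intro f hf hd hN
      rw [← hN, deg_fac H hf hd]
      push_cast
      exact sum_congr rfl fun s _ => mul_comm _ _
    have Sa := S H.ha da H.da
    have Sb := S H.hb db H.db
    have Sc := S hc dc H.dc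
    apply Prod.ext
    · rw [Prod.fst_sum]
      have k1 : ∀ s : Tau a b, ((((QQ a b s).natDegree : F2) * om y (tv a b s)) • tv a b s).1 =
          y.1 * (((QQ a b s).natDegree : F2) * (mu a s.1 : F2)) +
          y.2 * (((QQ a b s).natDegree : F2) * (mu a s.1 : F2)) +
          y.2 * (((QQ a b s).natDegree : F2) * (mu b s.1 : F2)) := by
        intro s
        obtain ⟨c1, c2, c3⟩ := cross H s
        have := id3 (mu a s.1) (mu b s.1) (mu (a - b) s.1) y.1 y.2 c1 c2 c3
        simp only [om, tv, Prod.smul_fst, smul_eq_mul]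
        linear_combination ((QQ a b s).natDegree : F2) * this
      rw [sum_congr rfl (fun s _ => k1 s), sum_add_distrib, sum_add_distrib, ← mul_sum, ← mul_sum,
        ← mul_sum, Sa, Sb]
      show _ = (N : F2) * y.1
      linear_combination (y.2 * (N : F2)) * F2_add_self 1
    · rw [Prod.snd_sum]
      have k1 : ∀ s : Tau a b, ((((QQ a b s).natDegree : F2) * om y (tv a b s)) • tv a b s).2 =
          y.1 * (((QQ a b s).natDegree : F2) * (mu a s.1 : F2)) +
          y.1 * (((QQ a b s).natDegree : F2) * (mu (a - b) s.1 : F2)) +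
          y.2 * (((QQ a b s).natDegree : F2) * (mu a s.1 : F2)) := by
        intro s
        obtain ⟨c1, c2, c3⟩ := cross H s
        have := id2 (mu a s.1) (mu b s.1) (mu (a - b) s.1) y.1 y.2 c1 c2 c3
        simp only [om, tv, Prod.smul_snd, smul_eq_mul]
        linear_combination ((QQ a b s).natDegree : F2) * this
      rw [sum_congr rfl (fun s _ => k1 s), sum_add_distrib, sum_add_distrib, ← mul_sum, ← mul_sum,
        ← mul_sum, Sa, Sc]
      show _ = (N : F2) * y.2
      linear_combination (y.1 * (N : F2)) * F2_add_self 1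
  h3 := by
    have hc : a - b ≠ 0 := sub_ne_zero.2 H.hab
    obtain ⟨da, db, dc⟩ := dvd3 H
    have S : ∀ {f : k[X]}, f ≠ 0 → (∀ Q : k[X], Q ∣ f → Q ∣ a * b * (a - b)) → f.natDegree = N →
        ∑ s : Tau a b, ((QQ a b s).natDegree : F2) * (mu f s.1 : F2) = (N : F2) := by
      intro f hf hd hN
      rw [← hN, deg_fac H hf hd]
      push_cast
      exact sum_congr rfl fun s _ => mul_comm _ _
    have Sa := S H.ha da H.da
    have Sb := S H.hb db H.db
    have Sc := S hc dc H.dc
    apply Prod.ext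
    · rw [Prod.fst_sum]
      show ∑ s : Tau a b, ((QQ a b s).natDegree : F2) * ((mu a s.1 : F2) + mu b s.1) = 0
      simp only [mul_add, sum_add_distrib, Sa, Sb, F2_add_self]
    · rw [Prod.snd_sum]
      show ∑ s : Tau a b, ((QQ a b s).natDegree : F2) * ((mu a s.1 : F2) + mu (a - b) s.1) = 0
      simp only [mul_add, sum_add_distrib, Sa, Sc, F2_add_self]

include H in
/-- at least two of the three types have odd multiplicity somewhere -/
theorem two_types (h1 : ∀ (c : k) (h : k[X]), a * b ≠ C c * h ^ 2)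
    (h2 : ∀ (c : k) (h : k[X]), a * (a - b) ≠ C c * h ^ 2)
    (h3 : ∀ (c : k) (h : k[X]), b * (a - b) ≠ C c * h ^ 2) (u : W) (hu : u ≠ 0) :
    ∃ s, om u ((datum H).t s) ≠ 0 := by
  have hc : a - b ≠ 0 := sub_ne_zero.2 H.hab
  obtain ⟨da, db, dc⟩ := dvd3 H
  have key : ∀ {f g : k[X]}, f ≠ 0 → g ≠ 0 → (∀ Q : k[X], Q ∣ f → Q ∣ a * b * (a - b)) →
      (∀ Q : k[X], Q ∣ g → Q ∣ a * b * (a - b)) →
      (∀ s : Tau a b, (mu f s.1 : F2) + mu g s.1 = 0) → ∃ (c : k) (h : k[X]), f * g = C c * h ^ 2 := by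
    intro f g hf hg hdf hdg he
    have h5 : ∀ s : Tau a b, ∃ m, mu f s.1 + mu g s.1 = m + m := by
      intro s
      have : Even (mu f s.1 + mu g s.1) := by
        rw [← cast_eq_zero_iff_even, Nat.cast_add]
        exact he s
      exact this
    choose m hm using h5
    refine ⟨f.leadingCoeff * g.leadingCoeff, ∏ s : Tau a b, s.1 ^ m s, ?_⟩
    have h6 : f * g = el (QQ a b) (f.leadingCoeff * g.leadingCoeff)
        ((fun s : Tau a b => mu f s.1) + (fun s : Tau a b => mu g s.1)) := by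
      rw [← el_mul, ← fac H hf hdf, ← fac H hg hdg]
    rw [h6, el]
    congr 1
    rw [← prod_pow]
    refine prod_congr rfl fun s _ => ?_
    show s.1 ^ (mu f s.1 + mu g s.1) = _
    rw [hm, pow_add, pow_two]
  by_contra hno
  push Not at hno
  have hcases : ∀ u : W, u ≠ 0 → u = (1, 1) ∨ u = (1, 0) ∨ u = (0, 1) := by decide
  rcases hcases u hu with rfl | rfl | rfl
  · obtain ⟨c, h, e⟩ := key H.hb hc db dc (by
      intro s
      have := hno s
      simp only [om, datum, tv] at this
      linear_combination this - (mu a s.1 : F2) * F2_add_self 1)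
    exact h3 c h e
  · obtain ⟨c, h, e⟩ := key H.ha hc da dc (by
      intro s
      have := hno s
      simp only [om, datum, tv] at this
      linear_combination this)
    exact h2 c h e
  · obtain ⟨c, h, e⟩ := key H.ha H.hb da db (by
      intro s
      have := hno s
      simp only [om, datum, tv] at this
      linear_combination this)
    exact h1 c h e

end Pool.Agent.Y164.PS
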