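import Pool.Agent.Y164.PS.Fib
import Pool.Agent.Y164.PS.BadP

/-!
Squarefree polynomials with a given number of prime factors.
-/

set_option autoImplicit false
set_option linter.all false

namespace Pool.Agent.Y164.PS

open Finset Polynomial Pool.Agent.H341R2.Sharp
open scoped Classical

variable {k : Type} [Field k] [Fintype k] [DecidableEq k]
variable {ι : Type} [Fintype ι]
variable {a b : k[X]} {N : ℕ} (H : Hyp a b N)

/-- no bad prime divides -/
def nb (a b D : k[X]) : Prop := ∀ s : Tau a b, ¬ QQ a b s ∣ D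

/-- the class condition -/
def gcl (a b D : k[X]) : Prop := ∀ s : Tau a b, 1 + L D (QQ a b s) + gv a b s = 0

include H in
theorem ok_iff {n : ℕ} {T : ι → k[X]} (hT : T ∈ Tp k ι n) :
    ok (QQ a b) T ↔ Function.Injective T ∧ nb a b (∏ i, T i) := by
  have h1 := (mem_Tp.1 hT).1
  constructor
  · intro h
    refine ⟨fun i j hij => Sum.inl_injective (h (a₁ := Sum.inl i) (a₂ := Sum.inl j) hij), ?_⟩
    intro s hs
    obtain ⟨i, -, hd⟩ := (((H.fam).irr s).prime.dvd_finset_prod_iff _).1 hs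
    have h2 : T i = QQ a b s := (eq_of_monic_of_associated (H.fam.mon s) (h1 i).1
      ((H.fam.irr s).associated_of_dvd (h1 i).2 hd)).symm
    have h3 : (Sum.inl i : ι ⊕ Tau a b) = Sum.inr s := h h2
    cases h3
  · rintro ⟨h2, h3⟩
    rintro (i | s) (j | s') h
    · exact congrArg _ (h2 h)
    · exfalso
      apply h3 s'
      have h' : T i = QQ a b s' := h
      rw [← h']
      exact dvd_prod_of_mem _ (mem_univ i)
    · exfalso
      apply h3 s
      have h' : QQ a b s = T j := h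
      rw [h']
      exact dvd_prod_of_mem _ (mem_univ j)
    · exact congrArg _ (H.fam.inj h)

theorem cl_iff {n : ℕ} {T : ι → k[X]} (hT : T ∈ Tp k ι n) (hn : nb a b (∏ i, T i)) :
    cl (datum H) (QQ a b) T ↔ gcl a b (∏ i, T i) := by
  have h1 := (mem_Tp.1 hT).1
  apply forall_congr'
  intro s
  have h2 : L (∏ i, T i) (QQ a b s) = ∑ i, BT (QQ a b) T i s := by
    apply L_prod_left (H.fam.irr s).ne_zero (fun i _ => (h1 i).1.ne_zero)
    intro i _
    apply coprime_of_not_dvd (H.fam.irr s)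
    intro hd
    exact hn s (hd.trans (dvd_prod_of_mem _ (mem_univ i)))
  rw [h2]
  rfl

theorem numcore {n m t N0 S r pr : ℝ} {d z : ℕ} (hr2 : 2 ≤ r) (hzd : z ≤ d) (hz : 2 ≤ z)
    (hdn : (d : ℝ) ≤ n) (hmn : m ≤ n) (hm0 : 0 ≤ m) (ht : 0 ≤ t) (hN0 : 0 ≤ N0) (hS0 : 0 ≤ S)
    (hS : (d : ℝ) * S ≤ (5 * N0 + 2) * r ^ d) (h4 : (r ^ d) ^ 2 - 2 * r ^ d ≤ d * pr) :
    S + (m + t) ≤ 2 * (5 * N0 + 2 + n * (n + t)) / 2 ^ z * pr := by
  have h5 : (2 : ℝ) ^ z ≤ r ^ d := by
    calc (2 : ℝ) ^ z ≤ 2 ^ d := pow_le_pow_right₀ (by norm_num) hzd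
      _ ≤ r ^ d := pow_le_pow_left₀ (by norm_num) hr2 d
  have h6 : (4 : ℝ) ≤ r ^ d := by
    refine le_trans ?_ h5
    calc (4 : ℝ) = 2 ^ 2 := by norm_num
      _ ≤ 2 ^ z := pow_le_pow_right₀ (by norm_num) hz
  have h7 : (r ^ d) ^ 2 / 2 ≤ d * pr := by nlinarith
  have hdp : (0 : ℝ) < d := by
    have : 0 < d := by omega
    exact_mod_cast this
  have hn0 : 0 ≤ n := hm0.trans hmn
  have h8 : (d : ℝ) * (S + (m + t)) ≤ (5 * N0 + 2 + n * (n + t)) * r ^ d := by
    have h9 : (d : ℝ) * (m + t) ≤ n * (n + t) :=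
      mul_le_mul hdn (by linarith) (by linarith) hn0
    have h10 : n * (n + t) ≤ (n * (n + t)) * r ^ d := by
      apply le_mul_of_one_le_right (mul_nonneg hn0 (by linarith))
      linarith
    linarith
  obtain ⟨B, hB⟩ : ∃ B, B = 5 * N0 + 2 + n * (n + t) := ⟨_, rfl⟩
  have hB0 : 0 ≤ B := by
    rw [hB]
    have : 0 ≤ n * (n + t) := mul_nonneg hn0 (by linarith)
    linarith
  rw [← hB] at h8 ⊢
  have h2z : (0 : ℝ) < 2 ^ z := by positivity
  have hrd : 0 < r ^ d := by linarith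
  have h9 : B * r ^ d ≤ 2 * B / 2 ^ z * (d * pr) := by
    have h10 : 2 * B / 2 ^ z * ((r ^ d) ^ 2 / 2) ≤ 2 * B / 2 ^ z * (d * pr) :=
      mul_le_mul_of_nonneg_left h7 (div_nonneg (by linarith) h2z.le)
    refine le_trans ?_ h10
    have h11 : 2 * B / 2 ^ z * ((r ^ d) ^ 2 / 2) = B * r ^ d * (r ^ d / 2 ^ z) := by
      field_simp
    rw [h11]
    apply le_mul_of_one_le_right (mul_nonneg hB0 hrd.le)
    rw [one_le_div h2z]
    exact h5
  have h10 : (d : ℝ) * (S + (m + t)) ≤ d * (2 * B / 2 ^ z * pr) := by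
    linarith
  exact le_of_mul_le_mul_left h10 hdp

/-- total degree of the bad primes -/
noncomputable def dQ (a b : k[X]) : ℕ := ∑ s : Tau a b, (QQ a b s).natDegree

/-- the error -/
noncomputable def et (a b : k[X]) (n z : ℕ) : ℝ :=
  2 * (5 * (n + dQ a b : ℕ) + 2 + n * (n + Fintype.card (Tau a b))) / 2 ^ z

theorem et_nonneg (n z : ℕ) : 0 ≤ et a b n z := by
  have h1 : (0 : ℝ) ≤ (n + dQ a b : ℕ) := Nat.cast_nonneg _
  have h2 : (0 : ℝ) ≤ n := Nat.cast_nonneg _
  have h3 : (0 : ℝ) ≤ Fintype.card (Tau a b) := Nat.cast_nonneg _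
  have h4 : 0 ≤ (n : ℝ) * (n + Fintype.card (Tau a b)) := mul_nonneg h2 (by linarith)
  unfold et
  exact div_nonneg (by linarith) (by positivity)

theorem m_le {n : ℕ} {T : ι → k[X]} (hT : T ∈ Tp k ι n) : Fintype.card ι ≤ n := by
  have h1 := mem_Tp.1 hT
  rw [← h1.2]
  calc Fintype.card ι = ∑ i : ι, 1 := by simp
    _ ≤ _ := sum_le_sum fun i _ => (h1.1 i).2.natDegree_pos

include H in
theorem cell_inst (hq : 4 ≤ Fintype.card k) {n z : ℕ} (hz : 2 ≤ z) {T0 : ι → k[X]}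
    (hT0 : T0 ∈ Tp k ι n) (hne : (lgs z T0).Nonempty) :
    Cell (datum H) (QQ a b) (cell z T0) (lgs z T0) (n + dQ a b) (et a b n z) := by
  have hT := mem_Tp.1 hT0
  have hmn := m_le hT0
  have key : ∀ j ∈ lgs z T0, cell z T0 j = Pr k (T0 j).natDegree ∧ z ≤ (T0 j).natDegree ∧
      (T0 j).natDegree ≤ n := by
    intro j hj
    rw [lgs, mem_filter] at hj
    refine ⟨?_, hj.2, ?_⟩
    · rw [cell, if_neg (by omega)]
    · rw [← hT.2]
      exact single_le_sum (f := fun i => (T0 i).natDegree) (fun _ _ => Nat.zero_le _) (mem_univ j)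
  have est : ∀ j ∈ lgs z T0, ∀ S : ℝ, 0 ≤ S →
      ((T0 j).natDegree : ℝ) * S ≤ (5 * (n + dQ a b : ℕ) + 2) *
        (Real.sqrt (Fintype.card k)) ^ (T0 j).natDegree →
      S + (Fintype.card (ι) + Fintype.card (Tau a b)) ≤ et a b n z * (cell z T0 j).card := by
    intro j hj S hS0 hS
    obtain ⟨h1, h2, h3⟩ := key j hj
    rw [h1]
    set m : ℕ := Fintype.card ι with hm
    set d := (T0 j).natDegree with hd
    have hd1 : 1 ≤ d := by omega
    set r : ℝ := Real.sqrt (Fintype.card k) with hr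
    have hr2 : 2 ≤ r := by
      rw [hr]
      apply Real.le_sqrt_of_sq_le
      norm_num
      exact_mod_cast hq
    have hrr : (Fintype.card k : ℝ) = r ^ 2 := by
      rw [hr, Real.sq_sqrt (Nat.cast_nonneg _)]
    have h4 := card_Pr_ge (k := k) H.hk d hd1
    rw [← hr, hrr, ← pow_mul, mul_comm 2 d, pow_mul] at h4
    have hdn : (d : ℝ) ≤ n := by exact_mod_cast h3
    have hmn' : (m : ℝ) ≤ n := by exact_mod_cast hmn
    exact numcore hr2 h2 hz hdn hmn' (Nat.cast_nonneg _) (Nat.cast_nonneg _) (Nat.cast_nonneg _)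
      hS0 hS h4
  refine ⟨H.hm, H.fam.mon, H.fam.irr, ?_, ?_, ?_, ?_, ?_, et_nonneg _ _, hne⟩
  · intro i p hp
    rw [cell] at hp
    split_ifs at hp with h
    · rw [mem_singleton.1 hp]; exact (hT.1 i).1
    · exact (mem_Pr.1 hp).1
  · intro i p hp
    rw [cell] at hp
    split_ifs at hp with h
    · rw [mem_singleton.1 hp]; exact (hT.1 i).2
    · exact (mem_Pr.1 hp).2.1
  · intro T hT'
    simp only [cell_deg hT']
    rw [hT.2]
    exact le_rfl
  · intro j hj M hM hM1 hM2 hM3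
    apply est j hj _ (abs_nonneg _)
    obtain ⟨h1, h2, h3⟩ := key j hj
    rw [h1]
    refine (char_sum H.hk hM hM1 hM3 _ (by omega)).trans ?_
    apply mul_le_mul_of_nonneg_right _ (pow_nonneg (Real.sqrt_nonneg _) _)
    have : (M.natDegree : ℝ) ≤ (n + dQ a b : ℕ) := by exact_mod_cast hM2
    linarith
  · intro j hj
    have := est j hj 0 le_rfl (by
      rw [mul_zero]
      have h1 : (0 : ℝ) ≤ (n + dQ a b : ℕ) := Nat.cast_nonneg _
      exact mul_nonneg (by linarith) (pow_nonneg (Real.sqrt_nonneg _) _))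
    rw [zero_add] at this
    exact this

end Pool.Agent.Y164.PS
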