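import Pool.Agent.Y164.PS.Lvl

/-!
Squarefree polynomials with a given number of prime factors, continued.
-/

set_option autoImplicit false
set_option linter.all false

namespace Pool.Agent.Y164.PS

open Finset Polynomial Pool.Agent.H341R2.Sharp
open scoped Classical

variable {k : Type} [Field k] [Fintype k] [DecidableEq k]
variable {ι : Type} [Fintype ι]
variable {a b : k[X]} {N : ℕ} (H : Hyp a b N)

/-- typical tuples -/
noncomputable def Xt (k : Type) [Field k] [Fintype k] [DecidableEq k] (ι : Type) [Fintype ι]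
    (n z s : ℕ) : Finset (ι → k[X]) :=
  (Tp k ι n).filter fun T => Fintype.card ι - (lgs z T).card ≤ s

theorem Xt_closed {n z s : ℕ} : ∀ T0 ∈ Xt k ι n z s, ∀ T ∈ Fintype.piFinset (cell z T0),
    T ∈ Xt k ι n z s := by
  intro T0 h0 T hT
  rw [Xt, mem_filter] at h0 ⊢
  refine ⟨cell_Tp h0.1 hT, ?_⟩
  rw [lgs_eq hT]
  exact h0.2

theorem Xt_self {n z s : ℕ} : ∀ T ∈ Xt k ι n z s, T ∈ Fintype.piFinset (cell z T) := by
  intro T hT
  rw [Xt, mem_filter] at hT
  exact self_cell hT.1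

theorem num1 {m g s : ℕ} (hgm : g ≤ m) (hs : m - g ≤ s) (hm : 7 * s ≤ m) :
    (3 : ℝ) ^ g * 16 ^ (m - g) ≤ 4 ^ m * (729 / 1024) ^ s := by
  obtain ⟨r, rfl⟩ : ∃ r, m = g + r := ⟨m - g, by omega⟩
  rw [Nat.add_sub_cancel_left] at hs ⊢
  obtain ⟨g', rfl⟩ : ∃ g', g = 6 * s + g' := ⟨g - 6 * s, by omega⟩
  obtain ⟨r', rfl⟩ : ∃ r', s = r + r' := ⟨s - r, by omega⟩
  have h1 : (3 : ℝ) ^ g' ≤ 4 ^ g' := pow_le_pow_left₀ (by norm_num) (by norm_num) _
  have e1 : (3 : ℝ) ^ (6 * (r + r') + g') * 16 ^ r = 729 ^ r * 729 ^ r' * 16 ^ r * 3 ^ g' := by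
    rw [pow_add, pow_mul, pow_add]; norm_num; ring
  have e2 : (4 : ℝ) ^ (6 * (r + r') + g' + r) * (729 / 1024) ^ (r + r') =
      729 ^ r * 729 ^ r' * 16 ^ r * 4 ^ r' * 4 ^ g' := by
    have e3 : (4 : ℝ) ^ (6 * (r + r') + g' + r) =
        4096 ^ r * 4096 ^ r' * 4 ^ g' * 4 ^ r := by
      rw [pow_add, pow_add, pow_mul, pow_add]; norm_num
    have e4 : (4096 : ℝ) ^ r * 4 ^ r * (729 / 1024) ^ r = 729 ^ r * 16 ^ r := by
      rw [← mul_pow, ← mul_pow, ← mul_pow]; norm_num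
    have e5 : (4096 : ℝ) ^ r' * (729 / 1024) ^ r' = 729 ^ r' * 4 ^ r' := by
      rw [← mul_pow, ← mul_pow]; norm_num
    rw [e3, pow_add]
    calc (4096 : ℝ) ^ r * 4096 ^ r' * 4 ^ g' * 4 ^ r * ((729 / 1024) ^ r * (729 / 1024) ^ r') =
        (4096 ^ r * 4 ^ r * (729 / 1024) ^ r) * (4096 ^ r' * (729 / 1024) ^ r') * 4 ^ g' := by ring
      _ = _ := by rw [e4, e5]; ring
  rw [e1, e2]
  have h2 : (1 : ℝ) ≤ 4 ^ r' := one_le_pow₀ (by norm_num)
  have h3 : (0 : ℝ) ≤ 729 ^ r * 729 ^ r' * 16 ^ r := by positivity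
  calc (729 : ℝ) ^ r * 729 ^ r' * 16 ^ r * 3 ^ g' ≤ 729 ^ r * 729 ^ r' * 16 ^ r * 4 ^ g' :=
        mul_le_mul_of_nonneg_left h1 h3
    _ ≤ 729 ^ r * 729 ^ r' * 16 ^ r * (4 ^ r' * 4 ^ g') := by
        apply mul_le_mul_of_nonneg_left _ h3
        exact le_mul_of_one_le_left (by positivity) h2
    _ = _ := by ring

include H in
theorem lvl_tuples (hq : 4 ≤ Fintype.card k)
    (h2t : ∀ u : W, u ≠ 0 → ∃ s, om u ((datum H).t s) ≠ 0)
    {n z s : ℕ} (hn : (n : F2) + (N : F2) = 1) (hz : 2 ≤ z) (hs : 1 ≤ s)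
    (hm : 7 * s ≤ Fintype.card ι) {ε : ℝ} (hε : 0 < ε) (hε2 : ε ≤ 1 / 2)
    (hA : 4 * (4096 * (8 ^ Fintype.card (Tau a b) * (729 / 1024 : ℝ) ^ s)) ≤ ε)
    (hB : et a b n z * (4 ^ Fintype.card ι * 4 ^ Fintype.card (Tau a b)) ≤ ε) :
    (1 - 10 * ε) * ∑ T ∈ Xt k ι n z s, (if ok (QQ a b) T ∧ cl (datum H) (QQ a b) T then (1 : ℝ) else 0)
      ≤ 3 * ∑ T ∈ Xt k ι n z s, (if (ok (QQ a b) T ∧ cl (datum H) (QQ a b) T) ∧
        Triv (datum H) (AT T) (BT (QQ a b) T) (fun i => ((T i).natDegree : F2)) then (1 : ℝ) else 0) ∧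
    (1 - ε) * ∑ T ∈ Xt k ι n z s, (if ok (QQ a b) T then (1 : ℝ) else 0) ≤
      2 ^ Fintype.card (Tau a b) *
        ∑ T ∈ Xt k ι n z s, (if ok (QQ a b) T ∧ cl (datum H) (QQ a b) T then (1 : ℝ) else 0) := by
  have key : ∀ T0 ∈ Xt k ι n z s,
      (1 - 10 * ε) * YY (datum H) (QQ a b) (cell z T0) ≤
        3 * XX (datum H) (QQ a b) (fun i => ((T0 i).natDegree : F2)) (cell z T0) ∧
      (1 - ε) * OK (QQ a b) (cell z T0) ≤
        2 ^ Fintype.card (Tau a b) * YY (datum H) (QQ a b) (cell z T0) := by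
    intro T0 h0
    rw [Xt, mem_filter] at h0
    have hlm : (lgs z T0).card ≤ Fintype.card ι := card_le_univ _
    have hne : (lgs z T0).Nonempty := by
      rw [← card_pos]
      omega
    have hc := cell_inst H hq hz h0.1 hne
    have het := et_nonneg (a := a) (b := b) n z
    apply cell_final hc _ h2t _ hε hε2
    · have h1 := num1 hlm h0.2 hm
      have h2 : (0 : ℝ) ≤ 4 * (4096 * 8 ^ Fintype.card (Tau a b)) := by positivity
      calc (4 : ℝ) * (4096 * (8 ^ Fintype.card (Tau a b) *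
            (3 ^ (lgs z T0).card * 16 ^ (Fintype.card ι - (lgs z T0).card)))) =
          4 * (4096 * 8 ^ Fintype.card (Tau a b)) *
            (3 ^ (lgs z T0).card * 16 ^ (Fintype.card ι - (lgs z T0).card)) := by ring
        _ ≤ 4 * (4096 * 8 ^ Fintype.card (Tau a b)) * (4 ^ Fintype.card ι * (729 / 1024) ^ s) :=
          mul_le_mul_of_nonneg_left h1 h2
        _ = (4 * (4096 * (8 ^ Fintype.card (Tau a b) * (729 / 1024 : ℝ) ^ s))) *
            4 ^ Fintype.card ι := by ring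
        _ ≤ _ := mul_le_mul_of_nonneg_right hA (by positivity)
    · refine le_trans (le_of_eq ?_) hB
      have : (4 : ℝ) ^ Fintype.card (Tau a b) =
          2 ^ Fintype.card (Tau a b) * 2 ^ Fintype.card (Tau a b) := by
        rw [← mul_pow]; norm_num
      rw [this]; ring
    · have h1 : ((lgs z T0).card : ℝ) + 2 ^ Fintype.card (Tau a b) ≤
          4 ^ Fintype.card ι * 4 ^ Fintype.card (Tau a b) := by
        have h2 : ((lgs z T0).card : ℝ) ≤ Fintype.card ι := by exact_mod_cast hlm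
        have h3 : (Fintype.card ι : ℝ) + 1 ≤ 4 ^ Fintype.card ι := by
          have : Fintype.card ι + 1 ≤ 4 ^ Fintype.card ι := Nat.lt_pow_self (by norm_num)
          exact_mod_cast this
        have h4 : (2 : ℝ) ^ Fintype.card (Tau a b) ≤ 4 ^ Fintype.card (Tau a b) :=
          pow_le_pow_left₀ (by norm_num) (by norm_num) _
        have h5 : (1 : ℝ) ≤ 4 ^ Fintype.card (Tau a b) := one_le_pow₀ (by norm_num)
        have h6 : (0 : ℝ) ≤ Fintype.card ι := Nat.cast_nonneg _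
        nlinarith
      calc ((lgs z T0).card + 2 ^ Fintype.card (Tau a b)) * et a b n z ≤
          (4 ^ Fintype.card ι * 4 ^ Fintype.card (Tau a b)) * et a b n z :=
            mul_le_mul_of_nonneg_right h1 het
        _ ≤ ε := by rw [mul_comm]; exact hB
    · have h1 : ∑ i, ((T0 i).natDegree : F2) = (n : F2) := by
        rw [← (mem_Tp.1 h0.1).2]
        push_cast
        rfl
      show ∑ i, ((T0 i).natDegree : F2) + (N : F2) = 1
      rw [h1]
      exact hn
    · intro i hi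
      rw [lgs, mem_filter] at hi
      push Not at hi
      exact ⟨T0 i, by rw [cell, if_pos (hi (mem_univ _))]⟩
  constructor
  · have h1 := cells_nonneg (z := z) (X := Xt k ι n z s) Xt_closed Xt_self
      (fun T => 3 * (if (ok (QQ a b) T ∧ cl (datum H) (QQ a b) T) ∧
        Triv (datum H) (AT T) (BT (QQ a b) T) (fun i => ((T i).natDegree : F2)) then (1 : ℝ) else 0) -
        (1 - 10 * ε) * (if ok (QQ a b) T ∧ cl (datum H) (QQ a b) T then (1 : ℝ) else 0)) (by
        intro T0 h0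
        have h2 := (key T0 h0).1
        rw [sum_sub_distrib, ← mul_sum, ← mul_sum]
        have h3 : ∑ T ∈ Fintype.piFinset (cell z T0), (if (ok (QQ a b) T ∧ cl (datum H) (QQ a b) T) ∧
            Triv (datum H) (AT T) (BT (QQ a b) T) (fun i => ((T i).natDegree : F2)) then (1 : ℝ) else 0)
            = XX (datum H) (QQ a b) (fun i => ((T0 i).natDegree : F2)) (cell z T0) := by
          rw [XX]
          refine sum_congr rfl fun T hT => ?_
          simp only [cell_deg hT]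
        rw [h3]
        exact sub_nonneg.2 h2)
    rw [sum_sub_distrib, ← mul_sum, ← mul_sum] at h1
    exact sub_nonneg.1 h1
  · have h1 := cells_nonneg (z := z) (X := Xt k ι n z s) Xt_closed Xt_self
      (fun T => 2 ^ Fintype.card (Tau a b) *
        (if ok (QQ a b) T ∧ cl (datum H) (QQ a b) T then (1 : ℝ) else 0) -
        (1 - ε) * (if ok (QQ a b) T then (1 : ℝ) else 0)) (by
        intro T0 h0
        have h2 := (key T0 h0).2
        rw [sum_sub_distrib, ← mul_sum, ← mul_sum]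
        exact sub_nonneg.2 h2)
    rw [sum_sub_distrib, ← mul_sum, ← mul_sum] at h1
    exact sub_nonneg.1 h1

/-- the number of small prime factors -/
noncomputable def sm (z : ℕ) (D : k[X]) : ℕ := ((pf D).filter fun P => P.natDegree < z).card

theorem conv (n z s : ℕ) (p : k[X] → Prop) :
    ∑ T ∈ Xt k ι n z s, (if Function.Injective T ∧ p (∏ i, T i) then (1 : ℝ) else 0) =
      ((Fintype.card ι).factorial : ℝ) *
        (((Sf k n).filter fun D => (pf D).card = Fintype.card ι ∧ sm z D ≤ s ∧ p D).card : ℝ) := by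
  have h1 := tuple_sum (k := k) (ι := ι) n (fun D => if sm z D ≤ s ∧ p D then (1 : ℝ) else 0)
  have h2 : ∑ D ∈ (Sf k n).filter (fun D => (pf D).card = Fintype.card ι),
      (if sm z D ≤ s ∧ p D then (1 : ℝ) else 0) =
      (((Sf k n).filter fun D => (pf D).card = Fintype.card ι ∧ sm z D ≤ s ∧ p D).card : ℝ) := by
    rw [← sum_filter, filter_filter, sum_const, nsmul_one]
  rw [h2] at h1
  rw [← h1, Xt, sum_filter, sum_filter]
  refine sum_congr rfl fun T hT => ?_
  by_cases h3 : Function.Injective T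
  · have h4 := small_eq (z := z) hT h3
    have h5 : sm z (∏ i, T i) = Fintype.card ι - (lgs z T).card := h4
    rw [← h5, if_pos h3]
    by_cases h6 : sm z (∏ i, T i) ≤ s
    · rw [if_pos h6]
      by_cases h7 : p (∏ i, T i)
      · rw [if_pos ⟨h3, h7⟩, if_pos ⟨h6, h7⟩]
      · rw [if_neg (fun h => h7 h.2), if_neg (fun h => h7 h.2)]
    · rw [if_neg h6, if_neg (fun h => h6 h.1)]
  · rw [if_neg h3]
    by_cases h6 : Fintype.card ι - (lgs z T).card ≤ s
    · rw [if_pos h6, if_neg (fun h => h3 h.1)]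
    · rw [if_neg h6]

/-- the class -/
def P1 (a b D : k[X]) : Prop := nb a b D ∧ gcl a b D

/-- the good members of the class -/
def P2 (G : k[X] → Prop) (a b D : k[X]) : Prop := P1 a b D ∧ G D

/-- `G` holds for the twists with trivial kernel -/
def Imp (H : Hyp a b N) (G : k[X] → Prop) : Prop :=
  ∀ (ι : Type) [Fintype ι] (T : ι → k[X]), Fam (Sum.elim T (QQ a b)) →
    cl (datum H) (QQ a b) T → ∑ i, ((T i).natDegree : F2) + (N : F2) = 1 →
    Triv (datum H) (AT T) (BT (QQ a b) T) (fun i => ((T i).natDegree : F2)) → G (∏ i, T i)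

include H in
/-- squarefree polynomials with a given number of prime factors -/
theorem lvl' (ι : Type) [Fintype ι] {G : k[X] → Prop} (hG : Imp H G) (hq : 4 ≤ Fintype.card k)
    (h2t : ∀ u : W, u ≠ 0 → ∃ s, om u ((datum H).t s) ≠ 0)
    {n m z s : ℕ} (hcm : Fintype.card ι = m) (hn : (n : F2) + (N : F2) = 1) (hz : 2 ≤ z) (hs : 1 ≤ s)
    (hm : 7 * s ≤ m) {ε : ℝ} (hε : 0 < ε) (hε2 : ε ≤ 1 / 2)
    (hA : 4 * (4096 * (8 ^ Fintype.card (Tau a b) * (729 / 1024 : ℝ) ^ s)) ≤ ε)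
    (hB : et a b n z * (4 ^ m * 4 ^ Fintype.card (Tau a b)) ≤ ε) (hε10 : 0 ≤ 1 - 10 * ε) :
    (1 - 10 * ε) * (((Sf k n).filter fun D => (pf D).card = m ∧ sm z D ≤ s ∧
        P1 a b D).card : ℝ) ≤
      3 * (((Sf k n).filter fun D => (pf D).card = m ∧ sm z D ≤ s ∧
        P2 G a b D).card : ℝ) ∧
    (1 - ε) * (((Sf k n).filter fun D => (pf D).card = m ∧ sm z D ≤ s ∧ nb a b D).card : ℝ) ≤
      2 ^ Fintype.card (Tau a b) * (((Sf k n).filter fun D => (pf D).card = m ∧ sm z D ≤ s ∧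
        P1 a b D).card : ℝ) := by
  have h0 := lvl_tuples (ι := ι) H hq h2t hn hz hs (by rw [hcm]; exact hm) hε hε2 hA
    (by rw [hcm]; exact hB)
  have hf : (0 : ℝ) < ((Fintype.card ι).factorial : ℝ) := by
    exact_mod_cast Nat.factorial_pos _
  have c1 := conv (k := k) (ι := ι) n z s (P1 a b)
  have c2 := conv (k := k) (ι := ι) n z s (nb a b)
  have c3 := conv (k := k) (ι := ι) n z s (P2 G a b)
  rw [hcm] at c1 c2 c3
  rw [hcm] at hf
  have e1 : ∑ T ∈ Xt k ι n z s, (if ok (QQ a b) T ∧ cl (datum H) (QQ a b) T then (1 : ℝ) else 0)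
      = ∑ T ∈ Xt k ι n z s, (if Function.Injective T ∧ P1 a b (∏ i, T i) then (1 : ℝ) else 0) := by
    refine sum_congr rfl fun T hT => ?_
    rw [Xt, mem_filter] at hT
    have h1 : (ok (QQ a b) T ∧ cl (datum H) (QQ a b) T) ↔ (Function.Injective T ∧ P1 a b (∏ i, T i)) := by
      constructor
      · rintro ⟨h2, h3⟩
        have h4 := (ok_iff H hT.1).1 h2
        exact ⟨h4.1, h4.2, (cl_iff H hT.1 h4.2).1 h3⟩
      · rintro ⟨h2, h3, h4⟩
        exact ⟨(ok_iff H hT.1).2 ⟨h2, h3⟩, (cl_iff H hT.1 h3).2 h4⟩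
    simp only [h1]
  have e2 : ∑ T ∈ Xt k ι n z s, (if ok (QQ a b) T then (1 : ℝ) else 0)
      = ∑ T ∈ Xt k ι n z s, (if Function.Injective T ∧ nb a b (∏ i, T i)
        then (1 : ℝ) else 0) := by
    refine sum_congr rfl fun T hT => ?_
    rw [Xt, mem_filter] at hT
    simp only [ok_iff H hT.1]
  have e3 : ∑ T ∈ Xt k ι n z s, (if (ok (QQ a b) T ∧ cl (datum H) (QQ a b) T) ∧
        Triv (datum H) (AT T) (BT (QQ a b) T) (fun i => ((T i).natDegree : F2)) then (1 : ℝ) else 0)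
      ≤ ∑ T ∈ Xt k ι n z s, (if Function.Injective T ∧ P2 G a b (∏ i, T i) then (1 : ℝ) else 0) := by
    apply sum_le_sum
    intro T hT
    rw [Xt, mem_filter] at hT
    by_cases h1 : (ok (QQ a b) T ∧ cl (datum H) (QQ a b) T) ∧
        Triv (datum H) (AT T) (BT (QQ a b) T) (fun i => ((T i).natDegree : F2))
    · rw [if_pos h1]
      obtain ⟨⟨h2, h3⟩, h4⟩ := h1
      have h5 := (ok_iff H hT.1).1 h2
      have h6 := (cl_iff H hT.1 h5.2).1 h3
      have h7 := (mem_Tp.1 hT.1)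
      have hR : Fam (Sum.elim T (QQ a b)) := by
        refine ⟨?_, ?_, h2⟩
        · rintro (i | s)
          · exact (h7.1 i).1
          · exact H.fam.mon s
        · rintro (i | s)
          · exact (h7.1 i).2
          · exact H.fam.irr s
      have h8 : ∑ i, ((T i).natDegree : F2) + (N : F2) = 1 := by
        have h9 : ∑ i, ((T i).natDegree : F2) = (n : F2) := by
          rw [← h7.2]
          push_cast
          rfl
        rw [h9]
        exact hn
      have h9 : G (∏ i, T i) := hG ι T hR h3 h8 h4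
      rw [if_pos ⟨h5.1, ⟨h5.2, h6⟩, h9⟩]
    · rw [if_neg h1]
      split_ifs <;> norm_num
  rw [e1, e2, c1, c2] at h0
  rw [c3] at e3
  constructor
  · have h1 : (m.factorial : ℝ) * ((1 - 10 * ε) * (((Sf k n).filter fun D => (pf D).card = m ∧
        sm z D ≤ s ∧ P1 a b D).card : ℝ)) ≤ (m.factorial : ℝ) *
        (3 * (((Sf k n).filter fun D => (pf D).card = m ∧ sm z D ≤ s ∧
        P2 G a b D).card : ℝ)) := by
      have h2 := h0.1
      linarith
    exact le_of_mul_le_mul_left h1 hf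
  · have h1 : (m.factorial : ℝ) * ((1 - ε) * (((Sf k n).filter fun D => (pf D).card = m ∧
        sm z D ≤ s ∧ nb a b D).card : ℝ)) ≤ (m.factorial : ℝ) *
        (2 ^ Fintype.card (Tau a b) * (((Sf k n).filter fun D => (pf D).card = m ∧ sm z D ≤ s ∧
        P1 a b D).card : ℝ)) := by
      have h2 := h0.2
      linarith
    exact le_of_mul_le_mul_left h1 hf


include H in
/-- squarefree polynomials with a given number of prime factors -/
theorem lvl {G : k[X] → Prop} (hG : Imp H G) (hq : 4 ≤ Fintype.card k)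
    (h2t : ∀ u : W, u ≠ 0 → ∃ s, om u ((datum H).t s) ≠ 0)
    {n m z s : ℕ} (hn : (n : F2) + (N : F2) = 1) (hz : 2 ≤ z) (hs : 1 ≤ s)
    (hm : 7 * s ≤ m) {ε : ℝ} (hε : 0 < ε) (hε2 : ε ≤ 1 / 2)
    (hA : 4 * (4096 * (8 ^ Fintype.card (Tau a b) * (729 / 1024 : ℝ) ^ s)) ≤ ε)
    (hB : et a b n z * (4 ^ m * 4 ^ Fintype.card (Tau a b)) ≤ ε) (hε10 : 0 ≤ 1 - 10 * ε) :
    (1 - 10 * ε) * (((Sf k n).filter fun D => (pf D).card = m ∧ sm z D ≤ s ∧
        P1 a b D).card : ℝ) ≤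
      3 * (((Sf k n).filter fun D => (pf D).card = m ∧ sm z D ≤ s ∧
        P2 G a b D).card : ℝ) ∧
    (1 - ε) * (((Sf k n).filter fun D => (pf D).card = m ∧ sm z D ≤ s ∧ nb a b D).card : ℝ) ≤
      2 ^ Fintype.card (Tau a b) * (((Sf k n).filter fun D => (pf D).card = m ∧ sm z D ≤ s ∧
        P1 a b D).card : ℝ) :=
  lvl' H (Fin m) hG hq h2t (Fintype.card_fin m) hn hz hs hm hε hε2 hA hB hε10

end Pool.Agent.Y164.PS
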