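import Pool.Agent.Y164.PS.Cnt

/-!
Squarefree polynomials prime to a given polynomial.
-/

set_option autoImplicit false
set_option linter.all false

namespace Pool.Agent.Y164.PS

open Polynomial Finset Pool.Agent.H341R2.Sharp
open scoped Classical

variable {k : Type} [Field k] [Fintype k] [DecidableEq k]

theorem card_B (hk : ringChar k ≠ 2) {m0 P : k[X]} (hP : P.Monic) (hi : Irreducible P) (n' : ℕ) :
    (((Mon k n').filter (fun E => P ^ 2 ∣ 1 + m0 * E)).card : ℝ) ≤
      if 2 * P.natDegree ≤ n' then (Fintype.card k : ℝ) ^ (n' - 2 * P.natDegree) else 1 := by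
  have hP2 : (P ^ 2).Monic := hP.pow 2
  have hd2 : (P ^ 2).natDegree = 2 * P.natDegree := hP.natDegree_pow 2
  have hinj : Set.InjOn (fun E : k[X] => E /ₘ (P ^ 2))
      ((Mon k n').filter (fun E => P ^ 2 ∣ 1 + m0 * E)) := by
    intro E hE E' hE' h
    rw [mem_coe, mem_filter] at hE hE'
    simp only at h
    have h1 : P ^ 2 ∣ m0 * (E - E') := by
      have := dvd_sub hE.2 hE'.2
      have e : 1 + m0 * E - (1 + m0 * E') = m0 * (E - E') := by ring
      rwa [e] at this
    have hcop : IsCoprime (P ^ 2) m0 := by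
      apply IsCoprime.pow_left
      rw [hi.coprime_iff_not_dvd]
      intro hd
      have h3 : P ∣ 1 + m0 * E := (dvd_pow_self P two_ne_zero).trans hE.2
      have h4 : P ∣ 1 := by
        have := dvd_sub h3 (hd.mul_right E)
        rwa [add_sub_cancel_right] at this
      exact hi.not_isUnit (isUnit_of_dvd_one h4)
    have h2 : P ^ 2 ∣ E - E' := hcop.dvd_of_dvd_mul_left h1
    have h3 : E - E' = E %ₘ (P ^ 2) - E' %ₘ (P ^ 2) := by
      have a1 := modByMonic_add_div E (P ^ 2)
      have a2 := modByMonic_add_div E' (P ^ 2)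
      rw [h] at a1
      calc E - E' = (E %ₘ (P ^ 2) + P ^ 2 * (E' /ₘ (P ^ 2))) - (E' %ₘ (P ^ 2) + P ^ 2 * (E' /ₘ (P ^ 2))) := by
            rw [a1, a2]
        _ = _ := by ring
    have h4 : (E - E').degree < (P ^ 2).degree := by
      rw [h3]
      exact (degree_sub_le _ _).trans_lt
        (max_lt (degree_modByMonic_lt _ hP2) (degree_modByMonic_lt _ hP2))
    exact sub_eq_zero.1 (eq_zero_of_dvd_of_degree_lt h2 h4)
  split_ifs with h
  · have h1 : ((Mon k n').filter (fun E => P ^ 2 ∣ 1 + m0 * E)).card ≤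
        (Mon k (n' - 2 * P.natDegree)).card := by
      apply card_le_card_of_injOn _ _ hinj
      intro E hE
      have hE' := mem_Mon.1 (mem_filter.1 (mem_coe.1 hE)).1
      refine mem_coe.2 (mem_Mon.2 ⟨?_, ?_⟩)
      · rw [Monic, leadingCoeff_divByMonic_of_monic hP2]
        · exact hE'.1
        · rw [degree_eq_natDegree hP2.ne_zero, degree_eq_natDegree hE'.1.ne_zero, hE'.2, hd2]
          exact_mod_cast h
      · show (E /ₘ (P ^ 2)).natDegree = _
        rw [natDegree_divByMonic _ hP2, hE'.2, hd2]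
    rw [card_Mon hk] at h1
    exact_mod_cast h1
  · have h1 : ((Mon k n').filter (fun E => P ^ 2 ∣ 1 + m0 * E)).card ≤ ({0} : Finset k[X]).card := by
      apply card_le_card_of_injOn _ _ hinj
      intro E hE
      have hE' := mem_Mon.1 (mem_filter.1 (mem_coe.1 hE)).1
      refine mem_coe.2 (mem_singleton.2 ?_)
      show E /ₘ (P ^ 2) = 0
      rw [divByMonic_eq_zero_iff hP2, degree_eq_natDegree hP2.ne_zero,
        degree_eq_natDegree hE'.1.ne_zero, hE'.2, hd2]
      exact_mod_cast not_le.1 h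
    rw [card_singleton] at h1
    exact_mod_cast h1

theorem geo1 (x : ℝ) (hx : 0 ≤ x) (hx3 : 3 * x ≤ 1) (h : ℕ) : ∑ d ∈ Icc 1 h, x ^ d ≤ 1 / 2 := by
  have key : ∑ d ∈ Icc 1 h, x ^ d ≤ 1 / 2 - 1 / 2 * x ^ h := by
    induction h with
    | zero => simp
    | succ h ih =>
      rw [sum_Icc_succ_top (by omega), pow_succ]
      have : 0 ≤ x ^ h := by positivity
      nlinarith
  have : 0 ≤ x ^ h := by positivity
  linarith

theorem geo2 (q : ℝ) (hq : 2 ≤ q) (h : ℕ) : ∑ d ∈ Icc 1 h, q ^ d ≤ 2 * q ^ h := by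
  have key : ∑ d ∈ Icc 1 h, q ^ d ≤ 2 * q ^ h - 2 := by
    induction h with
    | zero => simp
    | succ h ih =>
      rw [sum_Icc_succ_top (by omega), pow_succ]
      have : 1 ≤ q ^ h := one_le_pow₀ (by linarith)
      nlinarith
  linarith

theorem cop_lower (hk : ringChar k ≠ 2) (hq3 : 3 ≤ Fintype.card k) {m0 : k[X]} (hm : m0.Monic)
    {n : ℕ} (hn : m0.natDegree < n) :
    (1 / 2 : ℝ) * (Fintype.card k : ℝ) ^ (n - m0.natDegree) - 2 * (Fintype.card k : ℝ) ^ (n / 2) ≤
      (((Sf k n).filter (fun D => IsCoprime D m0)).card : ℝ) := by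
  set q : ℝ := (Fintype.card k : ℝ) with hq
  have hq3' : (3 : ℝ) ≤ q := by rw [hq]; exact_mod_cast hq3
  set n' := n - m0.natDegree with hn'
  have hdeg : ∀ E ∈ Mon k n', (1 + m0 * E).Monic ∧ (1 + m0 * E).natDegree = n := by
    intro E hE
    rw [mem_Mon] at hE
    have h1 : (m0 * E).Monic := hm.mul hE.1
    have h2 : (m0 * E).natDegree = n := by
      rw [hm.natDegree_mul hE.1, hE.2]
      omega
    have h3 : (1 : k[X]).degree < (m0 * E).degree := by
      rw [degree_one, degree_eq_natDegree h1.ne_zero, h2]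
      exact_mod_cast (by omega : 0 < n)
    refine ⟨h1.add_of_right h3, ?_⟩
    rw [natDegree_add_eq_right_of_degree_lt h3, h2]
  -- the good ones
  have h1 : ((Mon k n').filter (fun E => Squarefree (1 + m0 * E))).card ≤
      ((Sf k n).filter (fun D => IsCoprime D m0)).card := by
    apply card_le_card_of_injOn (fun E => 1 + m0 * E)
    · intro E hE
      have hE' := mem_filter.1 (mem_coe.1 hE)
      refine mem_coe.2 (mem_filter.2 ⟨mem_Sf.2 ⟨(hdeg E hE'.1).1, (hdeg E hE'.1).2, hE'.2⟩, ?_⟩)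
      exact ⟨1, -E, by ring⟩
    · intro E _ E' _ h
      have h2 : m0 * E = m0 * E' := add_left_cancel h
      exact mul_left_cancel₀ hm.ne_zero h2
  have h2 : ((Mon k n').card : ℝ) ≤ (((Mon k n').filter (fun E => Squarefree (1 + m0 * E))).card : ℝ) +
      ∑ P ∈ Irr k (n / 2), (((Mon k n').filter (fun E => P ^ 2 ∣ 1 + m0 * E)).card : ℝ) := by
    have h3 : Mon k n' ⊆ (Mon k n').filter (fun E => Squarefree (1 + m0 * E)) ∪
        (Irr k (n / 2)).biUnion (fun P => (Mon k n').filter (fun E => P ^ 2 ∣ 1 + m0 * E)) := by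
      intro E hE
      rw [mem_union, mem_filter, mem_biUnion]
      by_cases hs : Squarefree (1 + m0 * E)
      · exact Or.inl ⟨hE, hs⟩
      · right
        rw [Squarefree] at hs
        push Not at hs
        obtain ⟨x, hx, hxu⟩ := hs
        have h0 : (1 + m0 * E) ≠ 0 := (hdeg E hE).1.ne_zero
        have hx0 : x ≠ 0 := by
          rintro rfl
          rw [zero_mul, zero_dvd_iff] at hx
          exact h0 hx
        obtain ⟨π, hπ, hd⟩ := WfDvdMonoid.exists_irreducible_factor hxu hx0
        have hl : π.leadingCoeff ≠ 0 := leadingCoeff_ne_zero.2 hπ.ne_zero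
        have hu : IsUnit (C π.leadingCoeff⁻¹ : k[X]) :=
          isUnit_C.2 (isUnit_iff_ne_zero.2 (inv_ne_zero hl))
        set P := C π.leadingCoeff⁻¹ * π with hP
        have hPd : P ∣ x := ((hu.mul_left_dvd).2 dvd_rfl).trans hd
        have hPm : P.Monic := by
          rw [hP, Monic, leadingCoeff_mul, leadingCoeff_C, inv_mul_cancel₀ hl]
        have hPi : Irreducible P := (irreducible_isUnit_mul hu).2 hπ
        have hP2 : P ^ 2 ∣ 1 + m0 * E := by
          rw [pow_two]
          exact (mul_dvd_mul hPd hPd).trans hx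
        refine ⟨P, ?_, mem_filter.2 ⟨hE, hP2⟩⟩
        rw [mem_Irr]
        refine ⟨hPm, hPi, ?_⟩
        have h5 := natDegree_le_of_dvd hP2 h0
        rw [hPm.natDegree_pow, (hdeg E hE).2] at h5
        omega
    have h4 := (card_le_card h3).trans ((card_union_le _ _).trans
      (Nat.add_le_add_left card_biUnion_le _))
    exact_mod_cast h4
  have h3 : ∑ P ∈ Irr k (n / 2), (((Mon k n').filter (fun E => P ^ 2 ∣ 1 + m0 * E)).card : ℝ) ≤
      (1 / 2) * q ^ n' + 2 * q ^ (n / 2) := by
    have h4 : ∀ P ∈ Irr k (n / 2), (((Mon k n').filter (fun E => P ^ 2 ∣ 1 + m0 * E)).card : ℝ) ≤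
        q ^ n' * ((1 / q) ^ 2) ^ P.natDegree + 1 := by
      intro P hP
      rw [mem_Irr] at hP
      refine (card_B hk hP.1 hP.2.1 n').trans ?_
      split_ifs with h
      · rw [pow_sub₀ _ (by linarith) h, ← pow_mul, one_div, inv_pow]
        linarith
      · have : 0 ≤ q ^ n' * ((1 / q) ^ 2) ^ P.natDegree := by positivity
        linarith
    refine (sum_le_sum h4).trans ?_
    have h5 : ∑ P ∈ Irr k (n / 2), (q ^ n' * ((1 / q) ^ 2) ^ P.natDegree + 1) =
        ∑ d ∈ Icc 1 (n / 2), ∑ P ∈ Pr k d, (q ^ n' * ((1 / q) ^ 2) ^ P.natDegree + 1) := by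
      rw [← sum_biUnion]
      · apply sum_congr _ fun _ _ => rfl
        ext P
        rw [mem_biUnion, mem_Irr]
        constructor
        · rintro ⟨a1, a2, a3⟩
          exact ⟨P.natDegree, mem_Icc.2 ⟨a2.natDegree_pos, a3⟩, mem_Pr.2 ⟨a1, a2, rfl⟩⟩
        · rintro ⟨m, hm, hP⟩
          rw [mem_Pr] at hP
          rw [mem_Icc] at hm
          exact ⟨hP.1, hP.2.1, hP.2.2.trans_le hm.2⟩
      · intro e _ e' _ hne
        rw [Function.onFun, disjoint_left]
        intro P hP hP'
        rw [mem_Pr] at hP hP'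
        exact hne (hP.2.2.symm.trans hP'.2.2)
    rw [h5]
    have h6 : ∀ d ∈ Icc 1 (n / 2), ∑ P ∈ Pr k d, (q ^ n' * ((1 / q) ^ 2) ^ P.natDegree + 1) ≤
        q ^ n' * (1 / q) ^ d + q ^ d := by
      intro d hd
      rw [mem_Icc] at hd
      rw [sum_congr rfl (fun P hP => by rw [(mem_Pr.1 hP).2.2]), sum_const, nsmul_eq_mul]
      have h7 : ((Pr k d).card : ℝ) ≤ q ^ d := by
        have h8 := card_Pr_le (k := k) hk d hd.1
        have h9 : (1 : ℝ) ≤ d := by exact_mod_cast hd.1
        have h10 : (0 : ℝ) ≤ (Pr k d).card := Nat.cast_nonneg _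
        nlinarith
      calc ((Pr k d).card : ℝ) * (q ^ n' * ((1 / q) ^ 2) ^ d + 1) ≤
            q ^ d * (q ^ n' * ((1 / q) ^ 2) ^ d + 1) :=
            mul_le_mul_of_nonneg_right h7 (by positivity)
        _ = q ^ n' * (1 / q) ^ d + q ^ d := by
            have : q ^ d * ((1 / q) ^ 2) ^ d = (1 / q) ^ d := by
              rw [← mul_pow]
              congr 1
              field_simp
            rw [mul_add, mul_one, mul_left_comm, this]
    refine (sum_le_sum h6).trans ?_
    rw [sum_add_distrib, ← mul_sum]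
    have h7 := geo1 (1 / q) (by positivity) (by
      rw [mul_one_div, div_le_one (by linarith)]
      exact hq3') (n / 2)
    have h8 := geo2 q (by linarith) (n / 2)
    have h9 : 0 ≤ q ^ n' := by positivity
    nlinarith
  have h4 : ((Mon k n').card : ℝ) = q ^ n' := by
    rw [card_Mon hk]; push_cast; rfl
  have h5 : (((Mon k n').filter (fun E => Squarefree (1 + m0 * E))).card : ℝ) ≤
      (((Sf k n).filter (fun D => IsCoprime D m0)).card : ℝ) := by exact_mod_cast h1
  linarith

end Pool.Agent.Y164.PS
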