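import Pool.Agent.Y164.PS.Asy
import Pool.Agent.Y164.PS.Lvl2
import Pool.Agent.Y164.PS.Cop

/-!
A positive proportion of the twists.
-/

set_option autoImplicit false
set_option linter.all false

namespace Pool.Agent.Y164.PS

open Finset Polynomial Pool.Agent.H341R2.Sharp Filter Topology
open scoped Classical

variable {k : Type} [Field k] [Fintype k] [DecidableEq k]
variable {a b : k[X]} {N : ℕ} (H : Hyp a b N)

theorem markov {n : ℕ} (f : k[X] → ℕ) (M : ℕ) (B : ℝ) (h : ∑ D ∈ Mon k n, (f D : ℝ) ≤ B) :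
    (((Sf k n).filter fun D => M < f D).card : ℝ) ≤ B / (M + 1) := by
  rw [le_div_iff₀ (by positivity)]
  refine le_trans ?_ h
  calc (((Sf k n).filter fun D => M < f D).card : ℝ) * (M + 1) =
      ∑ D ∈ (Sf k n).filter (fun D => M < f D), ((M : ℝ) + 1) := by
        rw [sum_const, nsmul_eq_mul]
    _ ≤ ∑ D ∈ (Sf k n).filter (fun D => M < f D), (f D : ℝ) := by
        apply sum_le_sum
        intro D hD
        have := (mem_filter.1 hD).2
        exact_mod_cast this
    _ ≤ _ := by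
        apply sum_le_sum_of_subset_of_nonneg
        · intro D hD
          exact (mem_filter.1 (mem_filter.1 hD).1).1
        · intro _ _ _
          exact Nat.cast_nonneg _

/-- typical polynomials -/
def ty (A l s z : ℕ) (D : k[X]) : Prop := 7 * s ≤ (pf D).card ∧ (pf D).card ≤ A * l ∧ sm z D ≤ s

theorem nontyp (hk : ringChar k ≠ 2) (n A l s z : ℕ) :
    (((Sf k n).filter fun D => ¬ ty A l s z D).card : ℝ) ≤ (Fintype.card k : ℝ) ^ n *
      ((1 + Real.log n) / ((A * l : ℕ) + 1) + (1 + Real.log z) / (s + 1) + 2 ^ (7 * s) * cb n) := by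
  have hpf : ∀ D ∈ Mon k n, (pf D).filter (fun P => P.natDegree ≤ n) = pf D := by
    intro D hD
    apply filter_true_of_mem
    intro P hP
    rw [pf, mem_filter, mem_Irr, (mem_Mon.1 hD).2] at hP
    exact hP.1.2.2
  have h1 : (((Sf k n).filter fun D => A * l < (pf D).card).card : ℝ) ≤
      ((Fintype.card k : ℝ) ^ n * (1 + Real.log n)) / ((A * l : ℕ) + 1) := by
    apply markov
    refine le_trans (le_of_eq ?_) (sum_omega (k := k) hk n n)
    refine sum_congr rfl fun D hD => ?_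
    rw [hpf D hD]
  have h2 : (((Sf k n).filter fun D => s < sm z D).card : ℝ) ≤
      ((Fintype.card k : ℝ) ^ n * (1 + Real.log z)) / (s + 1) := by
    apply markov
    refine le_trans (sum_le_sum fun D hD => ?_) (sum_omega (k := k) hk n z)
    have : sm z D ≤ ((pf D).filter (fun P => P.natDegree ≤ z)).card := by
      apply card_le_card
      intro P hP
      rw [mem_filter] at hP ⊢
      exact ⟨hP.1, hP.2.le⟩
    exact_mod_cast this
  have h3 := few_primes (k := k) hk n (7 * s)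
  have h4 : (Sf k n).filter (fun D => ¬ ty A l s z D) ⊆
      ((Sf k n).filter fun D => A * l < (pf D).card) ∪ ((Sf k n).filter fun D => s < sm z D) ∪
      ((Sf k n).filter fun D => (pf D).card < 7 * s) := by
    intro D hD
    rw [mem_filter, ty] at hD
    rw [mem_union, mem_union, mem_filter, mem_filter, mem_filter]
    by_cases e1 : A * l < (pf D).card
    · exact Or.inl (Or.inl ⟨hD.1, e1⟩)
    · by_cases e2 : s < sm z D
      · exact Or.inl (Or.inr ⟨hD.1, e2⟩)
      · right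
        refine ⟨hD.1, ?_⟩
        by_contra e3
        exact hD.2 ⟨not_lt.1 e3, not_lt.1 e1, not_lt.1 e2⟩
  have h5 : (((Sf k n).filter fun D => ¬ ty A l s z D).card : ℝ) ≤
      (((Sf k n).filter fun D => A * l < (pf D).card).card : ℝ) +
      ((Sf k n).filter fun D => s < sm z D).card + ((Sf k n).filter fun D => (pf D).card < 7 * s).card := by
    have h6 := (card_le_card h4).trans ((card_union_le _ _).trans
      (Nat.add_le_add_right (card_union_le _ _) _))
    exact_mod_cast h6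
  refine h5.trans ?_
  have h7 : (Fintype.card k : ℝ) ^ n *
      ((1 + Real.log n) / ((A * l : ℕ) + 1) + (1 + Real.log z) / (s + 1) + 2 ^ (7 * s) * cb n) =
      ((Fintype.card k : ℝ) ^ n * (1 + Real.log n)) / ((A * l : ℕ) + 1) +
      ((Fintype.card k : ℝ) ^ n * (1 + Real.log z)) / (s + 1) +
      2 ^ (7 * s) * cb n * (Fintype.card k : ℝ) ^ n := by ring
  rw [h7]
  linarith

/-- the choice of the parameters -/
theorem params (hk : ringChar k ≠ 2) (a b : k[X]) (δ : ℝ) (hδ : 0 < δ) :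
    ∃ A : ℕ, ∀ ε : ℝ, 0 < ε → ∀ᶠ n : ℕ in atTop, ∃ l s z : ℕ, 1 ≤ s ∧ 2 ≤ z ∧
      4 * (4096 * (8 ^ Fintype.card (Tau a b) * (729 / 1024 : ℝ) ^ s)) ≤ ε ∧
      (∀ m ≤ A * l, et a b n z * (4 ^ m * 4 ^ Fintype.card (Tau a b)) ≤ ε) ∧
      (((Sf k n).filter fun D => ¬ ty A l s z D).card : ℝ) ≤ δ * (Fintype.card k : ℝ) ^ n := by
  obtain ⟨A, hA⟩ := exists_nat_gt (9 / δ)
  have hAp : (0 : ℝ) < A := lt_trans (by positivity) hA
  have hA1 : 1 ≤ A := by
    have : 0 < A := by exact_mod_cast hAp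
    exact this
  refine ⟨A, fun ε hε => ?_⟩
  have h1 := tend_log2.eventually (asy1 (4 * (4096 * 8 ^ Fintype.card (Tau a b))) ε hε)
  have h2 := tend_log2.eventually (asy2 ((2 * (5 * (2 + dQ a b) + 2 + 2 * (2 +
    Fintype.card (Tau a b)))) * 4 ^ Fintype.card (Tau a b)) ε hε)
  have h3 := tend_log2.eventually (asy3 (2 * A + 3) (by omega) (δ / 3) (by positivity))
  have h4 : ∀ᶠ l : ℕ in atTop, (1 / 2 : ℝ) ^ (l / 25) ≤ δ / 3 := by
    have h5 : Tendsto (fun l : ℕ => (1 / 2 : ℝ) ^ (l / 25)) atTop (𝓝 0) :=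
      (tendsto_pow_atTop_nhds_zero_of_lt_one (by norm_num) (by norm_num)).comp tend_div25
    exact h5.eventually_le_const (by positivity)
  have h4' := tend_log2.eventually h4
  have h5 := tend_log2.eventually_ge_atTop 25
  filter_upwards [h1, h2, h3, h4', h5, eventually_ge_atTop 1] with n e1 e2 e3 e4 e5 e6
  set l := Nat.log 2 n with hl
  have hl1 : 2 ^ l ≤ n := Nat.pow_log_le_self 2 (by omega)
  have hl2 : n < 2 ^ (l + 1) := Nat.lt_pow_succ_log_self (by norm_num) n
  refine ⟨l, l / 25, (2 * A + 3) * l, by omega, by nlinarith, ?_, ?_, ?_⟩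
  · refine le_trans (le_of_eq ?_) e1
    ring
  · intro m hm
    have h6 := et_le (a := a) (b := b) (A := A) hl2
    have h7 : (4 : ℝ) ^ m ≤ 4 ^ (A * l) := pow_le_pow_right₀ (by norm_num) hm
    have h8 := et_nonneg (a := a) (b := b) n ((2 * A + 3) * l)
    calc et a b n ((2 * A + 3) * l) * (4 ^ m * 4 ^ Fintype.card (Tau a b)) ≤
        et a b n ((2 * A + 3) * l) * (4 ^ (A * l) * 4 ^ Fintype.card (Tau a b)) := by
          apply mul_le_mul_of_nonneg_left _ h8
          exact mul_le_mul_of_nonneg_right h7 (pow_nonneg (by norm_num) _)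
      _ = (et a b n ((2 * A + 3) * l) * 4 ^ (A * l)) * 4 ^ Fintype.card (Tau a b) := by ring
      _ ≤ ((2 * (5 * (2 + dQ a b) + 2 + 2 * (2 + Fintype.card (Tau a b)))) * (1 / 2) ^ l) *
          4 ^ Fintype.card (Tau a b) := mul_le_mul_of_nonneg_right h6 (pow_nonneg (by norm_num) _)
      _ = _ := by ring
      _ ≤ ε := e2
  · refine (nontyp (k := k) hk n A l (l / 25) ((2 * A + 3) * l)).trans ?_
    rw [mul_comm δ]
    apply mul_le_mul_of_nonneg_left _ (by positivity)
    have h6 : (1 + Real.log n) / ((A * l : ℕ) + 1) ≤ δ / 3 := by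
      have hn0 : (0 : ℝ) < n := by exact_mod_cast e6
      have h7 : Real.log n ≤ l + 1 := by
        have h8 : Real.log n ≤ Real.log (2 ^ (l + 1)) := by
          apply Real.log_le_log hn0
          exact_mod_cast hl2.le
        rw [Real.log_pow] at h8
        have h9 : Real.log 2 ≤ 1 := by
          have := Real.log_two_lt_d9
          linarith
        calc Real.log n ≤ ((l + 1 : ℕ) : ℝ) * Real.log 2 := h8
          _ ≤ ((l + 1 : ℕ) : ℝ) * 1 := mul_le_mul_of_nonneg_left h9 (by positivity)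
          _ = _ := by push_cast; ring
      have hl0 : (1 : ℝ) ≤ l := by
        have : 1 ≤ l := by omega
        exact_mod_cast this
      rw [div_le_iff₀ (by positivity)]
      have h8 : 9 < δ * A := by
        rw [div_lt_iff₀ hδ] at hA
        linarith
      push_cast
      nlinarith
    have h7 := e3
    have h8 := asy4 (n := n) (l := l) (s := l / 25) hl1 (by omega)
    have h9 := h8.trans e4
    linarith

/-- the number of typical polynomials with a property -/
noncomputable def cnt (A l s z n : ℕ) (p : k[X] → Prop) : ℝ :=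
  (((Sf k n).filter fun D => ty A l s z D ∧ p D).card : ℝ)

theorem cnt_eq (A l s z n : ℕ) (p : k[X] → Prop) : cnt A l s z n p =
    ∑ m ∈ Icc (7 * s) (A * l),
      (((Sf k n).filter fun D => (pf D).card = m ∧ sm z D ≤ s ∧ p D).card : ℝ) := by
  rw [cnt, ← Nat.cast_sum]
  congr 1
  rw [← card_biUnion]
  · congr 1
    ext D
    rw [mem_filter, mem_biUnion, ty]
    constructor
    · rintro ⟨h1, ⟨h2, h3, h4⟩, h5⟩
      exact ⟨(pf D).card, mem_Icc.2 ⟨h2, h3⟩, mem_filter.2 ⟨h1, rfl, h4, h5⟩⟩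
    · rintro ⟨m, hm, hD⟩
      rw [mem_Icc] at hm
      obtain ⟨h1, h2, h3, h4⟩ := mem_filter.1 hD
      exact ⟨h1, ⟨by omega, by omega, h3⟩, h4⟩
  · intro m _ m' _ hne
    rw [Function.onFun, disjoint_left]
    intro D hD hD'
    exact hne ((mem_filter.1 hD).2.1.symm.trans (mem_filter.1 hD').2.1)

theorem cnt_le (A l s z n : ℕ) (p : k[X] → Prop) :
    cnt A l s z n p ≤ (((Sf k n).filter p).card : ℝ) := by
  rw [cnt]
  have : ((Sf k n).filter fun D => ty A l s z D ∧ p D).card ≤ ((Sf k n).filter p).card := by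
    apply card_le_card
    intro D hD
    rw [mem_filter] at hD ⊢
    exact ⟨hD.1, hD.2.2⟩
  exact_mod_cast this

theorem le_cnt (A l s z n : ℕ) (p : k[X] → Prop) : (((Sf k n).filter p).card : ℝ) ≤
    cnt A l s z n p + (((Sf k n).filter fun D => ¬ ty A l s z D).card : ℝ) := by
  rw [cnt]
  have : ((Sf k n).filter p).card ≤ ((Sf k n).filter fun D => ty A l s z D ∧ p D).card +
      ((Sf k n).filter fun D => ¬ ty A l s z D).card := by
    refine le_trans (card_le_card ?_) (card_union_le _ _)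
    intro D hD
    rw [mem_union, mem_filter, mem_filter]
    rw [mem_filter] at hD
    by_cases h : ty A l s z D
    · exact Or.inl ⟨hD.1, h, hD.2⟩
    · exact Or.inr ⟨hD.1, h⟩
  exact_mod_cast this

include H in
/-- many polynomials are prime to the bad primes -/
theorem nb_lower (hq : 4 ≤ Fintype.card k) : ∃ c : ℝ, 0 < c ∧ ∀ᶠ n : ℕ in atTop,
    c * (Fintype.card k : ℝ) ^ n ≤ (((Sf k n).filter (nb a b)).card : ℝ) := by
  set m0 : k[X] := ∏ s : Tau a b, QQ a b s with hm0
  have hm : m0.Monic := monic_prod_of_monic _ _ fun s _ => H.fam.mon s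
  set M0 := m0.natDegree with hM0
  set q : ℝ := (Fintype.card k : ℝ) with hqd
  have hq4 : (4 : ℝ) ≤ q := by rw [hqd]; exact_mod_cast hq
  refine ⟨1 / (4 * q ^ M0), by positivity, ?_⟩
  filter_upwards [eventually_ge_atTop (2 * M0 + 6)] with n hn
  have h1 := cop_lower (k := k) H.hk (by omega) hm (n := n) (by omega)
  have h2 : (((Sf k n).filter (fun D => IsCoprime D m0)).card : ℝ) ≤
      (((Sf k n).filter (nb a b)).card : ℝ) := by
    have : ((Sf k n).filter (fun D => IsCoprime D m0)).card ≤ ((Sf k n).filter (nb a b)).card := by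
      apply card_le_card
      intro D hD
      rw [mem_filter] at hD ⊢
      refine ⟨hD.1, fun s hs => ?_⟩
      exact (H.fam.irr s).not_isUnit (hD.2.isUnit_of_dvd' hs (dvd_prod_of_mem _ (mem_univ s)))
    exact_mod_cast this
  refine le_trans ?_ (h1.trans h2)
  rw [← hqd, ← hM0]
  obtain ⟨r, hr⟩ : ∃ r, n = M0 + r := ⟨n - M0, by omega⟩
  have h3 : n - M0 = r := by omega
  rw [h3, hr, pow_add]
  have h4 : 8 * q ^ (n / 2) ≤ q ^ r := by
    calc 8 * q ^ (n / 2) ≤ q ^ 2 * q ^ (n / 2) := by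
          apply mul_le_mul_of_nonneg_right _ (by positivity)
          nlinarith
      _ = q ^ (2 + n / 2) := by rw [pow_add]
      _ ≤ q ^ r := pow_le_pow_right₀ (by linarith) (by omega)
  rw [hr] at h4
  have h5 : 1 / (4 * q ^ M0) * (q ^ M0 * q ^ r) = q ^ r / 4 := by
    have : q ^ M0 ≠ 0 := by positivity
    field_simp
  rw [h5]
  linarith

include H in
/-- the main theorem, on the level of the class -/
theorem main_cnt {G : k[X] → Prop} (hG : Imp H G)
    (hq : 4 ≤ Fintype.card k) (h2t : ∀ u : W, u ≠ 0 → ∃ s, om u ((datum H).t s) ≠ 0) :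
    (∃ c : ℝ, 0 < c ∧ ∀ᶠ n : ℕ in atTop, (n : F2) + (N : F2) = 1 →
      c * (Fintype.card k : ℝ) ^ n ≤ (((Sf k n).filter (P1 a b)).card : ℝ)) ∧
    ∀ ε : ℝ, 0 < ε → ∀ᶠ n : ℕ in atTop, (n : F2) + (N : F2) = 1 →
      (1 / 3 - ε) * (((Sf k n).filter (P1 a b)).card : ℝ) ≤
        (((Sf k n).filter (P2 G a b)).card : ℝ) := by
  set q : ℝ := (Fintype.card k : ℝ) with hqd
  have hq4 : (4 : ℝ) ≤ q := by rw [hqd]; exact_mod_cast hq
  obtain ⟨t2, ht2⟩ : ∃ t2 : ℝ, t2 = 2 ^ Fintype.card (Tau a b) := ⟨_, rfl⟩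
  have ht2p : 0 < t2 := by rw [ht2]; exact pow_pos (by norm_num) _
  have step : ∀ δ : ℝ, 0 < δ → ∀ ε : ℝ, 0 < ε → ε ≤ 1 / 10 → ∀ᶠ n : ℕ in atTop,
      (n : F2) + (N : F2) = 1 → ∃ x y w : ℝ, 0 ≤ x ∧ x ≤ (((Sf k n).filter (P1 a b)).card : ℝ) ∧
        (((Sf k n).filter (P1 a b)).card : ℝ) ≤ x + δ * q ^ n ∧
        (1 - 10 * ε) * x ≤ 3 * (((Sf k n).filter (P2 G a b)).card : ℝ) ∧
        (1 - ε) * y ≤ t2 * x ∧ (((Sf k n).filter (nb a b)).card : ℝ) ≤ y + δ * q ^ n := by
    intro δ hδ ε hε hε1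
    obtain ⟨A, hA⟩ := params (k := k) H.hk a b δ hδ
    filter_upwards [hA ε hε] with n hn hodd
    obtain ⟨l, s, z, h1, h2, h3, h4, h5⟩ := hn
    have key : ∀ m ∈ Icc (7 * s) (A * l), _ := fun m hm =>
      lvl H hG hq h2t (n := n) (m := m) (z := z) (s := s) hodd h2 h1 (mem_Icc.1 hm).1 hε
        (by linarith) h3 (h4 m (mem_Icc.1 hm).2) (by linarith)
    refine ⟨cnt A l s z n (P1 a b), cnt A l s z n (nb a b), 0, ?_, cnt_le _ _ _ _ _ _, ?_, ?_, ?_, ?_⟩
    · rw [cnt]; exact Nat.cast_nonneg _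
    · refine (le_cnt A l s z n (P1 a b)).trans ?_
      linarith
    · refine le_trans ?_ (mul_le_mul_of_nonneg_left (cnt_le A l s z n (P2 G a b)) (by norm_num))
      rw [cnt_eq, cnt_eq, mul_sum, mul_sum]
      exact sum_le_sum fun m hm => (key m hm).1
    · rw [ht2, cnt_eq, cnt_eq, mul_sum, mul_sum]
      exact sum_le_sum fun m hm => (key m hm).2
    · refine (le_cnt A l s z n (nb a b)).trans ?_
      linarith
  obtain ⟨c0, hc0, hlow⟩ := nb_lower H hq
  have first : ∃ c : ℝ, 0 < c ∧ ∀ᶠ n : ℕ in atTop, (n : F2) + (N : F2) = 1 →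
      c * q ^ n ≤ (((Sf k n).filter (P1 a b)).card : ℝ) := by
    refine ⟨c0 / (4 * t2), by positivity, ?_⟩
    filter_upwards [hlow, step (c0 / 2) (by positivity) (1 / 10) (by norm_num) le_rfl] with n e1 e2 hodd
    obtain ⟨x, y, w, g0, g1, g2, g3, g4, g5⟩ := e2 hodd
    refine le_trans ?_ g1
    rw [div_mul_eq_mul_div, div_le_iff₀ (by positivity)]
    have : c0 * q ^ n ≤ y + c0 / 2 * q ^ n := e1.trans g5
    have hqn : 0 < c0 * q ^ n := by positivity
    nlinarith
  refine ⟨first, ?_⟩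
  obtain ⟨c, hc, hc'⟩ := first
  intro ε hε
  by_cases hε3 : 1 / 3 ≤ ε
  · filter_upwards with n _
    have : (0 : ℝ) ≤ (((Sf k n).filter (P1 a b)).card : ℝ) := Nat.cast_nonneg _
    have h2 : (0 : ℝ) ≤ (((Sf k n).filter (P2 G a b)).card : ℝ) := Nat.cast_nonneg _
    nlinarith
  · push Not at hε3
    filter_upwards [hc', step (c * ε) (by positivity) (ε / 10) (by positivity) (by linarith)] with n e1 e2 hodd
    obtain ⟨x, y, w, g0, g1, g2, g3, g4, g5⟩ := e2 hodd
    have h1 := e1 hodd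
    set Y : ℝ := (((Sf k n).filter (P1 a b)).card : ℝ) with hY
    have h2 : (1 - ε) * Y ≤ x := by
      have : c * ε * q ^ n ≤ ε * Y := by
        calc c * ε * q ^ n = ε * (c * q ^ n) := by ring
          _ ≤ ε * Y := mul_le_mul_of_nonneg_left h1 hε.le
      linarith
    have h3 : (1 - ε) * ((1 - ε) * Y) ≤ (1 - ε) * x := mul_le_mul_of_nonneg_left h2 (by linarith)
    have h4 : (0 : ℝ) ≤ Y := Nat.cast_nonneg _
    have h5 : (1 - 10 * (ε / 10)) * x = (1 - ε) * x := by ring
    rw [h5] at g3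
    have h6 : 0 ≤ ε * Y := by positivity
    nlinarith

end Pool.Agent.Y164.PS
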