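import Pool.Agent.H341R2.WeilSharp
import Pool.Agent.Y164.PS.Form

/-!
The quadratic residue symbol with values in `ZMod 2`.
-/

set_option autoImplicit false
set_option linter.all false

namespace Pool.Agent.Y164.PS

open Polynomial Pool.Agent.H341R2.Sharp

variable {k : Type} [Field k] [Fintype k] [DecidableEq k]

/-- the symbol: `1` if `f` is not a square modulo `g` -/
noncomputable def L (f g : k[X]) : F2 := if lam f g = -1 then 1 else 0

/-- the class of a constant: `1` if it is not a square -/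
noncomputable def ch (c : k) : F2 := if quadraticChar k c = -1 then 1 else 0

/-- the character of `ZMod 2` -/
noncomputable def sg (x : F2) : ℝ := if x = 0 then 1 else -1

theorem sg_zero : sg 0 = 1 := if_pos rfl

theorem sg_one : sg 1 = -1 := if_neg (by decide)

theorem sg_add (x y : F2) : sg (x + y) = sg x * sg y := by
  have h : ∀ z : F2, z = 0 ∨ z = 1 := by decide
  have h2 : (1 : F2) + 1 = 0 := by decide
  rcases h x with rfl | rfl <;> rcases h y with rfl | rfl <;>
    simp [sg_zero, sg_one, h2]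

theorem sg_sum {α : Type*} (s : Finset α) (f : α → F2) : sg (∑ a ∈ s, f a) = ∏ a ∈ s, sg (f a) := by
  classical
  induction s using Finset.induction_on with
  | empty => simp [sg_zero]
  | insert a s ha ih => rw [Finset.sum_insert ha, Finset.prod_insert ha, sg_add, ih]

theorem abs_sg (x : F2) : |sg x| = 1 := by
  unfold sg
  split_ifs <;> simp

theorem sg_mul_self (x : F2) : sg x * sg x = 1 := by
  unfold sg
  split_ifs <;> simp

theorem lam_mem (f g : k[X]) : lam f g = 0 ∨ lam f g = 1 ∨ lam f g = -1 := by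
  unfold lam
  by_cases h : resultant g f g.natDegree f.natDegree = 0
  · left; rw [h]; simp
  · right; exact quadraticChar_dichotomy h

theorem lam_eq_zero_iff {f g : k[X]} (hg : g ≠ 0) : lam f g = 0 ↔ ¬ IsCoprime f g := by
  unfold lam
  rw [quadraticChar_eq_zero_iff, resultant_eq_zero_iff]
  constructor
  · rintro ⟨_, h⟩ h'
    exact h h'.symm
  · intro h
    exact ⟨Or.inl hg, fun h' => h h'.symm⟩

theorem sg_L {f g : k[X]} (hg : g ≠ 0) (h : IsCoprime f g) : sg (L f g) = lam f g := by
  have h0 : lam f g ≠ 0 := fun h' => (lam_eq_zero_iff hg).1 h' h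
  rcases lam_mem f g with h1 | h1 | h1
  · exact absurd h1 h0
  · rw [L, if_neg (by rw [h1]; norm_num), sg_zero, h1]; norm_num
  · rw [L, if_pos h1, sg_one, h1]; norm_num

theorem L_of_not_coprime {f g : k[X]} (hg : g ≠ 0) (h : ¬ IsCoprime f g) : L f g = 0 := by
  rw [L, (lam_eq_zero_iff hg).2 h]
  rfl

theorem quad_neg_one (hm : IsSquare (-1 : k)) : quadraticChar k (-1) = 1 := by
  rw [quadraticChar_one_iff_isSquare (by simp)]
  exact hm

theorem lam_comm (hm : IsSquare (-1 : k)) (f g : k[X]) : lam f g = lam g f := by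
  unfold lam
  rw [resultant_comm, map_mul, map_pow, quad_neg_one hm, one_pow, one_mul]

theorem L_comm (hm : IsSquare (-1 : k)) (f g : k[X]) : L f g = L g f := by
  rw [L, lam_comm hm, L]

theorem lam_mul_left {f f' g : k[X]} (hf : f ≠ 0) (hf' : f' ≠ 0) :
    lam (f * f') g = lam f g * lam f' g := by
  unfold lam
  rw [natDegree_mul hf hf', resultant_mul_right _ _ _ _ le_rfl, map_mul]

theorem L_mul_left {f f' g : k[X]} (hg : g ≠ 0) (hf : f ≠ 0) (hf' : f' ≠ 0) (h : IsCoprime f g)
    (h' : IsCoprime f' g) : L (f * f') g = L f g + L f' g := by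
  have h1 : lam f g ≠ 0 := fun hh => (lam_eq_zero_iff hg).1 hh h
  have h2 : lam f' g ≠ 0 := fun hh => (lam_eq_zero_iff hg).1 hh h'
  rw [L, L, L, lam_mul_left hf hf']
  rcases lam_mem f g with e | e | e <;> rcases lam_mem f' g with e' | e' | e' <;>
    first
    | exact absurd e h1
    | exact absurd e' h2
    | (rw [e, e']; norm_num)
  decide

theorem L_prod_left {α : Type*} {s : Finset α} {f : α → k[X]} {g : k[X]} (hg : g ≠ 0)
    (hf : ∀ a ∈ s, f a ≠ 0) (h : ∀ a ∈ s, IsCoprime (f a) g) :
    L (∏ a ∈ s, f a) g = ∑ a ∈ s, L (f a) g := by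
  classical
  induction s using Finset.induction_on with
  | empty =>
    rw [Finset.prod_empty, Finset.sum_empty, L, lam, natDegree_one]
    have : resultant g (1 : k[X]) g.natDegree 0 = 1 := by
      rw [resultant_zero_right_deg]
      simp
    rw [this]
    simp
  | insert a s ha ih =>
    rw [Finset.prod_insert ha, Finset.sum_insert ha, L_mul_left hg (hf a (by simp))
      (Finset.prod_ne_zero_iff.2 fun b hb => hf b (by simp [hb])) (h a (by simp))
      (IsCoprime.prod_left fun b hb => h b (by simp [hb])),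
      ih (fun b hb => hf b (by simp [hb])) fun b hb => h b (by simp [hb])]

theorem L_C {c : k} (hc : c ≠ 0) (g : k[X]) : L (C c) g = (g.natDegree : F2) * ch c := by
  have h1 : lam (C c) g = quadraticChar k c ^ g.natDegree := by
    unfold lam
    rw [natDegree_C, resultant_zero_right_deg, map_pow]
    simp
  rw [L, h1, ch]
  rcases quadraticChar_dichotomy hc with h | h
  · rw [h, one_pow]
    norm_num
  · rw [h, if_pos rfl, mul_one]
    rcases Nat.even_or_odd g.natDegree with he | ho
    · rw [he.neg_one_pow, (ZMod.natCast_eq_zero_iff_even).2 he]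
      norm_num
    · rw [ho.neg_one_pow, if_pos rfl, ((ZMod.natCast_eq_one_iff_odd).2 ho)]

theorem ch_mul {c c' : k} (hc : c ≠ 0) (hc' : c' ≠ 0) : ch (c * c') = ch c + ch c' := by
  rw [ch, ch, ch, map_mul]
  rcases quadraticChar_dichotomy hc with h | h <;> rcases quadraticChar_dichotomy hc' with h' | h' <;>
    rw [h, h'] <;> norm_num
  decide

theorem ch_eq_zero_iff {c : k} (hc : c ≠ 0) : ch c = 0 ↔ IsSquare c := by
  rw [← quadraticChar_one_iff_isSquare hc, ch]
  rcases quadraticChar_dichotomy hc with h | h <;> rw [h] <;> norm_num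

theorem coprime_of_not_dvd {f P : k[X]} (hP : Irreducible P) (h : ¬ P ∣ f) : IsCoprime f P :=
  ((hP.coprime_iff_not_dvd).2 h).symm

theorem lam_irr (hk : ringChar k ≠ 2) {P f : k[X]} (hP : P.Monic) (hi : Irreducible P)
    (h : ¬ P ∣ f) : lam f P = 1 ↔ ∃ z : k[X], P ∣ z ^ 2 - f := by
  classical
  haveI : Fact (Irreducible P) := ⟨hi⟩
  haveI : Module.Finite k (AdjoinRoot P) := hP.finite_adjoinRoot
  haveI : Finite (AdjoinRoot P) := Module.finite_of_finite k
  letI : Fintype (AdjoinRoot P) := Fintype.ofFinite _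
  have h1 := qc_aeval (F := k) (E := AdjoinRoot P) hk f (AdjoinRoot.root P)
  have hmin : minpoly k (AdjoinRoot.root P) = P := by
    rw [AdjoinRoot.minpoly_root hi.ne_zero, hP.leadingCoeff]
    simp
  have hfr : Module.finrank k (AdjoinRoot P) = P.natDegree := by
    rw [(AdjoinRoot.powerBasis hi.ne_zero).finrank]
    rfl
  rw [hmin, hfr, Nat.div_self hi.natDegree_pos, pow_one, AdjoinRoot.aeval_eq] at h1
  rw [← h1, quadraticChar_one_iff_isSquare]
  · constructor
    · rintro ⟨y, hy⟩
      obtain ⟨z, rfl⟩ := AdjoinRoot.mk_surjective y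
      refine ⟨z, ?_⟩
      rw [← AdjoinRoot.mk_eq_mk, map_pow, hy, pow_two]
    · rintro ⟨z, hz⟩
      refine ⟨AdjoinRoot.mk P z, ?_⟩
      rw [← AdjoinRoot.mk_eq_mk, map_pow] at hz
      rw [← hz, pow_two]
  · rw [Ne, AdjoinRoot.mk_eq_zero]
    exact h

theorem L_eq_zero_iff (hk : ringChar k ≠ 2) {P f : k[X]} (hP : P.Monic) (hi : Irreducible P)
    (h : ¬ P ∣ f) : L f P = 0 ↔ ∃ z : k[X], P ∣ z ^ 2 - f := by
  rw [← lam_irr hk hP hi h, L]
  have h0 : lam f P ≠ 0 := fun hh => (lam_eq_zero_iff hi.ne_zero).1 hh (coprime_of_not_dvd hi h)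
  rcases lam_mem f P with e | e | e
  · exact absurd e h0
  · rw [e]; norm_num
  · rw [e]; norm_num

theorem L_congr (hk : ringChar k ≠ 2) {P f g : k[X]} (hP : P.Monic) (hi : Irreducible P)
    (h : P ∣ f - g) : L f P = L g P := by
  by_cases hf : P ∣ f
  · have hg : P ∣ g := by
      have := dvd_sub hf h
      rwa [sub_sub_cancel] at this
    rw [L_of_not_coprime hi.ne_zero, L_of_not_coprime hi.ne_zero]
    · intro hc
      exact hi.not_isUnit (hc.isUnit_of_dvd' hg dvd_rfl)
    · intro hc
      exact hi.not_isUnit (hc.isUnit_of_dvd' hf dvd_rfl)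
  · have hg : ¬ P ∣ g := by
      intro hg
      apply hf
      have := dvd_add h hg
      rwa [sub_add_cancel] at this
    have key : L f P = 0 ↔ L g P = 0 := by
      rw [L_eq_zero_iff hk hP hi hf, L_eq_zero_iff hk hP hi hg]
      constructor
      · rintro ⟨z, hz⟩
        refine ⟨z, ?_⟩
        have := dvd_add hz h
        rwa [sub_add_sub_cancel] at this
      · rintro ⟨z, hz⟩
        refine ⟨z, ?_⟩
        have := dvd_sub hz h
        have e : z ^ 2 - g - (f - g) = z ^ 2 - f := by ring
        rwa [e] at this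
    have h2 : ∀ x y : F2, (x = 0 ↔ y = 0) → x = y := by decide
    exact h2 _ _ key

theorem coprime_C {c : k} (hc : c ≠ 0) (g : k[X]) : IsCoprime (C c) g :=
  ⟨C c⁻¹, 0, by rw [← C_mul, inv_mul_cancel₀ hc, C_1, zero_mul, add_zero]⟩

theorem L_neg_left (hk : ringChar k ≠ 2) (hm : IsSquare (-1 : k)) {f P : k[X]} (hP : P.Monic)
    (hi : Irreducible P) : L (-f) P = L f P := by
  by_cases hf : P ∣ f
  · have hf' : P ∣ -f := (dvd_neg).2 hf
    rw [L_of_not_coprime hi.ne_zero, L_of_not_coprime hi.ne_zero]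
    · intro hc
      exact hi.not_isUnit (hc.isUnit_of_dvd' hf dvd_rfl)
    · intro hc
      exact hi.not_isUnit (hc.isUnit_of_dvd' hf' dvd_rfl)
  · have hf0 : f ≠ 0 := by rintro rfl; exact hf (dvd_zero _)
    have h1 : -f = C (-1) * f := by simp
    have h3 : L (C (-1 : k)) P = 0 := by
      rw [L_C (by simp), (ch_eq_zero_iff (by simp)).2 hm, mul_zero]
    rw [h1, L_mul_left hi.ne_zero (by simp) hf0 (coprime_C (by simp) _)
      (coprime_of_not_dvd hi hf), h3, zero_add]

end Pool.Agent.Y164.PS
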