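import Pool.Agent.Y164.PS.Avg

/-!
The estimates in a cell.
-/

set_option autoImplicit false
set_option linter.all false

namespace Pool.Agent.Y164.PS

open Finset Polynomial Pool.Agent.H341R2.Sharp
open scoped Classical

variable {k : Type} [Field k] [Fintype k] [DecidableEq k]
variable {ι τ : Type} [Fintype ι] [Fintype τ]

/-- symbols between the primes of the twist -/
noncomputable def AT (T : ι → k[X]) (i j : ι) : F2 := L (T i) (T j)

/-- symbols between the primes of the twist and the bad primes -/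
noncomputable def BT (Q : τ → k[X]) (T : ι → k[X]) (i : ι) (s : τ) : F2 := L (T i) (Q s)

/-- all primes are distinct -/
def ok (Q : τ → k[X]) (T : ι → k[X]) : Prop := Function.Injective (Sum.elim T Q)

/-- the class condition -/
def cl (D : Dat τ) (Q : τ → k[X]) (T : ι → k[X]) : Prop := ∀ s, 1 + ∑ i, BT Q T i s + D.g s = 0

/-- the phase -/
noncomputable def Ph (D : Dat τ) (Q : τ → k[X]) (d : ι → F2) (T : ι → k[X])
    (c : V ι τ × V ι τ × (τ → F2)) : F2 :=
  FF D (AT T) (BT Q T) d c.1 c.2.1 + ∑ s, c.2.2 s * (1 + ∑ i, BT Q T i s + D.g s)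

/-- the part of the phase which does not depend on the `j`-th prime -/
noncomputable def PhR (D : Dat τ) (Q : τ → k[X]) (d : ι → F2) (T : ι → k[X]) (j : ι)
    (c : V ι τ × V ι τ × (τ → F2)) : F2 :=
  FF D (fun i i' => if i = j ∨ i' = j then 0 else L (T i) (T i'))
    (fun i s => if i = j then 0 else L (T i) (Q s)) d c.1 c.2.1 +
    ∑ s, c.2.2 s * (1 + ∑ i ∈ univ.erase j, L (T i) (Q s) + D.g s)

/-- the coefficients -/
noncomputable def cf (D : Dat τ) (c : V ι τ × V ι τ × (τ → F2)) (j : ι) : ι ⊕ τ → F2 :=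
  Sum.elim (fun i => if i = j then 0 else Oq (lab c.1 c.2.1 i + lab c.1 c.2.1 j))
    (fun s => ee (D.t s) (c.1.2 s) (c.2.1.2 s) (lab c.1 c.2.1 j) + c.2.2 s)

theorem AT_comm (hm : IsSquare (-1 : k)) (T : ι → k[X]) (i j : ι) : AT T i j = AT T j i :=
  L_comm hm _ _

theorem Ph_split (hm : IsSquare (-1 : k)) (D : Dat τ) (Q : τ → k[X]) (d : ι → F2) (T : ι → k[X])
    (j : ι) (c : V ι τ × V ι τ × (τ → F2)) (p : k[X]) :
    Ph D Q d (Function.update T j p) c = PhR D Q d T j c +
      ∑ x : ι ⊕ τ, cf D c j x * L (Sum.elim T Q x) p := by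
  have hne : ∀ i, i ≠ j → Function.update T j p i = T i := fun i hi => Function.update_of_ne hi _ _
  have hself : Function.update T j p j = p := Function.update_self _ _ _
  have e1 : (fun i i' => if i = j ∨ i' = j then (0 : F2) else AT (Function.update T j p) i i') =
      fun i i' => if i = j ∨ i' = j then 0 else L (T i) (T i') := by
    funext i i'
    split_ifs with h
    · rfl
    · push Not at h
      rw [AT, hne i h.1, hne i' h.2]
  have e2 : (fun i s => if i = j then (0 : F2) else BT Q (Function.update T j p) i s) =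
      fun i s => if i = j then 0 else L (T i) (Q s) := by
    funext i s
    split_ifs with h
    · rfl
    · rw [BT, hne i h]
  have e3 : ∑ i ∈ univ.erase j, AT (Function.update T j p) i j *
      Oq (lab c.1 c.2.1 i + lab c.1 c.2.1 j) =
      ∑ i, (if i = j then 0 else Oq (lab c.1 c.2.1 i + lab c.1 c.2.1 j)) * L (T i) p := by
    rw [← add_sum_erase univ _ (mem_univ j), if_pos rfl, zero_mul, zero_add]
    refine sum_congr rfl fun i hi => ?_
    rw [if_neg (ne_of_mem_erase hi), AT, hne i (ne_of_mem_erase hi), hself, mul_comm]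
  have e4 : ∑ s, BT Q (Function.update T j p) j s *
      ee (D.t s) (c.1.2 s) (c.2.1.2 s) (lab c.1 c.2.1 j) =
      ∑ s, ee (D.t s) (c.1.2 s) (c.2.1.2 s) (lab c.1 c.2.1 j) * L (Q s) p := by
    refine sum_congr rfl fun s _ => ?_
    rw [BT, hself, L_comm hm, mul_comm]
  have e5 : ∑ s, c.2.2 s * (1 + ∑ i, BT Q (Function.update T j p) i s + D.g s) =
      ∑ s, c.2.2 s * (1 + ∑ i ∈ univ.erase j, L (T i) (Q s) + D.g s) +
      ∑ s, c.2.2 s * L (Q s) p := by
    rw [← sum_add_distrib]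
    refine sum_congr rfl fun s _ => ?_
    rw [← add_sum_erase univ _ (mem_univ j)]
    have : ∑ i ∈ univ.erase j, BT Q (Function.update T j p) i s =
        ∑ i ∈ univ.erase j, L (T i) (Q s) :=
      sum_congr rfl fun i hi => by rw [BT, hne i (ne_of_mem_erase hi)]
    rw [this, BT, hself, L_comm hm p]
    ring
  rw [Ph, FF_split D _ d (AT_comm hm _) _ _ j, e1, e2, e3, e4, e5, PhR, Fintype.sum_sum_type]
  simp only [cf, Sum.elim_inl, Sum.elim_inr, add_mul, sum_add_distrib]
  ring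

/-- A cell of tuples of primes. -/
structure Cell (D : Dat τ) (Q : τ → k[X]) (𝒞 : ι → Finset k[X]) (lg : Finset ι)
    (Nd : ℕ) (η : ℝ) : Prop where
  hm : IsSquare (-1 : k)
  Qm : ∀ s, (Q s).Monic
  Qi : ∀ s, Irreducible (Q s)
  mon : ∀ i, ∀ p ∈ 𝒞 i, p.Monic
  irr : ∀ i, ∀ p ∈ 𝒞 i, Irreducible p
  deg : ∀ T ∈ Fintype.piFinset 𝒞, ∑ i, (T i).natDegree + ∑ s, (Q s).natDegree ≤ Nd
  eta : ∀ j ∈ lg, ∀ M : k[X], M.Monic → 1 ≤ M.natDegree → M.natDegree ≤ Nd →
    (∀ (c : k) (h : k[X]), M ≠ C c * h ^ 2) →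
    |∑ p ∈ 𝒞 j, (lam M p : ℝ)| + (Fintype.card ι + Fintype.card τ) ≤ η * (𝒞 j).card
  eta' : ∀ j ∈ lg, ((Fintype.card ι : ℝ) + Fintype.card τ) ≤ η * (𝒞 j).card
  eta0 : 0 ≤ η
  lgne : lg.Nonempty

variable {D : Dat τ} {Q : τ → k[X]} {d : ι → F2} {𝒞 : ι → Finset k[X]} {lg : Finset ι} {Nd : ℕ}
  {η : ℝ} (hc : Cell D Q 𝒞 lg Nd η)

include hc in
theorem inner_bound {T : ι → k[X]} (hT : T ∈ Fintype.piFinset 𝒞) {j : ι} (hj : j ∈ lg)
    (c : V ι τ × V ι τ × (τ → F2)) (hbad : Bad D c.1 c.2.1 c.2.2 j) :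
    |∑ p ∈ 𝒞 j, (if ok Q (Function.update T j p) then sg (Ph D Q d (Function.update T j p) c) else 0)|
      ≤ η * (𝒞 j).card := by
  have hTm : ∀ i, T i ∈ 𝒞 i := Fintype.mem_piFinset.1 hT
  by_cases hok : ∃ p0 ∈ 𝒞 j, ok Q (Function.update T j p0)
  swap
  · push Not at hok
    rw [sum_eq_zero (fun p hp => if_neg (hok p hp)), abs_zero]
    exact mul_nonneg hc.eta0 (Nat.cast_nonneg _)
  obtain ⟨p0, hp0, hok0⟩ := hok
  set R : ι ⊕ τ → k[X] := Sum.elim T Q with hR
  have hRm : ∀ x, (R x).Monic := by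
    rintro (i | s)
    · exact hc.mon i _ (hTm i)
    · exact hc.Qm s
  have hRi : ∀ x, Irreducible (R x) := by
    rintro (i | s)
    · exact hc.irr i _ (hTm i)
    · exact hc.Qi s
  have hup : ∀ p, ∀ x, x ≠ Sum.inl j → Sum.elim (Function.update T j p) Q x = R x := by
    rintro p (i | s) hx
    · have : i ≠ j := fun h => hx (by rw [h])
      show Function.update T j p i = T i
      exact Function.update_of_ne this _ _
    · rfl
  have hupj : ∀ p, Sum.elim (Function.update T j p) Q (Sum.inl j) = p := fun p => by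
    show Function.update T j p j = p
    exact Function.update_self _ _ _
  have hinj : ∀ x y, x ≠ Sum.inl j → y ≠ Sum.inl j → R x = R y → x = y := by
    intro x y hx hy h
    apply hok0
    rw [hup p0 x hx, hup p0 y hy, h]
  set E : Finset k[X] := (univ.erase (Sum.inl j)).image R with hE
  have hokp : ∀ p, ok Q (Function.update T j p) ↔ p ∉ E := by
    intro p
    constructor
    · intro h hp
      rw [hE, mem_image] at hp
      obtain ⟨x, hx, hxp⟩ := hp
      have hx' := ne_of_mem_erase hx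
      apply hx'
      apply h
      rw [hup p x hx', hupj, hxp]
    · intro hp x y hxy
      by_cases hx : x = Sum.inl j
      · by_cases hy : y = Sum.inl j
        · rw [hx, hy]
        · exfalso
          apply hp
          rw [hx, hupj, hup p y hy] at hxy
          rw [hE, mem_image]
          exact ⟨y, mem_erase.2 ⟨hy, mem_univ _⟩, hxy.symm⟩
      · by_cases hy : y = Sum.inl j
        · exfalso
          apply hp
          rw [hy, hupj, hup p x hx] at hxy
          rw [hE, mem_image]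
          exact ⟨x, mem_erase.2 ⟨hx, mem_univ _⟩, hxy⟩
        · rw [hup p x hx, hup p y hy] at hxy
          exact hinj x y hx hy hxy
  set S : Finset (ι ⊕ τ) := univ.filter fun x => cf D c j x ≠ 0 with hS
  have hSj : ∀ x ∈ S, x ≠ Sum.inl j := by
    rintro x hx rfl
    apply (mem_filter.1 hx).2
    show (if j = j then (0 : F2) else _) = 0
    exact if_pos rfl
  have hSne : S.Nonempty := by
    rcases hbad with ⟨i, hij, h⟩ | ⟨s, h⟩
    · refine ⟨Sum.inl i, mem_filter.2 ⟨mem_univ _, ?_⟩⟩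
      show (if i = j then (0 : F2) else Oq (lab c.1 c.2.1 i + lab c.1 c.2.1 j)) ≠ 0
      rw [if_neg hij]
      exact h
    · exact ⟨Sum.inr s, mem_filter.2 ⟨mem_univ _, h⟩⟩
  set M : k[X] := ∏ x ∈ S, R x with hM
  have hMm : M.Monic := monic_prod_of_monic _ _ fun x _ => hRm x
  have hMns : ∀ (c : k) (h : k[X]), M ≠ C c * h ^ 2 := fun c h =>
    prod_not_sq S hSne R (fun x _ => hRm x) (fun x _ => hRi x)
      (fun x hx y hy => hinj x y (hSj x hx) (hSj y hy)) c h
  have hMd : M.natDegree = ∑ x ∈ S, (R x).natDegree := natDegree_prod_of_monic _ _ fun x _ => hRm x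
  have hM1 : 1 ≤ M.natDegree := by
    obtain ⟨x, hx⟩ := hSne
    rw [hMd]
    calc 1 ≤ (R x).natDegree := (hRi x).natDegree_pos
      _ ≤ _ := single_le_sum (f := fun x => (R x).natDegree) (fun _ _ => Nat.zero_le _) hx
  have hMN : M.natDegree ≤ Nd := by
    rw [hMd]
    calc ∑ x ∈ S, (R x).natDegree ≤ ∑ x, (R x).natDegree :=
          sum_le_sum_of_subset (subset_univ _)
      _ = ∑ i, (T i).natDegree + ∑ s, (Q s).natDegree := by
          rw [Fintype.sum_sum_type]; rfl
      _ ≤ Nd := hc.deg T hT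
  have hval : ∀ p ∈ 𝒞 j, p ∉ E → sg (Ph D Q d (Function.update T j p) c) =
      sg (PhR D Q d T j c) * (lam M p : ℝ) := by
    intro p hp hpE
    have hpi := hc.irr j p hp
    have hpm := hc.mon j p hp
    have hcop : ∀ x ∈ S, IsCoprime (R x) p := by
      intro x hx
      apply coprime_of_not_dvd hpi
      intro hd
      apply hpE
      rw [hE, mem_image]
      refine ⟨x, mem_erase.2 ⟨hSj x hx, mem_univ _⟩, ?_⟩
      exact (eq_of_monic_of_associated hpm (hRm x) (hpi.associated_of_dvd (hRi x) hd)).symm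
    rw [Ph_split hc.hm, sg_add]
    congr 1
    have h1 : ∑ x : ι ⊕ τ, cf D c j x * L (R x) p = ∑ x ∈ S, L (R x) p := by
      rw [hS, sum_filter]
      refine sum_congr rfl fun x _ => ?_
      split_ifs with h
      · rw [F2_ne_zero h, one_mul]
      · push Not at h
        rw [h, zero_mul]
    rw [h1, ← L_prod_left hpi.ne_zero (fun x _ => (hRm x).ne_zero) hcop,
      sg_L hpi.ne_zero (IsCoprime.prod_left hcop)]
  have h1 : ∑ p ∈ 𝒞 j, (if ok Q (Function.update T j p) then
      sg (Ph D Q d (Function.update T j p) c) else 0) =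
      sg (PhR D Q d T j c) * (∑ p ∈ 𝒞 j, (lam M p : ℝ) -
        ∑ p ∈ (𝒞 j).filter (fun p => p ∈ E), (lam M p : ℝ)) := by
    rw [sum_filter, ← sum_sub_distrib, mul_sum]
    refine sum_congr rfl fun p hp => ?_
    by_cases hpE : p ∈ E
    · rw [if_neg (fun h => (hokp p).1 h hpE), if_pos hpE, sub_self, mul_zero]
    · rw [if_pos ((hokp p).2 hpE), if_neg hpE, hval p hp hpE, sub_zero]
  rw [h1, abs_mul, abs_sg, one_mul]
  refine (abs_sub _ _).trans (le_trans ?_ (hc.eta j hj M hMm hM1 hMN hMns))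
  apply add_le_add le_rfl
  refine (abs_sum_le_sum_abs _ _).trans ?_
  calc ∑ p ∈ (𝒞 j).filter (fun p => p ∈ E), |(lam M p : ℝ)|
      ≤ ∑ p ∈ (𝒞 j).filter (fun p => p ∈ E), (1 : ℝ) := sum_le_sum fun p _ => abs_lam_le _ _
    _ = (((𝒞 j).filter (fun p => p ∈ E)).card : ℝ) := by simp
    _ ≤ ((univ : Finset (ι ⊕ τ)).card : ℝ) := by
        have h2 : ((𝒞 j).filter (fun p => p ∈ E)).card ≤ E.card :=
          card_le_card fun p hp => (mem_filter.1 hp).2
        have h3 : E.card ≤ (univ : Finset (ι ⊕ τ)).card :=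
          card_image_le.trans (card_le_card (erase_subset _ _))
        exact_mod_cast h2.trans h3
    _ = _ := by
        rw [card_univ, Fintype.card_sum]
        push_cast
        rfl

include hc in
theorem outer_bound (c : V ι τ × V ι τ × (τ → F2)) {j : ι} (hj : j ∈ lg)
    (hbad : Bad D c.1 c.2.1 c.2.2 j) :
    |∑ T ∈ Fintype.piFinset 𝒞, (if ok Q T then sg (Ph D Q d T c) else 0)| ≤
      η * (Fintype.piFinset 𝒞).card := by
  rcases (𝒞 j).eq_empty_or_nonempty with he | hne
  · have : Fintype.piFinset 𝒞 = ∅ := by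
      rw [Fintype.piFinset_eq_empty]
      exact ⟨j, he⟩
    rw [this]
    simp
  · have hpos : (0 : ℝ) < (𝒞 j).card := by exact_mod_cast card_pos.2 hne
    have h1 := sum_update 𝒞 j (fun T => if ok Q T then sg (Ph D Q d T c) else 0)
    have h2 : |((𝒞 j).card : ℝ) * ∑ T ∈ Fintype.piFinset 𝒞, (if ok Q T then sg (Ph D Q d T c) else 0)|
        ≤ ∑ T ∈ Fintype.piFinset 𝒞, η * (𝒞 j).card := by
      rw [h1]
      refine (abs_sum_le_sum_abs _ _).trans (sum_le_sum fun T hT => ?_)
      exact inner_bound hc hT hj c hbad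
    rw [abs_mul, Nat.abs_cast, sum_const, nsmul_eq_mul] at h2
    have h3 : ((𝒞 j).card : ℝ) * |∑ T ∈ Fintype.piFinset 𝒞, (if ok Q T then sg (Ph D Q d T c) else 0)|
        ≤ (𝒞 j).card * (η * (Fintype.piFinset 𝒞).card) := by
      linarith
    exact le_of_mul_le_mul_left h3 hpos

/-- the first moment -/
noncomputable def SS (D : Dat τ) (Q : τ → k[X]) (d : ι → F2) (𝒞 : ι → Finset k[X]) : ℝ :=
  ∑ T ∈ Fintype.piFinset 𝒞, (if ok Q T ∧ cl D Q T then (kc D (AT T) (BT Q T) d : ℝ) else 0)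

theorem SS_eq (hm : IsSquare (-1 : k)) :
    SS D Q d 𝒞 * ((V0s D d).card * 2 ^ Fintype.card τ) =
    ∑ c ∈ V0s D d ×ˢ V0s D d ×ˢ (univ : Finset (τ → F2)),
      ∑ T ∈ Fintype.piFinset 𝒞, (if ok Q T then sg (Ph D Q d T c) else 0) := by
  rw [sum_comm, SS, sum_mul]
  refine sum_congr rfl fun T _ => ?_
  by_cases h1 : ok Q T
  swap
  · rw [if_neg (fun h => h1 h.1)]
    simp only [if_neg h1, sum_const_zero, zero_mul]
  simp only [if_pos h1]
  have h2 := orth3 (τ := τ) (fun s => 1 + ∑ i, BT Q T i s + D.g s)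
  have h3 := orth2 D (BT Q T) d (AT_comm hm T)
  have h4 : (if ok Q T ∧ cl D Q T then (kc D (AT T) (BT Q T) d : ℝ) else 0) *
      ((V0s D d).card * 2 ^ Fintype.card τ) =
      ((kc D (AT T) (BT Q T) d : ℝ) * (V0s D d).card) *
      (if (∀ s, 1 + ∑ i, BT Q T i s + D.g s = 0) then (2 : ℝ) ^ Fintype.card τ else 0) := by
    by_cases h5 : cl D Q T
    · have h6 : ∀ s, 1 + ∑ i, BT Q T i s + D.g s = 0 := h5
      rw [if_pos ⟨h1, h5⟩, if_pos h6]; ring
    · have h6 : ¬ ∀ s, 1 + ∑ i, BT Q T i s + D.g s = 0 := h5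
      rw [if_neg (fun h => h5 h.2), if_neg h6]; ring
  rw [h4, h2, h3, sum_product, sum_mul]
  refine sum_congr rfl fun w _ => ?_
  rw [sum_product, sum_mul]
  refine sum_congr rfl fun w' _ => ?_
  rw [mul_sum]
  refine sum_congr rfl fun U _ => ?_
  rw [← sg_add]
  rfl

theorem abs_inner_le (c : V ι τ × V ι τ × (τ → F2)) :
    |∑ T ∈ Fintype.piFinset 𝒞, (if ok Q T then sg (Ph D Q d T c) else 0)| ≤
      (Fintype.piFinset 𝒞).card := by
  refine (abs_sum_le_sum_abs _ _).trans ?_
  rw [← nsmul_one, ← sum_const]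
  apply sum_le_sum
  intro T _
  split_ifs
  · rw [abs_sg]
  · simp

include hc in
theorem SS_le : SS D Q d 𝒞 * ((V0s D d).card * 2 ^ Fintype.card τ) ≤
    (Fintype.piFinset 𝒞).card * ((Gd D d lg).card + η * ((V0s D d).card ^ 2 * 2 ^ Fintype.card τ)) := by
  rw [SS_eq hc.hm]
  have h1 : ∀ c ∈ V0s D d ×ˢ V0s D d ×ˢ (univ : Finset (τ → F2)),
      ∑ T ∈ Fintype.piFinset 𝒞, (if ok Q T then sg (Ph D Q d T c) else 0) ≤
      (if c ∈ Gd D d lg then ((Fintype.piFinset 𝒞).card : ℝ) else 0) +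
        η * (Fintype.piFinset 𝒞).card := by
    intro c hcm
    rw [mem_product, mem_product, mem_V0s, mem_V0s] at hcm
    have h0 : 0 ≤ η * (Fintype.piFinset 𝒞).card := mul_nonneg hc.eta0 (Nat.cast_nonneg _)
    split_ifs with h
    · have := (le_abs_self _).trans (abs_inner_le (D := D) (Q := Q) (d := d) (𝒞 := 𝒞) c)
      linarith
    · rw [zero_add]
      have h2 : ∃ j ∈ lg, Bad D c.1 c.2.1 c.2.2 j := by
        by_contra hno
        push Not at hno
        exact h (mem_filter.2 ⟨mem_univ _, hcm.1, hcm.2.1, hno⟩)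
      obtain ⟨j, hj, hb⟩ := h2
      exact (le_abs_self _).trans (outer_bound hc c hj hb)
  refine (sum_le_sum h1).trans ?_
  rw [sum_add_distrib, sum_const, nsmul_eq_mul, ← sum_filter, sum_const, nsmul_eq_mul]
  have h2 : (((V0s D d ×ˢ V0s D d ×ˢ (univ : Finset (τ → F2))).filter
      (fun c => c ∈ Gd D d lg)).card : ℝ) ≤ (Gd D d lg).card := by
    exact_mod_cast card_le_card fun c hc => (mem_filter.1 hc).2
  have h3 : ((V0s D d ×ˢ V0s D d ×ˢ (univ : Finset (τ → F2))).card : ℝ) =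
      (V0s D d).card ^ 2 * 2 ^ Fintype.card τ := by
    rw [card_product, card_product, card_univ, Fintype.card_fun, ZMod.card]
    push_cast
    ring
  rw [h3]
  have h4 := mul_le_mul_of_nonneg_right h2 (Nat.cast_nonneg (α := ℝ) (Fintype.piFinset 𝒞).card)
  nlinarith

/-- the number of tuples in the class -/
noncomputable def YY (D : Dat τ) (Q : τ → k[X]) (𝒞 : ι → Finset k[X]) : ℝ :=
  ∑ T ∈ Fintype.piFinset 𝒞, (if ok Q T ∧ cl D Q T then (1 : ℝ) else 0)

/-- the number of tuples of distinct primes -/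
noncomputable def OK (Q : τ → k[X]) (𝒞 : ι → Finset k[X]) : ℝ :=
  ∑ T ∈ Fintype.piFinset 𝒞, (if ok Q T then (1 : ℝ) else 0)

include hc in
theorem YY_ge (d : ι → F2) : OK Q 𝒞 - 2 ^ Fintype.card τ * (η * (Fintype.piFinset 𝒞).card) ≤
    YY D Q 𝒞 * 2 ^ Fintype.card τ := by
  have h1 : YY D Q 𝒞 * 2 ^ Fintype.card τ = ∑ U : τ → F2, ∑ T ∈ Fintype.piFinset 𝒞,
      (if ok Q T then sg (Ph D Q d T (0, 0, U)) else 0) := by
    rw [sum_comm, YY, sum_mul]
    refine sum_congr rfl fun T _ => ?_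
    by_cases h1 : ok Q T
    swap
    · rw [if_neg (fun h => h1 h.1)]
      simp only [if_neg h1, sum_const_zero, zero_mul]
    simp only [if_pos h1]
    have h2 := orth3 (τ := τ) (fun s => 1 + ∑ i, BT Q T i s + D.g s)
    have h3 : ∀ U : τ → F2, Ph D Q d T (0, 0, U) =
        ∑ s, U s * (1 + ∑ i, BT Q T i s + D.g s) := by
      intro U
      rw [Ph]
      simp only [FF_zero_left, zero_add]
    simp only [h3]
    rw [← h2]
    by_cases h5 : cl D Q T
    · have h6 : ∀ s, 1 + ∑ i, BT Q T i s + D.g s = 0 := h5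
      rw [if_pos ⟨h1, h5⟩, if_pos h6]; ring
    · have h6 : ¬ ∀ s, 1 + ∑ i, BT Q T i s + D.g s = 0 := h5
      rw [if_neg (fun h => h5 h.2), if_neg h6]; ring
  rw [h1]
  have h2 : ∀ U : τ → F2, (if U = 0 then OK Q 𝒞 else 0) - η * (Fintype.piFinset 𝒞).card ≤
      ∑ T ∈ Fintype.piFinset 𝒞, (if ok Q T then sg (Ph D Q d T (0, 0, U)) else 0) := by
    intro U
    have h0 : 0 ≤ η * (Fintype.piFinset 𝒞).card := mul_nonneg hc.eta0 (Nat.cast_nonneg _)
    split_ifs with h
    · have : ∑ T ∈ Fintype.piFinset 𝒞, (if ok Q T then sg (Ph D Q d T (0, 0, U)) else 0) = OK Q 𝒞 := by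
        rw [OK]
        refine sum_congr rfl fun T _ => ?_
        split_ifs
        · rw [h, Ph]
          simp only [FF_zero_left, zero_add, Pi.zero_apply, zero_mul, sum_const_zero, sg_zero]
        · rfl
      rw [this]
      linarith
    · obtain ⟨s, hs⟩ : ∃ s, U s ≠ 0 := by
        by_contra hno
        push Not at hno
        exact h (funext hno)
      obtain ⟨j, hj⟩ := hc.lgne
      have hb : Bad D (0 : V ι τ) 0 U j := by
        right
        refine ⟨s, ?_⟩
        have : ee (D.t s) ((0 : V ι τ).2 s) ((0 : V ι τ).2 s) (lab (0 : V ι τ) 0 j) = 0 := by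
          show om 0 (D.t s) * om 0 (D.t s) + 0 * om (D.t s) 0 + 0 * om 0 (D.t s) = 0
          rw [om_zero_left]
          simp
        rw [this, zero_add]
        exact hs
      have := outer_bound (d := d) hc (0, 0, U) hj hb
      have := neg_le_of_abs_le this
      linarith
  refine le_trans ?_ (sum_le_sum fun U _ => h2 U)
  rw [sum_sub_distrib, sum_const, nsmul_eq_mul, card_univ, Fintype.card_fun, ZMod.card,
    sum_ite_eq']
  simp

include hc in
theorem OK_ge (hsm : ∀ T ∈ Fintype.piFinset 𝒞, ∀ x y : ι ⊕ τ, (∀ j ∈ lg, x ≠ Sum.inl j) →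
    (∀ j ∈ lg, y ≠ Sum.inl j) → Sum.elim T Q x = Sum.elim T Q y → x = y) :
    (Fintype.piFinset 𝒞).card * (1 - lg.card * η) ≤ OK Q 𝒞 := by
  have h1 : ∀ T ∈ Fintype.piFinset 𝒞, (1 : ℝ) - ∑ j ∈ lg,
      (if ∃ x, x ≠ Sum.inl j ∧ Sum.elim T Q x = T j then (1 : ℝ) else 0) ≤
      (if ok Q T then (1 : ℝ) else 0) := by
    intro T hT
    split_ifs with h
    · have : 0 ≤ ∑ j ∈ lg, (if ∃ x, x ≠ Sum.inl j ∧ Sum.elim T Q x = T j then (1 : ℝ) else 0) :=
        sum_nonneg fun j _ => by split_ifs <;> norm_num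
      linarith
    · have h2 : ∃ j ∈ lg, ∃ x, x ≠ Sum.inl j ∧ Sum.elim T Q x = T j := by
        by_contra hno
        push Not at hno
        apply h
        intro x y hxy
        by_cases hx : ∃ j ∈ lg, x = Sum.inl j
        · obtain ⟨j, hj, rfl⟩ := hx
          by_contra hne
          exact hno j hj y (Ne.symm hne) hxy.symm
        · by_cases hy : ∃ j ∈ lg, y = Sum.inl j
          · obtain ⟨j, hj, rfl⟩ := hy
            by_contra hne
            exact hno j hj x hne hxy
          · push Not at hx hy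
            exact hsm T hT x y hx hy hxy
      obtain ⟨j, hj, hx⟩ := h2
      have h3 : (1 : ℝ) ≤ ∑ j ∈ lg,
          (if ∃ x, x ≠ Sum.inl j ∧ Sum.elim T Q x = T j then (1 : ℝ) else 0) := by
        refine le_trans (le_of_eq (if_pos hx).symm) (single_le_sum (f := fun j =>
          if ∃ x, x ≠ Sum.inl j ∧ Sum.elim T Q x = T j then (1 : ℝ) else 0) ?_ hj)
        intro i _
        show 0 ≤ (if _ then (1 : ℝ) else 0)
        split_ifs <;> norm_num
      linarith
  have h2 : ∀ j ∈ lg, ∑ T ∈ Fintype.piFinset 𝒞,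
      (if ∃ x, x ≠ Sum.inl j ∧ Sum.elim T Q x = T j then (1 : ℝ) else 0) ≤
      η * (Fintype.piFinset 𝒞).card := by
    intro j hj
    rcases (𝒞 j).eq_empty_or_nonempty with he | hne
    · have : Fintype.piFinset 𝒞 = ∅ := by
        rw [Fintype.piFinset_eq_empty]
        exact ⟨j, he⟩
      rw [this]
      simp
    · have hpos : (0 : ℝ) < (𝒞 j).card := by exact_mod_cast card_pos.2 hne
      have h3 := sum_update 𝒞 j (fun T =>
        if ∃ x, x ≠ Sum.inl j ∧ Sum.elim T Q x = T j then (1 : ℝ) else 0)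
      have h4 : ∀ T ∈ Fintype.piFinset 𝒞, ∑ p ∈ 𝒞 j,
          (if ∃ x, x ≠ Sum.inl j ∧ Sum.elim (Function.update T j p) Q x =
            Function.update T j p j then (1 : ℝ) else 0) ≤ η * (𝒞 j).card := by
        intro T hT
        refine le_trans ?_ (hc.eta' j hj)
        rw [← sum_filter, sum_const, nsmul_one]
        have h5 : ((𝒞 j).filter fun p => ∃ x, x ≠ Sum.inl j ∧
            Sum.elim (Function.update T j p) Q x = Function.update T j p j) ⊆
            (univ : Finset (ι ⊕ τ)).image (Sum.elim T Q) := by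
          intro p hp
          obtain ⟨x, hx, hxp⟩ := (mem_filter.1 hp).2
          rw [Function.update_self] at hxp
          rw [mem_image]
          refine ⟨x, mem_univ _, ?_⟩
          rw [← hxp]
          rcases x with i | s
          · have : i ≠ j := fun h => hx (by rw [h])
            show T i = Function.update T j p i
            exact (Function.update_of_ne this _ _).symm
          · rfl
        have h6 := (card_le_card h5).trans card_image_le
        rw [card_univ, Fintype.card_sum] at h6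
        exact_mod_cast h6
      have h5 : ((𝒞 j).card : ℝ) * ∑ T ∈ Fintype.piFinset 𝒞,
          (if ∃ x, x ≠ Sum.inl j ∧ Sum.elim T Q x = T j then (1 : ℝ) else 0) ≤
          (𝒞 j).card * (η * (Fintype.piFinset 𝒞).card) := by
        rw [h3]
        refine (sum_le_sum h4).trans (le_of_eq ?_)
        rw [sum_const, nsmul_eq_mul]
        ring
      exact le_of_mul_le_mul_left h5 hpos
  have h3 := sum_le_sum h1
  rw [sum_sub_distrib, sum_comm] at h3
  have h4 := sum_le_sum h2
  rw [sum_const, nsmul_eq_mul] at h4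
  rw [sum_const, nsmul_one] at h3
  show _ ≤ ∑ T ∈ Fintype.piFinset 𝒞, (if ok Q T then (1 : ℝ) else 0)
  linarith

/-- the number of tuples in the class with trivial kernel -/
noncomputable def XX (D : Dat τ) (Q : τ → k[X]) (d : ι → F2) (𝒞 : ι → Finset k[X]) : ℝ :=
  ∑ T ∈ Fintype.piFinset 𝒞,
    (if (ok Q T ∧ cl D Q T) ∧ Triv D (AT T) (BT Q T) d then (1 : ℝ) else 0)

theorem XX_ge (hm : IsSquare (-1 : k)) (hN : ∑ i, d i + D.N = 1) :
    4 * YY D Q 𝒞 - 3 * XX D Q d 𝒞 ≤ SS D Q d 𝒞 := by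
  rw [YY, XX, SS, mul_sum, mul_sum, ← sum_sub_distrib]
  apply sum_le_sum
  intro T _
  by_cases h1 : ok Q T ∧ cl D Q T
  · rw [if_pos h1, if_pos h1]
    rcases kc_even D (BT Q T) d (AT_comm hm T) hN with h2 | h2
    · rw [if_pos ⟨h1, triv_of_kc D (BT Q T) d h2⟩, h2]
      norm_num
    · have h3 : (4 : ℝ) ≤ kc D (AT T) (BT Q T) d := by exact_mod_cast h2
      split_ifs <;> linarith
  · rw [if_neg h1, if_neg h1, if_neg (fun h => h1 h.1)]
    norm_num

end Pool.Agent.Y164.PS
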