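import Pool.Agent.Y164.PS.Cls

/-!
The number of good configurations.
-/

set_option autoImplicit false
set_option linter.all false

namespace Pool.Agent.Y164.PS

open Finset
open scoped Classical

variable {ι τ : Type} [Fintype ι] [Fintype τ]
variable (D : Dat τ) (d : ι → F2)

/-- the space `V₀` as a finite set -/
noncomputable def V0s : Finset (V ι τ) := univ.filter (IsV0 D d)

theorem mem_V0s {w : V ι τ} : w ∈ V0s D d ↔ IsV0 D d w := by
  rw [V0s, mem_filter]
  exact ⟨fun h => h.2, fun h => ⟨mem_univ _, h⟩⟩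

/-- the configuration is not orthogonal at `j` -/
def Bad (w w' : V ι τ) (U : τ → F2) (j : ι) : Prop :=
  (∃ i, i ≠ j ∧ Oq (lab w w' i + lab w w' j) ≠ 0) ∨
    ∃ s, ee (D.t s) (w.2 s) (w'.2 s) (lab w w' j) + U s ≠ 0

/-- the good configurations -/
noncomputable def Gd (lg : Finset ι) : Finset (V ι τ × V ι τ × (τ → F2)) :=
  univ.filter fun c => IsV0 D d c.1 ∧ IsV0 D d c.2.1 ∧ ∀ j ∈ lg, ¬ Bad D c.1 c.2.1 c.2.2 j

theorem card_few (lg : Finset ι) (a b c : W × W) :
    ((univ : Finset (V ι τ × V ι τ × (τ → F2))).filter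
      fun x => ∀ j ∈ lg, lab x.1 x.2.1 j = a ∨ lab x.1 x.2.1 j = b ∨ lab x.1 x.2.1 j = c).card ≤
    8 ^ Fintype.card τ * (3 ^ lg.card * 16 ^ (Fintype.card ι - lg.card)) := by
  let S : Finset (ι → W × W) := Fintype.piFinset fun i => if i ∈ lg then {a, b, c} else univ
  have hS : S.card ≤ 3 ^ lg.card * 16 ^ (Fintype.card ι - lg.card) := by
    rw [Fintype.card_piFinset]
    have h1 : ∏ i, (if i ∈ lg then ({a, b, c} : Finset (W × W)) else univ).card ≤
        ∏ i : ι, (if i ∈ lg then 3 else 16) := by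
      apply prod_le_prod'
      intro i _
      split_ifs
      · exact card_le_three
      · rw [card_univ]
        simp
    refine h1.trans (le_of_eq ?_)
    rw [prod_ite, prod_const, prod_const]
    have h2 : (univ.filter fun i => i ∈ lg) = lg := by
      ext i; simp
    have h3 : (univ.filter fun i => ¬ i ∈ lg).card = Fintype.card ι - lg.card := by
      have h4 : (univ.filter fun i => ¬ i ∈ lg) = lgᶜ := by ext i; simp
      rw [h4, card_compl]
    rw [h2, h3]
  have h1 : ((univ : Finset (V ι τ × V ι τ × (τ → F2))).filter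
      fun x => ∀ j ∈ lg, lab x.1 x.2.1 j = a ∨ lab x.1 x.2.1 j = b ∨ lab x.1 x.2.1 j = c).card ≤
      (S ×ˢ (univ : Finset ((τ → F2) × (τ → F2) × (τ → F2)))).card := by
    apply card_le_card_of_injOn (fun x => (fun i => lab x.1 x.2.1 i, (x.1.2, x.2.1.2, x.2.2)))
    · intro x hx
      have hx' := (mem_filter.1 (mem_coe.1 hx)).2
      refine mem_coe.2 (mem_product.2 ⟨?_, mem_univ _⟩)
      show (fun i => lab x.1 x.2.1 i) ∈ S
      rw [Fintype.mem_piFinset]
      intro i
      split_ifs with h
      · have := hx' i h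
        simp only [mem_insert, mem_singleton]
        exact this
      · exact mem_univ _
    · rintro ⟨⟨x, z⟩, ⟨x', z'⟩, U⟩ _ ⟨⟨y, u⟩, ⟨y', u'⟩, U'⟩ _ h
      simp only [Prod.mk.injEq] at h
      obtain ⟨h1, h2, h3, h4⟩ := h
      have h5 : x = y := by
        funext i
        exact congrArg Prod.fst (congrFun h1 i)
      have h6 : x' = y' := by
        funext i
        exact congrArg Prod.snd (congrFun h1 i)
      rw [h2, h3, h4, h5, h6]
  refine h1.trans ?_
  rw [card_product, mul_comm]
  apply Nat.mul_le_mul _ hS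
  rw [card_univ, Fintype.card_prod, Fintype.card_prod, Fintype.card_fun, ZMod.card]
  rw [← mul_pow, ← mul_pow]
  norm_num

theorem card_Gd (lg : Finset ι) (hN : ∑ i, d i + D.N = 1)
    (hG : ∀ u : W, u ≠ 0 → ∃ s, om u (D.t s) ≠ 0) :
    (Gd D d lg).card ≤ 3 * (V0s D d).card +
      4096 * (8 ^ Fintype.card τ * (3 ^ lg.card * 16 ^ (Fintype.card ι - lg.card))) := by
  let few : (W × W) × (W × W) × (W × W) → Finset (V ι τ × V ι τ × (τ → F2)) := fun p =>
    univ.filter fun x => ∀ j ∈ lg, lab x.1 x.2.1 j = p.1 ∨ lab x.1 x.2.1 j = p.2.1 ∨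
      lab x.1 x.2.1 j = p.2.2
  have hsub : Gd D d lg ⊆ ((V0s D d).image (fun w => ((0 : V ι τ), w, (0 : τ → F2))) ∪
      (V0s D d).image (fun w => (w, (0 : V ι τ), (0 : τ → F2))) ∪
      (V0s D d).image (fun w => (w, w + wo D, (0 : τ → F2)))) ∪ (univ.biUnion few) := by
    rintro ⟨w, w', U⟩ hc
    obtain ⟨hw, hw', hgood⟩ := (mem_filter.1 hc).2
    simp only at hw hw' hgood
    rw [mem_union]
    by_cases hf : ∃ a b c, ∀ j ∈ lg, lab w w' j = a ∨ lab w w' j = b ∨ lab w w' j = c
    · right
      obtain ⟨a, b, c, h⟩ := hf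
      rw [mem_biUnion]
      exact ⟨(a, b, c), mem_univ _, mem_filter.2 ⟨mem_univ _, h⟩⟩
    · left
      push Not at hf
      obtain ⟨j0, hj0, -⟩ := hf 0 0 0
      obtain ⟨j1, hj1, h1, -⟩ := hf (lab w w' j0) (lab w w' j0) (lab w w' j0)
      obtain ⟨j2, hj2, h2, h2', -⟩ := hf (lab w w' j0) (lab w w' j1) (lab w w' j1)
      obtain ⟨j3, hj3, h3, h3', h3''⟩ := hf (lab w w' j0) (lab w w' j1) (lab w w' j2)
      have key := main_cfg D d hN hG w w' U hw hw' ![j0, j1, j2, j3] (by
        intro a b hab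
        fin_cases a <;> fin_cases b <;> simp_all) (by
        intro a i
        have hja : (![j0, j1, j2, j3] : Fin 4 → ι) a ∈ lg := by
          fin_cases a <;> assumption
        by_contra hne
        apply hgood _ hja
        left
        refine ⟨i, ?_, hne⟩
        rintro rfl
        apply hne
        rw [W2_add_self]
        rfl) (by
        intro a s
        have hja : (![j0, j1, j2, j3] : Fin 4 → ι) a ∈ lg := by
          fin_cases a <;> assumption
        by_contra hne
        exact hgood _ hja (Or.inr ⟨s, hne⟩))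
      obtain ⟨h4, rfl⟩ := key
      rw [mem_union, mem_union]
      rcases h4 with rfl | rfl | rfl
      · exact Or.inl (Or.inl (mem_image.2 ⟨w', (mem_V0s D d).2 hw', rfl⟩))
      · exact Or.inl (Or.inr (mem_image.2 ⟨w, (mem_V0s D d).2 hw, rfl⟩))
      · exact Or.inr (mem_image.2 ⟨w, (mem_V0s D d).2 hw, rfl⟩)
  refine (card_le_card hsub).trans ((card_union_le _ _).trans ?_)
  apply Nat.add_le_add
  · refine (card_union_le _ _).trans ?_
    have h1 := card_union_le ((V0s D d).image (fun w => ((0 : V ι τ), w, (0 : τ → F2))))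
      ((V0s D d).image (fun w => (w, (0 : V ι τ), (0 : τ → F2))))
    have h2 := card_image_le (s := V0s D d) (f := fun w => ((0 : V ι τ), w, (0 : τ → F2)))
    have h3 := card_image_le (s := V0s D d) (f := fun w => (w, (0 : V ι τ), (0 : τ → F2)))
    have h4 := card_image_le (s := V0s D d) (f := fun w => (w, w + wo D, (0 : τ → F2)))
    omega
  · refine card_biUnion_le.trans ?_
    refine (sum_le_sum fun p _ => card_few lg p.1 p.2.1 p.2.2).trans ?_
    rw [sum_const, card_univ, smul_eq_mul]
    apply Nat.mul_le_mul_right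
    simp

theorem card_V0s_le : (V0s D d).card ≤ 4 ^ Fintype.card ι * 2 ^ Fintype.card τ := by
  refine (card_le_univ _).trans (le_of_eq ?_)
  rw [Fintype.card_prod, Fintype.card_fun, Fintype.card_fun,
      Fintype.card_prod, ZMod.card]

theorem le_card_V0s : 4 ^ Fintype.card ι ≤ 4 * (V0s D d).card := by
  let φ : (ι → W) →+ W := ⟨⟨fun x => ∑ i, d i • x i, by simp⟩, fun x y => by
    simp [smul_add, sum_add_distrib]⟩
  have hc : Nat.card (ι → W) = Nat.card φ.range * Nat.card φ.ker := by
    rw [AddSubgroup.card_eq_card_quotient_mul_card_addSubgroup φ.ker,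
      Nat.card_congr (QuotientAddGroup.quotientKerEquivRange φ).toEquiv]
  have hcV : Nat.card (ι → W) = 4 ^ Fintype.card ι := by
    rw [Nat.card_eq_fintype_card, Fintype.card_fun, Fintype.card_prod, ZMod.card]
  have hr : Nat.card φ.range ≤ 4 := by
    have h1 : Nat.card φ.range ≤ Nat.card W := Nat.card_le_card_of_injective _ Subtype.val_injective
    refine h1.trans (le_of_eq ?_)
    rw [Nat.card_eq_fintype_card]
    simp
  have hk : Nat.card φ.ker ≤ (V0s D d).card := by
    rw [Nat.card_eq_fintype_card, ← card_univ]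
    apply card_le_card_of_injOn (fun x => ((x.1, 0) : V ι τ))
    · intro x _
      refine mem_coe.2 ((mem_V0s D d).2 ⟨?_, fun s _ => rfl⟩)
      have h1 : ∑ i, d i • x.1 i = 0 := x.2
      simp only [dg, h1, Pi.zero_apply, mul_zero, zero_smul, sum_const_zero, add_zero]
    · intro x _ y _ h
      exact Subtype.ext (congrArg Prod.fst h)
  rw [← hcV, hc]
  exact Nat.mul_le_mul hr hk

end Pool.Agent.Y164.PS
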