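import Pool.Agent.Y164.PS.Even

/-!
The configurations which give the main term.
-/

set_option autoImplicit false
set_option linter.all false

namespace Pool.Agent.Y164.PS

open Finset

/-- the quadratic form on labels -/
def Oq (X : W × W) : F2 := om X.1 X.2

instance (X : W × W) (c : F2) : Decidable (Oq X = c) := inferInstanceAs (Decidable (om X.1 X.2 = c))

def Sh (X Y Z : W × W) : Prop :=
  (X.2 = 0 ∧ Y.2 = 0 ∧ Z.2 = 0) ∨ (X.1 = 0 ∧ Y.1 = 0 ∧ Z.1 = 0) ∨
  (X.1 = X.2 ∧ Y.1 = Y.2 ∧ Z.1 = Z.2) ∨
  (∃ u : W, u ≠ 0 ∧ (X.1 = 0 ∨ X.1 = u) ∧ (X.2 = 0 ∨ X.2 = u) ∧ (Y.1 = 0 ∨ Y.1 = u) ∧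
    (Y.2 = 0 ∨ Y.2 = u) ∧ (Z.1 = 0 ∨ Z.1 = u) ∧ (Z.2 = 0 ∨ Z.2 = u))

instance (X Y Z : W × W) : Decidable (Sh X Y Z) := by
  unfold Sh; infer_instance

def Pz (X Y Z : W × W) : Prop := Oq Z = 0 → Z ≠ 0 → Z ≠ X → Z ≠ Y → Oq (X + Z) = 0 →
    Oq (Y + Z) = 0 → Sh X Y Z

instance (X Y Z : W × W) : Decidable (Pz X Y Z) := by
  unfold Pz; infer_instance

def Py (X Y : W × W) : Prop := Oq Y = 0 → Y ≠ 0 → Y ≠ X →
    Oq (X + Y) = 0 → ∀ Z, Pz X Y Z

instance (X Y : W × W) : Decidable (Py X Y) := by
  unfold Py; infer_instance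

def Px (X : W × W) : Prop := Oq X = 0 → X ≠ 0 → ∀ Y, Py X Y

instance (X : W × W) : Decidable (Px X) := by
  unfold Px; infer_instance

set_option maxRecDepth 100000 in
theorem cls4 : ∀ X : W × W, Px X := by
  decide

/-- the coefficient of the symbol at a bad prime -/
def ee (t : W) (z z' : F2) (X : W × W) : F2 := om X.1 t * om X.2 t + z * om t X.2 + z' * om X.1 t

theorem all_W : ∀ x y z : W, x ≠ 0 → y ≠ 0 → z ≠ 0 → x ≠ y → x ≠ z → y ≠ z →
    ∀ v : W, v = 0 ∨ v = x ∨ v = y ∨ v = z := by decide

theorem om_all : ∀ a b : W, (∀ x : W, om (a + x) b = 0) → b = 0 := by decide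

set_option maxRecDepth 10000 in
theorem l1 : ∀ (t c : W) (z z' U : F2), (∀ x : W, ee t z z' (x, c) + U = 0) →
    (t ≠ 0 → z' = om c t) ∧ U = z * om t c := by decide

set_option maxRecDepth 10000 in
theorem l2 : ∀ (t c : W) (z z' U : F2), (∀ x : W, ee t z z' (c, x) + U = 0) →
    (t ≠ 0 → z = om c t) ∧ U = z' * om t c := by decide

set_option maxRecDepth 10000 in
theorem l3 : ∀ (t c : W) (z z' U : F2), (∀ x : W, ee t z z' (x, x + c) + U = 0) →
    (t ≠ 0 → z' = z + om c t + 1) ∧ U = z * om t c := by decide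

set_option maxRecDepth 10000 in
theorem l4 : ∀ (t u : W) (z z' : F2) (A : W × W), ee t z z' (A + (u, 0)) = ee t z z' A →
    ee t z z' (A + (0, u)) = ee t z z' A → ee t z z' (A + (u, u)) = ee t z z' A → om u t = 0 := by
  decide

theorem W2_add_self (x : W × W) : x + x = 0 := Prod.ext (W_add_self _) (W_add_self _)

theorem add_add_cancel2 (a b c : W × W) : (a + c) + (b + c) = a + b := by
  have h := W2_add_self c
  calc (a + c) + (b + c) = a + b + (c + c) := by abel
    _ = a + b := by rw [h, add_zero]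

theorem add_eq_of (a b c : W × W) (h : a + c = b) : a = b + c := by
  rw [← h, add_assoc, W2_add_self, add_zero]

variable {ι τ : Type} [Fintype ι] [Fintype τ]
variable (D : Dat τ) (d : ι → F2)

/-- the label of `i` -/
def lab (w w' : V ι τ) (i : ι) : W × W := (w.1 i, w'.1 i)

/-- the vector `(0, o)` where `o` is the indicator of the primes of odd multiplicity -/
def wo (D : Dat τ) : V ι τ := (0, fun s => if D.t s = 0 then 0 else 1)

/-- the main configurations -/
theorem main_cfg (hN : ∑ i, d i + D.N = 1) (hG : ∀ u : W, u ≠ 0 → ∃ s, om u (D.t s) ≠ 0)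
    (w w' : V ι τ) (U : τ → F2) (hw : IsV0 D d w) (hw' : IsV0 D d w')
    (j : Fin 4 → ι) (hj : Function.Injective fun a => lab w w' (j a))
    (h1 : ∀ a i, Oq (lab w w' i + lab w w' (j a)) = 0)
    (h2 : ∀ a s, ee (D.t s) (w.2 s) (w'.2 s) (lab w w' (j a)) + U s = 0) :
    (w = 0 ∨ w' = 0 ∨ w' = w + wo D) ∧ U = 0 := by
  classical
  set A0 := lab w w' (j 0) with hA0
  set X := lab w w' (j 1) + A0 with hX
  set Y := lab w w' (j 2) + A0 with hY
  set Z := lab w w' (j 3) + A0 with hZ
  have hdT : ∀ y : W, dg D d (TT D y) = y := fun y => by rw [dg_TT, hN, one_smul]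
  have ne : ∀ a b : Fin 4, a ≠ b → lab w w' (j a) ≠ lab w w' (j b) := fun a b hab h => hab (hj h)
  have nz : ∀ a : Fin 4, a ≠ 0 → lab w w' (j a) + A0 ≠ 0 := by
    intro a ha h
    apply ne a 0 ha
    have := add_eq_of _ _ _ h
    rw [this, zero_add]
  have ne' : ∀ a b : Fin 4, a ≠ b → lab w w' (j a) + A0 ≠ lab w w' (j b) + A0 := fun a b hab h =>
    ne a b hab (add_right_cancel h)
  have lX : lab w w' (j 1) = X + A0 := add_eq_of _ _ _ rfl
  have lY : lab w w' (j 2) = Y + A0 := add_eq_of _ _ _ rfl
  have lZ : lab w w' (j 3) = Z + A0 := add_eq_of _ _ _ rfl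
  have hsh := cls4 X (by rw [hX, hA0]; exact h1 0 _) (nz 1 (by decide)) Y
    (by rw [hY, hA0]; exact h1 0 _) (nz 2 (by decide)) (ne' 2 1 (by decide))
    (by rw [hX, hY, add_add_cancel2]; exact h1 2 _) Z (by rw [hZ, hA0]; exact h1 0 _)
    (nz 3 (by decide)) (ne' 3 1 (by decide)) (ne' 3 2 (by decide))
    (by rw [hX, hZ, add_add_cancel2]; exact h1 3 _) (by rw [hY, hZ, add_add_cancel2]; exact h1 3 _)
  have Xne := nz 1 (by decide)
  have Yne := nz 2 (by decide)
  have Zne := nz 3 (by decide)
  have YX := ne' 2 1 (by decide)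
  have ZX := ne' 3 1 (by decide)
  have ZY := ne' 3 2 (by decide)
  rw [← hX] at Xne YX ZX
  rw [← hY] at Yne YX ZY
  rw [← hZ] at Zne ZX ZY
  rcases hsh with ⟨a1, a2, a3⟩ | ⟨a1, a2, a3⟩ | ⟨a1, a2, a3⟩ | ⟨u, hu, a1, b1, a2, b2, a3, b3⟩
  · -- the second coordinate is constant
    have hall : ∀ x : W, ∃ a, lab w w' (j a) = (x, A0.2) := by
      intro x
      rcases all_W X.1 Y.1 Z.1 (fun h => Xne (Prod.ext h a1)) (fun h => Yne (Prod.ext h a2))
        (fun h => Zne (Prod.ext h a3)) (fun h => YX (Prod.ext h.symm (a2.trans a1.symm)))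
        (fun h => ZX (Prod.ext h.symm (a3.trans a1.symm)))
        (fun h => ZY (Prod.ext h.symm (a3.trans a2.symm))) (x + A0.1) with h | h | h | h
      · refine ⟨0, Prod.ext ?_ rfl⟩
        show A0.1 = x
        rw [← add_zero x, ← W_add_self A0.1, ← add_assoc, h, zero_add]
      · refine ⟨1, ?_⟩
        rw [lX]
        refine Prod.ext ?_ ?_
        · show X.1 + A0.1 = x
          rw [← h, add_assoc, W_add_self, add_zero]
        · show X.2 + A0.2 = A0.2
          rw [a1, zero_add]
      · refine ⟨2, ?_⟩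
        rw [lY]
        refine Prod.ext ?_ ?_
        · show Y.1 + A0.1 = x
          rw [← h, add_assoc, W_add_self, add_zero]
        · show Y.2 + A0.2 = A0.2
          rw [a2, zero_add]
      · refine ⟨3, ?_⟩
        rw [lZ]
        refine Prod.ext ?_ ?_
        · show Z.1 + A0.1 = x
          rw [← h, add_assoc, W_add_self, add_zero]
        · show Z.2 + A0.2 = A0.2
          rw [a3, zero_add]
    have hc : ∀ i, w'.1 i = A0.2 := by
      intro i
      have h3 : w'.1 i + A0.2 = 0 := by
        apply om_all (w.1 i)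
        intro x
        obtain ⟨a, ha⟩ := hall x
        have := h1 a i
        rw [ha] at this
        exact this
      rw [← add_zero (w'.1 i), ← W_add_self A0.2, ← add_assoc, h3, zero_add]
    have hs : ∀ s, (D.t s ≠ 0 → w'.2 s = om A0.2 (D.t s)) ∧ U s = w.2 s * om (D.t s) A0.2 := by
      intro s
      apply l1
      intro x
      obtain ⟨a, ha⟩ := hall x
      have := h2 a s
      rw [ha] at this
      exact this
    have hwT : w' = TT D A0.2 := by
      refine Prod.ext (funext hc) (funext fun s => ?_)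
      by_cases h0 : D.t s = 0
      · rw [hw'.2 s h0]
        show 0 = om A0.2 (D.t s)
        rw [h0, om_zero_right]
      · exact (hs s).1 h0
    have hA : A0.2 = 0 := by
      rw [← hdT A0.2, ← hwT]
      exact hw'.1
    refine ⟨Or.inr (Or.inl ?_), ?_⟩
    · rw [hwT, hA]
      refine Prod.ext rfl (funext fun s => ?_)
      exact om_zero_left _
    · funext s
      rw [(hs s).2, hA, om_zero_right, mul_zero]
      rfl
  · -- the first coordinate is constant
    have hall : ∀ x : W, ∃ a, lab w w' (j a) = (A0.1, x) := by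
      intro x
      rcases all_W X.2 Y.2 Z.2 (fun h => Xne (Prod.ext a1 h)) (fun h => Yne (Prod.ext a2 h))
        (fun h => Zne (Prod.ext a3 h)) (fun h => YX (Prod.ext (a2.trans a1.symm) h.symm))
        (fun h => ZX (Prod.ext (a3.trans a1.symm) h.symm))
        (fun h => ZY (Prod.ext (a3.trans a2.symm) h.symm)) (x + A0.2) with h | h | h | h
      · refine ⟨0, Prod.ext rfl ?_⟩
        show A0.2 = x
        rw [← add_zero x, ← W_add_self A0.2, ← add_assoc, h, zero_add]
      · refine ⟨1, ?_⟩
        rw [lX]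
        refine Prod.ext ?_ ?_
        · show X.1 + A0.1 = A0.1
          rw [a1, zero_add]
        · show X.2 + A0.2 = x
          rw [← h, add_assoc, W_add_self, add_zero]
      · refine ⟨2, ?_⟩
        rw [lY]
        refine Prod.ext ?_ ?_
        · show Y.1 + A0.1 = A0.1
          rw [a2, zero_add]
        · show Y.2 + A0.2 = x
          rw [← h, add_assoc, W_add_self, add_zero]
      · refine ⟨3, ?_⟩
        rw [lZ]
        refine Prod.ext ?_ ?_
        · show Z.1 + A0.1 = A0.1
          rw [a3, zero_add]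
        · show Z.2 + A0.2 = x
          rw [← h, add_assoc, W_add_self, add_zero]
    have hc : ∀ i, w.1 i = A0.1 := by
      intro i
      have h3 : w.1 i + A0.1 = 0 := by
        apply om_all (w'.1 i)
        intro x
        obtain ⟨a, ha⟩ := hall x
        have := h1 a i
        rw [ha] at this
        rw [om_comm]
        exact this
      rw [← add_zero (w.1 i), ← W_add_self A0.1, ← add_assoc, h3, zero_add]
    have hs : ∀ s, (D.t s ≠ 0 → w.2 s = om A0.1 (D.t s)) ∧ U s = w'.2 s * om (D.t s) A0.1 := by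
      intro s
      apply l2
      intro x
      obtain ⟨a, ha⟩ := hall x
      have := h2 a s
      rw [ha] at this
      exact this
    have hwT : w = TT D A0.1 := by
      refine Prod.ext (funext hc) (funext fun s => ?_)
      by_cases h0 : D.t s = 0
      · rw [hw.2 s h0]
        show 0 = om A0.1 (D.t s)
        rw [h0, om_zero_right]
      · exact (hs s).1 h0
    have hA : A0.1 = 0 := by
      rw [← hdT A0.1, ← hwT]
      exact hw.1
    refine ⟨Or.inl ?_, ?_⟩
    · rw [hwT, hA]
      refine Prod.ext rfl (funext fun s => ?_)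
      exact om_zero_left _
    · funext s
      rw [(hs s).2, hA, om_zero_right, mul_zero]
      rfl
  · -- the sum of the coordinates is constant
    set c := A0.1 + A0.2 with hcdef
    have hA02 : A0.2 = A0.1 + c := by
      rw [hcdef, ← add_assoc, W_add_self, zero_add]
    have hall : ∀ x : W, ∃ a, lab w w' (j a) = (x, x + c) := by
      intro x
      rcases all_W X.1 Y.1 Z.1 (fun h => Xne (Prod.ext h (a1 ▸ h)))
        (fun h => Yne (Prod.ext h (a2 ▸ h)))
        (fun h => Zne (Prod.ext h (a3 ▸ h)))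
        (fun h => YX (Prod.ext h.symm (by rw [← a2, ← a1, h])))
        (fun h => ZX (Prod.ext h.symm (by rw [← a3, ← a1, h])))
        (fun h => ZY (Prod.ext h.symm (by rw [← a3, ← a2, h]))) (x + A0.1) with h | h | h | h
      · have hx : A0.1 = x := by
          rw [← add_zero x, ← W_add_self A0.1, ← add_assoc, h, zero_add]
        refine ⟨0, Prod.ext hx ?_⟩
        show A0.2 = x + c
        rw [hA02, hx]
      · refine ⟨1, ?_⟩
        rw [lX]
        have hx : X.1 + A0.1 = x := by
          rw [← h, add_assoc, W_add_self, add_zero]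
        refine Prod.ext hx ?_
        show X.2 + A0.2 = x + c
        rw [hA02, ← a1, ← hx, add_assoc]
      · refine ⟨2, ?_⟩
        rw [lY]
        have hx : Y.1 + A0.1 = x := by
          rw [← h, add_assoc, W_add_self, add_zero]
        refine Prod.ext hx ?_
        show Y.2 + A0.2 = x + c
        rw [hA02, ← a2, ← hx, add_assoc]
      · refine ⟨3, ?_⟩
        rw [lZ]
        have hx : Z.1 + A0.1 = x := by
          rw [← h, add_assoc, W_add_self, add_zero]
        refine Prod.ext hx ?_
        show Z.2 + A0.2 = x + c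
        rw [hA02, ← a3, ← hx, add_assoc]
    have hc : ∀ i, w'.1 i = w.1 i + c := by
      intro i
      have h3 : w.1 i + (w'.1 i + c) = 0 := by
        apply om_all (w.1 i)
        intro x
        obtain ⟨a, ha⟩ := hall x
        have h4 : om (w.1 i + x) (w'.1 i + (x + c)) = 0 := by
          have := h1 a i
          rw [ha] at this
          exact this
        have h5 : om (w.1 i + x) (w.1 i + (w'.1 i + c)) =
            om (w.1 i + x) (w.1 i + x) + om (w.1 i + x) (w'.1 i + (x + c)) := by
          rw [← om_add_right]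
          congr 1
          have := W_add_self x
          calc w.1 i + (w'.1 i + c) = w.1 i + (w'.1 i + c) + (x + x) := by rw [this, add_zero]
            _ = _ := by abel
        rw [h5, h4, om_self, add_zero]
      have h6 := W_add_self (w.1 i + c)
      calc w'.1 i = w'.1 i + ((w.1 i + c) + (w.1 i + c)) := by rw [h6, add_zero]
        _ = (w.1 i + (w'.1 i + c)) + (w.1 i + c) := by abel
        _ = _ := by rw [h3, zero_add]
    have hs : ∀ s, (D.t s ≠ 0 → w'.2 s = w.2 s + om c (D.t s) + 1) ∧ U s = w.2 s * om (D.t s) c := by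
      intro s
      apply l3
      intro x
      obtain ⟨a, ha⟩ := hall x
      have := h2 a s
      rw [ha] at this
      exact this
    have hwT : w' = w + TT D c + wo D := by
      refine Prod.ext (funext fun i => ?_) (funext fun s => ?_)
      · rw [hc]
        show w.1 i + c = w.1 i + c + 0
        rw [add_zero]
      · show w'.2 s = w.2 s + om c (D.t s) + (if D.t s = 0 then 0 else 1)
        by_cases h0 : D.t s = 0
        · rw [hw'.2 s h0, hw.2 s h0, if_pos h0, h0, om_zero_right]
          simp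
        · rw [if_neg h0]
          exact (hs s).1 h0
    have hdwo : dg D d (wo D : V ι τ) = 0 := by
      have h3 := D.h3
      simp only [dg, wo, Pi.zero_apply, smul_zero, sum_const_zero, zero_add]
      refine (sum_congr rfl fun s _ => ?_).trans h3
      by_cases h0 : D.t s = 0
      · rw [h0, smul_zero, smul_zero]
      · rw [if_neg h0, mul_one]
    have hA : c = 0 := by
      have h5 := hw'.1
      rw [hwT, dg_add, dg_add, hw.1, hdT, hdwo, zero_add, add_zero] at h5
      exact h5
    refine ⟨Or.inr (Or.inr ?_), ?_⟩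
    · rw [hwT, hA]
      have : (TT D 0 : V ι τ) = 0 := Prod.ext rfl (funext fun s => om_zero_left _)
      rw [this, add_zero]
    · funext s
      rw [(hs s).2, hA, om_zero_right, mul_zero]
      rfl
  · -- excluded
    exfalso
    obtain ⟨s, hs⟩ := hG u hu
    apply hs
    have h2' : ∀ a, ee (D.t s) (w.2 s) (w'.2 s) (lab w w' (j a)) = U s := by
      intro a
      have := h2 a s
      rw [← add_zero (ee _ _ _ _), ← F2_add_self (U s), ← add_assoc, this, zero_add]
    have key : ∀ v : W × W, (v = (u, 0) ∨ v = (0, u) ∨ v = (u, u)) → v = X ∨ v = Y ∨ v = Z := by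
      have hh : ∀ x : W × W, x ≠ 0 → (x.1 = 0 ∨ x.1 = u) → (x.2 = 0 ∨ x.2 = u) →
          x = (u, 0) ∨ x = (0, u) ∨ x = (u, u) := by
        rintro ⟨x1, x2⟩ hne h h'
        simp only at h h'
        rcases h with rfl | rfl <;> rcases h' with rfl | rfl
        · exact absurd rfl hne
        · exact Or.inr (Or.inl rfl)
        · exact Or.inl rfl
        · exact Or.inr (Or.inr rfl)
      have d1 : ((u, 0) : W × W) ≠ (0, u) := fun h => hu (congrArg Prod.fst h)
      have d2 : ((u, 0) : W × W) ≠ (u, u) := fun h => hu (congrArg Prod.snd h).symm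
      have d3 : ((0, u) : W × W) ≠ (u, u) := fun h => hu (congrArg Prod.fst h).symm
      intro v hv
      rcases hh X Xne a1 b1 with e1 | e1 | e1 <;> rcases hh Y Yne a2 b2 with e2 | e2 | e2 <;>
        rcases hh Z Zne a3 b3 with e3 | e3 | e3 <;>
        first
        | exact absurd (e2.trans e1.symm) YX
        | exact absurd (e3.trans e1.symm) ZX
        | exact absurd (e3.trans e2.symm) ZY
        | (rw [e1, e2, e3]; rcases hv with h | h | h <;> simp [h])
    have val : ∀ v : W × W, (v = (u, 0) ∨ v = (0, u) ∨ v = (u, u)) →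
        ee (D.t s) (w.2 s) (w'.2 s) (A0 + v) = ee (D.t s) (w.2 s) (w'.2 s) A0 := by
      intro v hv
      have h0 := h2' 0
      rw [← hA0] at h0
      rcases key v hv with h | h | h
      · rw [h, add_comm, ← lX, h2', h0]
      · rw [h, add_comm, ← lY, h2', h0]
      · rw [h, add_comm, ← lZ, h2', h0]
    exact l4 (D.t s) u (w.2 s) (w'.2 s) A0 (val _ (Or.inl rfl)) (val _ (Or.inr (Or.inl rfl)))
      (val _ (Or.inr (Or.inr rfl)))

end Pool.Agent.Y164.PS
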