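import Pool.Agent.Y164.PS.Chr

/-!
Counting squarefree polynomials by the number of prime factors.
-/

set_option autoImplicit false
set_option linter.all false

namespace Pool.Agent.Y164.PS

open Polynomial Finset Pool.Agent.H341R2.Sharp
open scoped Classical

variable {k : Type} [Field k] [Fintype k] [DecidableEq k]

theorem A_one (hk : ringChar k ≠ 2) (n : ℕ) : A (1 : k[X]) n = (Fintype.card k : ℤ) ^ n := by
  induction n using Nat.strong_induction_on with
  | _ n ih =>
    rcases Nat.eq_zero_or_pos n with rfl | hn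
    · rw [A_zero, pow_zero]
    · have h1 := n_mul_A (1 : k[X]) n
      have h2 : ∑ m ∈ Icc 1 n, A (1 : k[X]) (n - m) * T (1 : k[X]) m = n * (Fintype.card k : ℤ) ^ n := by
        have h3 : ∀ m ∈ Icc 1 n, A (1 : k[X]) (n - m) * T (1 : k[X]) m = (Fintype.card k : ℤ) ^ n := by
          intro m hm
          rw [mem_Icc] at hm
          rw [ih (n - m) (by omega), T_one hk m hm.1, ← pow_add]
          congr 1
          omega
        rw [sum_congr rfl h3, sum_const, Nat.card_Icc]
        simp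
      rw [h2] at h1
      exact mul_left_cancel₀ (by exact_mod_cast hn.ne') h1

theorem lam_one_left' (f : k[X]) : lam 1 f = 1 := lam_one_left f

theorem card_Mon (hk : ringChar k ≠ 2) (n : ℕ) : (Mon k n).card = Fintype.card k ^ n := by
  have h := A_one (k := k) hk n
  unfold A at h
  simp only [lam_one_left', sum_const, nsmul_eq_mul, mul_one] at h
  exact_mod_cast h

theorem card_Mon_dvd (hk : ringChar k ≠ 2) {P : k[X]} (hP : P.Monic) (n : ℕ) :
    ((Mon k n).filter (fun D => P ∣ D)).card =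
      if P.natDegree ≤ n then Fintype.card k ^ (n - P.natDegree) else 0 := by
  have h := sum_pow_dvd (1 : k[X]) P hP n 1
  simp only [lam_one_left', pow_one, one_mul] at h
  rw [← sum_filter, sum_const, nsmul_eq_mul, mul_one] at h
  split_ifs at h ⊢ with hn
  · rw [A_one hk] at h
    exact_mod_cast h
  · exact_mod_cast h

/-- squarefree monic polynomials -/
noncomputable def Sf (k : Type) [Field k] [Fintype k] [DecidableEq k] (n : ℕ) : Finset k[X] :=
  (Mon k n).filter Squarefree

theorem mem_Sf {n : ℕ} {D : k[X]} : D ∈ Sf k n ↔ D.Monic ∧ D.natDegree = n ∧ Squarefree D := by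
  rw [Sf, mem_filter, mem_Mon, and_assoc]

/-- the prime factors -/
noncomputable def pf (D : k[X]) : Finset k[X] := (Irr k D.natDegree).filter (fun P => P ∣ D)

theorem mem_pf {D : k[X]} (hD : D ≠ 0) {P : k[X]} :
    P ∈ pf D ↔ P.Monic ∧ Irreducible P ∧ P ∣ D := by
  rw [pf, mem_filter, mem_Irr]
  constructor
  · rintro ⟨⟨h1, h2, _⟩, h3⟩
    exact ⟨h1, h2, h3⟩
  · rintro ⟨h1, h2, h3⟩
    exact ⟨⟨h1, h2, natDegree_le_of_dvd h3 hD⟩, h3⟩

theorem prod_pf {n : ℕ} {D : k[X]} (hD : D ∈ Sf k n) : ∏ P ∈ pf D, P = D := by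
  rw [mem_Sf] at hD
  have h0 : D ≠ 0 := hD.1.ne_zero
  set nf := UniqueFactorizationMonoid.normalizedFactors D with hnf
  have h1 : nf.prod = D := by
    have := UniqueFactorizationMonoid.prod_normalizedFactors_eq h0
    rw [this, hD.1.normalize_eq_self]
  have h2 : nf.toFinset = pf D := by
    ext P
    rw [Multiset.mem_toFinset, mem_pf h0, Polynomial.mem_normalizedFactors_iff h0]
    tauto
  have h3 : nf.Nodup := (UniqueFactorizationMonoid.squarefree_iff_nodup_normalizedFactors h0).1 hD.2.2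
  rw [← h2]
  calc ∏ P ∈ nf.toFinset, P = (nf.toFinset.val).prod := by
        rw [Finset.prod_eq_multiset_prod, Multiset.map_id']
    _ = nf.prod := by rw [Multiset.toFinset_val, Multiset.dedup_eq_self.2 h3]
    _ = D := h1

theorem deg_pf {n : ℕ} {D : k[X]} (hD : D ∈ Sf k n) : ∑ P ∈ pf D, P.natDegree = n := by
  have h0 := prod_pf hD
  rw [mem_Sf] at hD
  rw [← hD.2.1]
  conv_rhs => rw [← h0]
  rw [natDegree_prod_of_monic _ _ fun P hP => ((mem_pf hD.1.ne_zero).1 hP).1]

theorem mul_mem_Sf {n : ℕ} {P E : k[X]} (hP : P.Monic) (hi : Irreducible P)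
    (h : P * E ∈ Sf k n) : E ∈ Sf k (n - P.natDegree) ∧ pf (P * E) = insert P (pf E) ∧ P ∉ pf E := by
  rw [mem_Sf] at h
  have hE : E.Monic := hP.of_mul_monic_left h.1
  have hE0 := hE.ne_zero
  have hd := h.2.1
  rw [hP.natDegree_mul hE] at hd
  have hnd : ¬ P ∣ E := by
    rintro ⟨E', rfl⟩
    apply hi.not_isUnit
    apply h.2.2
    exact ⟨E', by ring⟩
  refine ⟨mem_Sf.2 ⟨hE, by omega, h.2.2.squarefree_of_dvd (dvd_mul_left _ _)⟩, ?_, ?_⟩
  · ext Q
    rw [mem_insert, mem_pf h.1.ne_zero, mem_pf hE0]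
    constructor
    · rintro ⟨h1, h2, h3⟩
      rcases h2.prime.dvd_or_dvd h3 with h4 | h4
      · left
        exact eq_of_monic_of_associated h1 hP (h2.associated_of_dvd hi h4)
      · right
        exact ⟨h1, h2, h4⟩
    · rintro (rfl | ⟨h1, h2, h3⟩)
      · exact ⟨hP, hi, dvd_mul_right _ _⟩
      · exact ⟨h1, h2, h3.mul_left _⟩
  · rw [mem_pf hE0]
    exact fun h => hnd h.2.2

/-- the sum of `2 ^ (- ω)` -/
noncomputable def hs (k : Type) [Field k] [Fintype k] [DecidableEq k] (n : ℕ) : ℝ :=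
  ∑ D ∈ Sf k n, ((1 : ℝ) / 2) ^ (pf D).card

theorem hs_nonneg (n : ℕ) : 0 ≤ hs k n := sum_nonneg fun _ _ => by positivity

theorem hs_rec (hk : ringChar k ≠ 2) (n : ℕ) :
    (n : ℝ) * hs k n ≤ (1 / 2) * ∑ m ∈ Icc 1 n, (Fintype.card k : ℝ) ^ m * hs k (n - m) := by
  have h1 : (n : ℝ) * hs k n = ∑ P ∈ Irr k n, (P.natDegree : ℝ) *
      ∑ D ∈ (Sf k n).filter (fun D => P ∣ D), ((1 : ℝ) / 2) ^ (pf D).card := by
    rw [hs, mul_sum]
    have h2 : ∀ D ∈ Sf k n, (n : ℝ) * ((1 : ℝ) / 2) ^ (pf D).card =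
        ∑ P ∈ Irr k n, (if P ∣ D then (P.natDegree : ℝ) * ((1 : ℝ) / 2) ^ (pf D).card else 0) := by
      intro D hD
      rw [← sum_filter, ← sum_mul]
      congr 1
      have h3 : (Irr k n).filter (fun P => P ∣ D) = pf D := by
        rw [pf, (mem_Sf.1 hD).2.1]
      rw [h3]
      exact_mod_cast (deg_pf hD).symm
    rw [sum_congr rfl h2, sum_comm]
    refine sum_congr rfl fun P _ => ?_
    rw [← sum_filter, mul_sum]
  have h2 : ∀ P ∈ Irr k n, ∑ D ∈ (Sf k n).filter (fun D => P ∣ D), ((1 : ℝ) / 2) ^ (pf D).card ≤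
      (1 / 2) * hs k (n - P.natDegree) := by
    intro P hP
    rw [mem_Irr] at hP
    rw [hs, mul_sum]
    have h3 : ∑ D ∈ (Sf k n).filter (fun D => P ∣ D), ((1 : ℝ) / 2) ^ (pf D).card =
        ∑ E ∈ ((Sf k n).filter (fun D => P ∣ D)).image (fun D => D /ₘ P),
          (1 / 2) * ((1 : ℝ) / 2) ^ (pf E).card := by
      rw [sum_image]
      · refine sum_congr rfl fun D hD => ?_
        rw [mem_filter] at hD
        obtain ⟨hD, E, rfl⟩ := hD
        rw [mul_divByMonic_cancel_left _ hP.1]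
        obtain ⟨h4, h5, h6⟩ := mul_mem_Sf hP.1 hP.2.1 hD
        rw [h5, card_insert_of_notMem h6, pow_succ]
        ring
      · intro D hD D' hD' h
        rw [mem_coe, mem_filter] at hD hD'
        obtain ⟨hD, E, rfl⟩ := hD
        obtain ⟨hD', E', rfl⟩ := hD'
        simp only at h
        rw [mul_divByMonic_cancel_left _ hP.1, mul_divByMonic_cancel_left _ hP.1] at h
        rw [h]
    rw [h3]
    apply sum_le_sum_of_subset_of_nonneg
    · intro E hE
      rw [mem_image] at hE
      obtain ⟨D, hD, rfl⟩ := hE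
      rw [mem_filter] at hD
      obtain ⟨hD, E, rfl⟩ := hD
      rw [mul_divByMonic_cancel_left _ hP.1]
      exact (mul_mem_Sf hP.1 hP.2.1 hD).1
    · intro _ _ _
      positivity
  rw [h1]
  have h3 : ∑ P ∈ Irr k n, (P.natDegree : ℝ) *
      ∑ D ∈ (Sf k n).filter (fun D => P ∣ D), ((1 : ℝ) / 2) ^ (pf D).card ≤
      ∑ P ∈ Irr k n, (P.natDegree : ℝ) * ((1 / 2) * hs k (n - P.natDegree)) :=
    sum_le_sum fun P hP => mul_le_mul_of_nonneg_left (h2 P hP) (by positivity)
  refine h3.trans ?_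
  have h4 : ∑ P ∈ Irr k n, (P.natDegree : ℝ) * ((1 / 2) * hs k (n - P.natDegree)) =
      ∑ m ∈ Icc 1 n, ∑ P ∈ Pr k m, (P.natDegree : ℝ) * ((1 / 2) * hs k (n - P.natDegree)) := by
    rw [← sum_biUnion]
    · apply sum_congr _ fun _ _ => rfl
      ext P
      rw [mem_biUnion, mem_Irr]
      constructor
      · rintro ⟨a1, a2, a3⟩
        exact ⟨P.natDegree, mem_Icc.2 ⟨a2.natDegree_pos, a3⟩, mem_Pr.2 ⟨a1, a2, rfl⟩⟩
      · rintro ⟨m, hm, hP⟩
        rw [mem_Pr] at hP
        rw [mem_Icc] at hm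
        exact ⟨hP.1, hP.2.1, hP.2.2.trans_le hm.2⟩
    · intro e _ e' _ hne
      rw [Function.onFun, disjoint_left]
      intro P hP hP'
      rw [mem_Pr] at hP hP'
      exact hne (hP.2.2.symm.trans hP'.2.2)
  rw [h4, mul_sum]
  apply sum_le_sum
  intro m hm
  rw [mem_Icc] at hm
  have h5 : ∑ P ∈ Pr k m, (P.natDegree : ℝ) * ((1 / 2) * hs k (n - P.natDegree)) =
      ((m : ℝ) * (Pr k m).card) * ((1 / 2) * hs k (n - m)) := by
    rw [sum_congr rfl (fun P hP => by rw [(mem_Pr.1 hP).2.2]), sum_const, nsmul_eq_mul]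
    ring
  rw [h5]
  have h6 := card_Pr_le (k := k) hk m hm.1
  have h7 := hs_nonneg (k := k) (n - m)
  nlinarith

/-- the central binomial coefficients over powers of four -/
noncomputable def cb : ℕ → ℝ
  | 0 => 1
  | n + 1 => cb n * ((2 * n + 1) / (2 * n + 2))

theorem cb_pos (n : ℕ) : 0 < cb n := by
  induction n with
  | zero => exact one_pos
  | succ n ih =>
    rw [cb]
    positivity

theorem cb_sum (n : ℕ) : (n : ℝ) * cb n = (1 / 2) * ∑ j ∈ range n, cb j := by
  induction n with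
  | zero => simp
  | succ n ih =>
    rw [sum_range_succ, mul_add, ← ih, cb]
    push_cast
    field_simp

theorem cb_sq (n : ℕ) : cb n ^ 2 * (2 * n + 1) ≤ 1 := by
  induction n with
  | zero => simp [cb]
  | succ n ih =>
    rw [cb]
    push_cast
    have h1 : (cb n * ((2 * n + 1) / (2 * n + 2))) ^ 2 * (2 * (n + 1) + 1) =
        (cb n ^ 2 * (2 * n + 1)) * (((2 * n + 1) * (2 * n + 3)) / (2 * n + 2) ^ 2) := by
      field_simp
      ring
    rw [h1]
    have h2 : (((2 * n + 1) * (2 * n + 3)) / (2 * n + 2) ^ 2 : ℝ) ≤ 1 := by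
      rw [div_le_one (by positivity)]
      nlinarith
    have h3 : 0 ≤ (((2 * n + 1) * (2 * n + 3)) / (2 * n + 2) ^ 2 : ℝ) := by positivity
    have h4 := cb_pos n
    have h5 : 0 ≤ cb n ^ 2 * (2 * n + 1) := by positivity
    nlinarith

theorem hs_le (hk : ringChar k ≠ 2) (n : ℕ) : hs k n ≤ cb n * (Fintype.card k : ℝ) ^ n := by
  induction n using Nat.strong_induction_on with
  | _ n ih =>
    rcases Nat.eq_zero_or_pos n with rfl | hn
    · rw [hs]
      have h1 : Sf k 0 = {1} := by
        ext D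
        rw [mem_Sf, mem_singleton]
        constructor
        · rintro ⟨h1, h2, _⟩
          exact eq_one_of_monic_natDegree_zero h1 h2
        · rintro rfl
          exact ⟨monic_one, natDegree_one, squarefree_one⟩
      have h2 : pf (1 : k[X]) = ∅ := by
        rw [eq_empty_iff_forall_notMem]
        intro P hP
        rw [mem_pf one_ne_zero] at hP
        exact hP.2.1.not_isUnit (isUnit_of_dvd_one hP.2.2)
      rw [h1, sum_singleton, h2]
      simp [cb]
    · have h1 := hs_rec (k := k) hk n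
      have h2 : ∑ m ∈ Icc 1 n, (Fintype.card k : ℝ) ^ m * hs k (n - m) ≤
          ∑ m ∈ Icc 1 n, (Fintype.card k : ℝ) ^ n * cb (n - m) := by
        apply sum_le_sum
        intro m hm
        rw [mem_Icc] at hm
        have h3 := ih (n - m) (by omega)
        calc (Fintype.card k : ℝ) ^ m * hs k (n - m) ≤
              (Fintype.card k : ℝ) ^ m * (cb (n - m) * (Fintype.card k : ℝ) ^ (n - m)) :=
              mul_le_mul_of_nonneg_left h3 (by positivity)
          _ = ((Fintype.card k : ℝ) ^ m * (Fintype.card k : ℝ) ^ (n - m)) * cb (n - m) := by ring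
          _ = _ := by
              rw [← pow_add]
              congr 2
              omega
      have h3 : ∑ m ∈ Icc 1 n, cb (n - m) = ∑ j ∈ range n, cb j := by
        refine sum_nbij' (fun m => n - m) (fun j => n - j) ?_ ?_ ?_ ?_ ?_
        · intro m hm
          rw [mem_Icc] at hm
          rw [mem_range]
          omega
        · intro j hj
          rw [mem_range] at hj
          rw [mem_Icc]
          omega
        · intro m hm
          rw [mem_Icc] at hm
          show n - (n - m) = m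
          omega
        · intro j hj
          rw [mem_range] at hj
          show n - (n - j) = j
          omega
        · intro m _
          rfl
      rw [← mul_sum, h3] at h2
      have h4 := cb_sum n
      have h5 : (0 : ℝ) < n := by exact_mod_cast hn
      have h6 : (n : ℝ) * hs k n ≤ (n : ℝ) * (cb n * (Fintype.card k : ℝ) ^ n) := by
        calc (n : ℝ) * hs k n ≤ (1 / 2) * ((Fintype.card k : ℝ) ^ n * ∑ j ∈ range n, cb j) := by
              linarith
          _ = (Fintype.card k : ℝ) ^ n * ((1 / 2) * ∑ j ∈ range n, cb j) := by ring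
          _ = _ := by rw [← h4]; ring
      exact le_of_mul_le_mul_left h6 h5

/-- few polynomials have few prime factors -/
theorem few_primes (hk : ringChar k ≠ 2) (n t : ℕ) :
    (((Sf k n).filter (fun D => (pf D).card < t)).card : ℝ) ≤
      2 ^ t * cb n * (Fintype.card k : ℝ) ^ n := by
  have h1 : (((Sf k n).filter (fun D => (pf D).card < t)).card : ℝ) ≤ 2 ^ t * hs k n := by
    rw [hs, mul_sum, ← nsmul_one, ← sum_const]
    refine le_trans (sum_le_sum (g := fun D => (2 : ℝ) ^ t * (1 / 2) ^ (pf D).card) ?_)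
      (sum_le_sum_of_subset_of_nonneg (filter_subset _ _) fun _ _ _ => by positivity)
    intro D hD
    rw [mem_filter] at hD
    have h2 : (2 : ℝ) ^ t * (1 / 2) ^ (pf D).card = 2 ^ (t - (pf D).card) := by
      have h3 : (2 : ℝ) ^ t = 2 ^ (t - (pf D).card) * 2 ^ (pf D).card := by
        rw [← pow_add]
        congr 1
        omega
      rw [h3, mul_assoc, ← mul_pow]
      norm_num
    rw [h2]
    exact one_le_pow₀ (by norm_num)
  have h2 := hs_le (k := k) hk n
  calc _ ≤ 2 ^ t * hs k n := h1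
    _ ≤ 2 ^ t * (cb n * (Fintype.card k : ℝ) ^ n) := mul_le_mul_of_nonneg_left h2 (by positivity)
    _ = _ := by ring

/-- the average number of prime factors -/
theorem sum_omega (hk : ringChar k ≠ 2) (n y : ℕ) :
    ∑ D ∈ Mon k n, (((pf D).filter (fun P => P.natDegree ≤ y)).card : ℝ) ≤
      (Fintype.card k : ℝ) ^ n * (1 + Real.log y) := by
  set q : ℝ := (Fintype.card k : ℝ) with hq
  have hq1 : 1 ≤ q := by
    rw [hq]; exact_mod_cast (Fintype.card_pos (α := k))
  have h1 : ∑ D ∈ Mon k n, (((pf D).filter (fun P => P.natDegree ≤ y)).card : ℝ) =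
      ∑ P ∈ (Irr k n).filter (fun P => P.natDegree ≤ y), (((Mon k n).filter (fun D => P ∣ D)).card : ℝ)
      := by
    have h2 : ∀ D ∈ Mon k n, (((pf D).filter (fun P => P.natDegree ≤ y)).card : ℝ) =
        ∑ P ∈ (Irr k n).filter (fun P => P.natDegree ≤ y), (if P ∣ D then (1 : ℝ) else 0) := by
      intro D hD
      rw [← sum_filter, sum_const, nsmul_one, pf, (mem_Mon.1 hD).2, filter_filter, filter_filter]
      congr 2
      ext P
      simp only [mem_filter]
      tauto
    rw [sum_congr rfl h2, sum_comm]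
    refine sum_congr rfl fun P _ => ?_
    rw [← sum_filter, sum_const, nsmul_one]
  rw [h1]
  have h2 : ∀ P ∈ (Irr k n).filter (fun P => P.natDegree ≤ y),
      (((Mon k n).filter (fun D => P ∣ D)).card : ℝ) = q ^ n / q ^ P.natDegree := by
    intro P hP
    rw [mem_filter, mem_Irr] at hP
    rw [card_Mon_dvd hk hP.1.1, if_pos hP.1.2.2]
    push_cast
    rw [pow_sub₀ _ (by linarith) hP.1.2.2]
    rfl
  rw [sum_congr rfl h2]
  have h3 : ∑ P ∈ (Irr k n).filter (fun P => P.natDegree ≤ y), q ^ n / q ^ P.natDegree ≤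
      ∑ d ∈ Icc 1 y, ∑ P ∈ Pr k d, q ^ n / q ^ P.natDegree := by
    rw [← sum_biUnion]
    · apply sum_le_sum_of_subset_of_nonneg
      · intro P hP
        rw [mem_filter, mem_Irr] at hP
        rw [mem_biUnion]
        exact ⟨P.natDegree, mem_Icc.2 ⟨hP.1.2.1.natDegree_pos, hP.2⟩,
          mem_Pr.2 ⟨hP.1.1, hP.1.2.1, rfl⟩⟩
      · intro _ _ _
        positivity
    · intro e _ e' _ hne
      rw [Function.onFun, disjoint_left]
      intro P hP hP'
      rw [mem_Pr] at hP hP'
      exact hne (hP.2.2.symm.trans hP'.2.2)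
  refine h3.trans ?_
  have h4 : ∀ d ∈ Icc 1 y, ∑ P ∈ Pr k d, q ^ n / q ^ P.natDegree ≤ q ^ n * ((d : ℝ))⁻¹ := by
    intro d hd
    rw [mem_Icc] at hd
    have hd0 : (0 : ℝ) < d := by exact_mod_cast hd.1
    rw [sum_congr rfl (fun P hP => by rw [(mem_Pr.1 hP).2.2]), sum_const, nsmul_eq_mul]
    have h5 := card_Pr_le (k := k) hk d hd.1
    rw [mul_div_assoc', div_le_iff₀ (by positivity)]
    have h6 : ((Pr k d).card : ℝ) ≤ q ^ d * (d : ℝ)⁻¹ := by
      rw [← div_eq_mul_inv, le_div_iff₀ hd0]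
      linarith
    calc ((Pr k d).card : ℝ) * q ^ n ≤ (q ^ d * (d : ℝ)⁻¹) * q ^ n :=
          mul_le_mul_of_nonneg_right h6 (by positivity)
      _ = _ := by ring
  refine (sum_le_sum h4).trans ?_
  rw [← mul_sum]
  apply mul_le_mul_of_nonneg_left _ (by positivity)
  have h5 := harmonic_le_one_add_log y
  have h6 : ((harmonic y : ℚ) : ℝ) = ∑ d ∈ Icc 1 y, ((d : ℝ))⁻¹ := by
    rw [harmonic_eq_sum_Icc]
    push_cast
    rfl
  rw [← h6]
  exact h5

end Pool.Agent.Y164.PS
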