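import Pool.Agent.Y164.PS.Form

/-!
The order of the kernel is a power of four.
-/

set_option autoImplicit false
set_option linter.all false

namespace Pool.Agent.Y164.PS

open Finset

theorem F2_cases (x : F2) : x = 0 ∨ x = 1 := by revert x; decide

theorem F2_ne_zero {x : F2} (h : x ≠ 0) : x = 1 := (F2_cases x).resolve_left h

theorem alt_card (n : ℕ) : ∀ (A : Type) [AddCommGroup A] [Finite A] (β : A → A → F2)
    (_ : ∀ x y z, β (x + y) z = β x z + β y z) (_ : ∀ x y, β x y = β y x) (_ : ∀ x, β x x = 0)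
    (_ : Nat.card A ≤ n), ∃ r, Nat.card A = Nat.card {x : A // ∀ y, β x y = 0} * 4 ^ r := by
  induction n using Nat.strong_induction_on with
  | _ n ih =>
    intro A _ _ β hadd hcomm halt hn
    by_cases h0 : ∀ x y, β x y = 0
    · refine ⟨0, ?_⟩
      rw [pow_zero, mul_one]
      exact Nat.card_congr (Equiv.subtypeUnivEquiv h0).symm
    · push Not at h0
      obtain ⟨u, v, huv⟩ := h0
      have huv1 : β u v = 1 := F2_ne_zero huv
      have hz : ∀ z, β 0 z = 0 := fun z => by
        have := hadd 0 0 z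
        rw [add_zero, F2_add_self] at this
        exact this
      let φ : A →+ F2 × F2 := ⟨⟨fun x => (β x u, β x v), by rw [hz, hz]; rfl⟩,
        fun x y => by
          show (β (x + y) u, β (x + y) v) = (β x u, β x v) + (β y u, β y v)
          rw [hadd, hadd]; rfl⟩
      have hφ : ∀ x, φ x = (β x u, β x v) := fun _ => rfl
      have hφs : Function.Surjective φ := by
        rintro ⟨a, b⟩
        rcases F2_cases a with rfl | rfl <;> rcases F2_cases b with rfl | rfl
        · exact ⟨0, by rw [hφ, hz, hz]⟩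
        · exact ⟨u, by rw [hφ, halt, huv1]⟩
        · exact ⟨v, by rw [hφ, halt, hcomm, huv1]⟩
        · exact ⟨u + v, by rw [hφ, hadd, hadd, halt, halt, hcomm v u, huv1]; rfl⟩
      have hc : Nat.card A = 4 * Nat.card φ.ker := by
        rw [AddSubgroup.card_eq_card_quotient_mul_card_addSubgroup φ.ker,
          Nat.card_congr (QuotientAddGroup.quotientKerEquivOfSurjective φ hφs).toEquiv]
        simp
      have hpos : 0 < Nat.card φ.ker := Nat.card_pos
      obtain ⟨r, hr⟩ := ih (Nat.card φ.ker) (by omega) φ.ker (fun x y => β x y)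
        (fun x y z => hadd _ _ _) (fun x y => hcomm _ _) (fun x => halt _) le_rfl
      have hker : ∀ x : A, x ∈ φ.ker ↔ β x u = 0 ∧ β x v = 0 := by
        intro x
        rw [AddMonoidHom.mem_ker, hφ, Prod.ext_iff]
        rfl
      have hb : Nat.card {x : φ.ker // ∀ y : φ.ker, β x y = 0} =
          Nat.card {x : A // ∀ y, β x y = 0} := by
        refine Nat.card_congr ⟨fun x => ⟨x.1.1, ?_⟩, fun x => ⟨⟨x.1, ?_⟩, ?_⟩, ?_, ?_⟩
        · intro y
          obtain ⟨hxu, hxv⟩ := (hker x.1.1).1 x.1.2
          have hadd' : ∀ x y z, β x (y + z) = β x y + β x z := fun x y z => by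
            rw [hcomm, hadd, hcomm y, hcomm z]
          -- subtract
          obtain ⟨c, hcu, hcx⟩ : ∃ c : A, β c u = β y u ∧ β c v = 0 ∧ β x.1.1 c = 0 := by
            rcases F2_cases (β y u) with h | h
            · exact ⟨0, by rw [h, hz], hz _, by rw [hcomm, hz]⟩
            · exact ⟨v, by rw [h, hcomm, huv1], halt _, hxv⟩
          obtain ⟨c', hcu', hcx'⟩ : ∃ c : A, β c v = β y v ∧ β c u = 0 ∧ β x.1.1 c = 0 := by
            rcases F2_cases (β y v) with h | h
            · exact ⟨0, by rw [h, hz], hz _, by rw [hcomm, hz]⟩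
            · exact ⟨u, by rw [h, huv1], halt _, hxu⟩
          have h1 : y + c + c' ∈ φ.ker := by
            rw [hker]
            refine ⟨?_, ?_⟩
            · rw [hadd, hadd, hcu, hcx'.1, add_zero, F2_add_self]
            · rw [hadd, hadd, hcx.1, hcu', add_zero, F2_add_self]
          have h2 := x.2 ⟨_, h1⟩
          simp only at h2
          rw [hadd', hadd', hcx.2, hcx'.2, add_zero, add_zero] at h2
          exact h2
        · rw [hker]
          exact ⟨x.2 _, x.2 _⟩
        · intro y
          exact x.2 _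
        · intro x
          rfl
        · intro x
          rfl
      refine ⟨r + 1, ?_⟩
      rw [hc, hr, hb, pow_succ]
      ring

variable {ι τ : Type} [Fintype ι] [Fintype τ]
variable (D : Dat τ) (A : ι → ι → F2) (B : ι → τ → F2) (d : ι → F2)

/-- the order of the kernel -/
noncomputable def kc : ℕ :=
  Nat.card {w : V ι τ // dg D d w = 0 ∧ ∀ w' : V ι τ, dg D d w' = 0 → FF D A B d w w' = 0}

theorem pow_four {c a b : ℕ} (h : c * 4 ^ a = 4 ^ b) : c = 1 ∨ 4 ≤ c := by
  rcases Nat.lt_or_ge b a with hab | hab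
  · exfalso
    have h1 : 4 ^ b < 4 ^ a := Nat.pow_lt_pow_right (by norm_num) hab
    rcases Nat.eq_zero_or_pos c with rfl | hc
    · rw [zero_mul] at h
      have : 0 < 4 ^ b := by positivity
      omega
    · have h2 : 4 ^ a ≤ c * 4 ^ a := Nat.le_mul_of_pos_left _ hc
      omega
  · obtain ⟨e, rfl⟩ := Nat.exists_eq_add_of_le hab
    rw [pow_add, mul_comm] at h
    have h2 : c = 4 ^ e := Nat.eq_of_mul_eq_mul_left (by positivity) h
    rcases Nat.eq_zero_or_pos e with rfl | he
    · left; rw [h2, pow_zero]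
    · right
      rw [h2]
      calc 4 = 4 ^ 1 := by norm_num
        _ ≤ 4 ^ e := Nat.pow_le_pow_right (by norm_num) he

variable {A}

theorem kc_even (hA : ∀ i j, A i j = A j i) (hN : ∑ i, d i + D.N = 1) :
    kc D A B d = 1 ∨ 4 ≤ kc D A B d := by
  classical
  let φ : V ι τ →+ W := ⟨⟨dg D d, by
    have h := dg_add D d (0 : V ι τ) 0
    rw [add_zero, W_add_self] at h
    exact h⟩, dg_add D d⟩
  have hφ : ∀ w, φ w = dg D d w := fun _ => rfl
  have hφs : Function.Surjective φ := fun y => ⟨TT D y, by rw [hφ, dg_TT, hN, one_smul]⟩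
  have hcV : Nat.card (V ι τ) = 4 ^ Fintype.card ι * 2 ^ Fintype.card τ := by
    rw [Nat.card_eq_fintype_card, Fintype.card_prod, Fintype.card_fun, Fintype.card_fun,
      Fintype.card_prod, ZMod.card]
  have hc : Nat.card (V ι τ) = 4 * Nat.card φ.ker := by
    rw [AddSubgroup.card_eq_card_quotient_mul_card_addSubgroup φ.ker,
      Nat.card_congr (QuotientAddGroup.quotientKerEquivOfSurjective φ hφs).toEquiv]
    simp
  have hwsm : (ws : V ι τ) ∈ φ.ker := by
    rw [AddMonoidHom.mem_ker, hφ, dg_ws]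
  let lam : V ι τ → F2 := fun w => FF D A B d w ws
  have hlam : ∀ w w', lam (w + w') = lam w + lam w' := fun w w' => FF_add_left D A B d w w' ws
  let β : V ι τ → V ι τ → F2 := fun w w' => FF D A B d w w' + lam w * lam w'
  have hβa : ∀ x y z, β (x + y) z = β x z + β y z := by
    intro x y z
    show FF D A B d (x + y) z + lam (x + y) * lam z = _
    rw [FF_add_left, hlam]
    show _ = FF D A B d x z + lam x * lam z + (FF D A B d y z + lam y * lam z)
    ring
  have hβc : ∀ x y, β x y = β y x := by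
    intro x y
    show FF D A B d x y + lam x * lam y = FF D A B d y x + lam y * lam x
    rw [FF_comm D B d hA, mul_comm]
  obtain ⟨r, hr⟩ := alt_card _ φ.ker (fun x y => β x y) (fun x y z => hβa _ _ _)
    (fun x y => hβc _ _) (fun x => by
      show FF D A B d x x + lam x * lam x = 0
      rw [FF_diag D B d hA _ x.2, F2_sq]
      exact F2_add_self _) le_rfl
  have hlws : lam ws = (Fintype.card τ : F2) := by
    show FF D A B d ws ws = _
    have hswap : ∑ s, ∑ s', D.G s s' * (om (D.t s') (D.t s)) = 0 := by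
      rw [← sum_product']
      refine sum_involution (fun p _ => (p.2, p.1)) ?_ ?_ ?_ ?_
      · rintro ⟨i, j⟩ _
        show D.G i j * (om (D.t j) (D.t i)) + D.G j i * (om (D.t i) (D.t j)) = 0
        rw [D.symm i j, om_comm, F2_add_self]
      · rintro ⟨i, j⟩ _ hne h
        simp only [Prod.mk.injEq] at h
        apply hne
        show D.G i j * (om (D.t j) (D.t i)) = 0
        rw [h.1, om_self, mul_zero]
      · intro _ _
        exact mem_univ _
      · rintro ⟨i, j⟩ _
        rfl
    simp only [FF, ws, Pi.zero_apply, om_zero_left, om_zero_right, mul_zero, add_zero, zero_add,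
      mul_one, one_mul, sum_const_zero, hswap, sum_const, card_univ, nsmul_eq_mul]
  -- the two kernels
  have hK : kc D A B d = Nat.card {x : φ.ker // ∀ y : φ.ker, FF D A B d x y = 0} := by
    refine Nat.card_congr ⟨fun x => ⟨⟨x.1, x.2.1⟩, fun y => x.2.2 y.1 y.2⟩,
      fun x => ⟨x.1.1, x.1.2, fun w' hw' => x.2 ⟨w', hw'⟩⟩, fun _ => rfl, fun _ => rfl⟩
  have hlK : ∀ x : φ.ker, (∀ y : φ.ker, FF D A B d x y = 0) → lam x = 0 := fun x hx => hx ⟨ws, hwsm⟩
  have hwslam : ∀ w : V ι τ, FF D A B d ws w = lam w := fun w => FF_comm D B d hA _ _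
  rcases Nat.even_or_odd (Fintype.card τ) with he | ho
  · have h0 : lam ws = 0 := by rw [hlws]; exact (ZMod.natCast_eq_zero_iff_even).2 he
    have hK1 : Nat.card {x : φ.ker // ∀ y : φ.ker, FF D A B d x y = 0} =
        Nat.card {x : φ.ker // ∀ y : φ.ker, β x y = 0} := by
      refine Nat.card_congr (Equiv.subtypeEquivRight fun x => ⟨fun h y => ?_, fun h y => ?_⟩)
      · show FF D A B d x y + lam x * lam y = 0
        rw [h y, hlK x h, zero_mul, add_zero]
      · have h1 : FF D A B d x ws + lam x * lam ws = 0 := h ⟨ws, hwsm⟩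
        rw [h0, mul_zero, add_zero] at h1
        have h2 : FF D A B d x y + lam x * lam y = 0 := h y
        have h3 : lam x = 0 := h1
        rw [h3, zero_mul, add_zero] at h2
        exact h2
    obtain ⟨j, hj⟩ := he
    rw [hK, hK1]
    apply pow_four (a := r + 1) (b := Fintype.card ι + j)
    rw [hcV, hr, hj] at hc
    rw [pow_add 4 (Fintype.card ι) j]
    have : (4 : ℕ) ^ j = 2 ^ (j + j) := by
      rw [← two_mul, pow_mul]; norm_num
    rw [this, hc, pow_succ]
    ring
  · have h0 : lam ws = 1 := by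
      rw [hlws]
      obtain ⟨j, hj⟩ := ho
      rw [hj]
      push_cast
      have : (2 : F2) = 0 := by decide
      rw [this]
      ring
    let K1 : AddSubgroup (V ι τ) :=
      { carrier := {w | dg D d w = 0 ∧ ∀ w', dg D d w' = 0 → β w w' = 0}
        zero_mem' := by
          refine ⟨(AddMonoidHom.map_zero φ), fun w' _ => ?_⟩
          show FF D A B d 0 w' + lam 0 * lam w' = 0
          have : lam 0 = 0 := FF_zero_left D B d ws
          rw [FF_zero_left, this, zero_mul, add_zero]
        add_mem' := by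
          rintro x y ⟨hx, hx'⟩ ⟨hy, hy'⟩
          refine ⟨by rw [dg_add, hx, hy, add_zero], fun w' hw' => ?_⟩
          rw [hβa, hx' w' hw', hy' w' hw', add_zero]
        neg_mem' := by
          rintro x ⟨hx, hx'⟩
          have : -x = x := by
            rw [neg_eq_iff_add_eq_zero]
            apply Prod.ext
            · funext i
              exact W_add_self _
            · funext s
              exact F2_add_self _
          rw [this]
          exact ⟨hx, hx'⟩ }
    have hK1 : Nat.card {x : φ.ker // ∀ y : φ.ker, β x y = 0} = Nat.card K1 := by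
      refine Nat.card_congr ⟨fun x => ⟨x.1.1, x.1.2, fun w' hw' => x.2 ⟨w', hw'⟩⟩,
        fun x => ⟨⟨x.1, x.2.1⟩, fun y => x.2.2 y.1 y.2⟩, fun _ => rfl, fun _ => rfl⟩
    let ψ : K1 →+ F2 := ⟨⟨fun x => lam x, FF_zero_left D B d ws⟩, fun x y => hlam _ _⟩
    have hws1 : (ws : V ι τ) ∈ K1 := by
      refine ⟨dg_ws D d, fun w' hw' => ?_⟩
      show FF D A B d ws w' + lam ws * lam w' = 0
      rw [hwslam, h0, one_mul, F2_add_self]
    have hψs : Function.Surjective ψ := by
      intro y
      rcases F2_cases y with rfl | rfl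
      · exact ⟨0, map_zero ψ⟩
      · exact ⟨⟨ws, hws1⟩, h0⟩
    have hc2 : Nat.card K1 = 2 * Nat.card ψ.ker := by
      rw [AddSubgroup.card_eq_card_quotient_mul_card_addSubgroup ψ.ker,
        Nat.card_congr (QuotientAddGroup.quotientKerEquivOfSurjective ψ hψs).toEquiv]
      simp
    have hK2 : Nat.card ψ.ker = Nat.card {x : φ.ker // ∀ y : φ.ker, FF D A B d x y = 0} := by
      refine Nat.card_congr ⟨fun x => ⟨⟨x.1.1, x.1.2.1⟩, ?_⟩, fun x => ⟨⟨x.1.1, x.1.2, ?_⟩, ?_⟩, ?_, ?_⟩
      · intro y
        have h1 : FF D A B d x.1.1 y + lam x.1.1 * lam y = 0 := x.1.2.2 y.1 y.2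
        have h2 : lam x.1.1 = 0 := x.2
        rw [h2, zero_mul, add_zero] at h1
        exact h1
      · intro w' hw'
        show FF D A B d x.1.1 w' + lam x.1.1 * lam w' = 0
        rw [hlK x.1 x.2, zero_mul, add_zero]
        exact x.2 ⟨w', hw'⟩
      · exact hlK x.1 x.2
      · intro x
        rfl
      · intro x
        rfl
    obtain ⟨j, hj⟩ := ho
    rw [hK, ← hK2]
    apply pow_four (a := r + 1) (b := Fintype.card ι + j)
    rw [hcV, hr, hK1, hc2, hj, pow_succ 2 (2 * j)] at hc
    rw [pow_add 4 (Fintype.card ι) j]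
    have h4 : (4 : ℕ) ^ j = 2 ^ (2 * j) := by
      rw [pow_mul]; norm_num
    rw [h4]
    have h5 : 2 * (Nat.card ψ.ker * 4 ^ (r + 1)) = 2 * (4 ^ Fintype.card ι * 2 ^ (2 * j)) := by
      rw [pow_succ]
      linarith
    omega

/-- the exponents which are supported on the primes of odd multiplicity -/
def IsV0 (w : V ι τ) : Prop := dg D d w = 0 ∧ ∀ s, D.t s = 0 → w.2 s = 0

theorem ker_V0 (hA : ∀ i j, A i j = A j i) (w : V ι τ) :
    (dg D d w = 0 ∧ ∀ w' : V ι τ, dg D d w' = 0 → FF D A B d w w' = 0) ↔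
    (IsV0 D d w ∧ ∀ w' : V ι τ, IsV0 D d w' → FF D A B d w w' = 0) := by
  classical
  have hev : ∀ (w' : V ι τ), w'.1 = 0 → (∀ s, D.t s ≠ 0 → w'.2 s = 0) →
      dg D d w' = 0 ∧ FF D A B d w w' = ∑ s, w.2 s * w'.2 s := by
    intro w' h1 h2
    have h3 : ∀ s, w'.2 s • D.t s = 0 := by
      intro s
      by_cases h : D.t s = 0
      · rw [h, smul_zero]
      · rw [h2 s h, zero_smul]
    have h4 : ∀ s x, w'.2 s * om x (D.t s) = 0 := by
      intro s x
      rw [← om_smul_right, h3, om_zero_right]
    refine ⟨?_, ?_⟩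
    · simp only [dg, h1, Pi.zero_apply, smul_zero, sum_const_zero, zero_add, mul_smul, h3]
    · have h5 : ∀ s s', D.G s s' * (w.2 s' * w'.2 s * om (D.t s') (D.t s)) = 0 := by
        intro s s'
        rw [mul_assoc (w.2 s'), h4, mul_zero, mul_zero]
      simp only [FF, h1, Pi.zero_apply, om_zero_right, om_zero_left, mul_zero, add_zero, zero_add,
        sum_const_zero, h4, h5]
  constructor
  · rintro ⟨h1, h2⟩
    have h3 : ∀ s, D.t s = 0 → w.2 s = 0 := by
      intro s hs
      have h4 := hev (0, Pi.single s 1) rfl (by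
        intro s' hs'
        have : s' ≠ s := by rintro rfl; exact hs' hs
        exact Pi.single_eq_of_ne this _)
      have h5 := h2 _ h4.1
      rw [h4.2] at h5
      simpa [Pi.single_apply] using h5
    exact ⟨⟨h1, h3⟩, fun w' hw' => h2 w' hw'.1⟩
  · rintro ⟨⟨h1, h1'⟩, h2⟩
    refine ⟨h1, fun w' hw' => ?_⟩
    let we : V ι τ := (0, fun s => if D.t s = 0 then w'.2 s else 0)
    have h4 := hev we rfl (by
      intro s hs
      exact if_neg hs)
    have h5 : IsV0 D d (w' + we) := by
      refine ⟨by rw [dg_add, hw', h4.1, add_zero], fun s hs => ?_⟩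
      show w'.2 s + (if D.t s = 0 then w'.2 s else 0) = 0
      rw [if_pos hs, F2_add_self]
    have h6 := h2 _ h5
    rw [FF_add_right D B d hA, h4.2] at h6
    have h7 : ∑ s, w.2 s * we.2 s = 0 := by
      apply sum_eq_zero
      intro s _
      by_cases hs : D.t s = 0
      · rw [h1' s hs, zero_mul]
      · show w.2 s * (if D.t s = 0 then w'.2 s else 0) = 0
        rw [if_neg hs, mul_zero]
    rw [h7, add_zero] at h6
    exact h6

theorem kc_eq (hA : ∀ i j, A i j = A j i) : kc D A B d =
    Nat.card {w : V ι τ // IsV0 D d w ∧ ∀ w' : V ι τ, IsV0 D d w' → FF D A B d w w' = 0} :=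
  Nat.card_congr (Equiv.subtypeEquivRight fun w => ker_V0 D B d hA w)

theorem triv_of_kc (h : kc D A B d = 1) : Triv D A B d := by
  intro w h1 h2
  have h3 := (Nat.card_eq_one_iff_unique.1 h).1
  have h0 : dg D d (0 : V ι τ) = 0 := by
    have h := dg_add D d (0 : V ι τ) 0
    rw [add_zero, W_add_self] at h
    exact h
  exact congrArg Subtype.val (h3.elim ⟨w, h1, h2⟩ ⟨0, h0, fun w' _ => FF_zero_left D B d w'⟩)

end Pool.Agent.Y164.PS
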