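import Pool.Agent.Y164.PS.Fin
import Pool.Agent.Y164.PS.Cnt

/-!
Ordered tuples of primes and squarefree polynomials.
-/

set_option autoImplicit false
set_option linter.all false

namespace Pool.Agent.Y164.PS

open Finset Polynomial Pool.Agent.H341R2.Sharp
open scoped Classical

variable {k : Type} [Field k] [Fintype k] [DecidableEq k]
variable {ι : Type} [Fintype ι]

/-- ordered tuples of primes of total degree `n` -/
noncomputable def Tp (k : Type) [Field k] [Fintype k] [DecidableEq k] (ι : Type) [Fintype ι] (n : ℕ) :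
    Finset (ι → k[X]) :=
  (Fintype.piFinset fun _ => Irr k n).filter fun T => ∑ i, (T i).natDegree = n

theorem mem_Tp {n : ℕ} {T : ι → k[X]} :
    T ∈ Tp k ι n ↔ (∀ i, (T i).Monic ∧ Irreducible (T i)) ∧ ∑ i, (T i).natDegree = n := by
  rw [Tp, mem_filter, Fintype.mem_piFinset]
  constructor
  · rintro ⟨h1, h2⟩
    exact ⟨fun i => ⟨(mem_Irr.1 (h1 i)).1, (mem_Irr.1 (h1 i)).2.1⟩, h2⟩
  · rintro ⟨h1, h2⟩
    refine ⟨fun i => mem_Irr.2 ⟨(h1 i).1, (h1 i).2, ?_⟩, h2⟩
    rw [← h2]
    exact single_le_sum (f := fun i => (T i).natDegree) (fun _ _ => Nat.zero_le _) (mem_univ i)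

/-- the cell of a tuple -/
noncomputable def cell (z : ℕ) (T : ι → k[X]) (i : ι) : Finset k[X] :=
  if (T i).natDegree < z then {T i} else Pr k (T i).natDegree

/-- the large primes of a tuple -/
noncomputable def lgs (z : ℕ) (T : ι → k[X]) : Finset (ι) :=
  univ.filter fun i => z ≤ (T i).natDegree

theorem cell_deg {z : ℕ} {T T' : ι → k[X]} (h : T' ∈ Fintype.piFinset (cell z T)) (i : ι) :
    (T' i).natDegree = (T i).natDegree := by
  have h1 := Fintype.mem_piFinset.1 h i
  rw [cell] at h1
  split_ifs at h1 with h2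
  · rw [mem_singleton.1 h1]
  · exact (mem_Pr.1 h1).2.2

theorem cell_eq {z : ℕ} {T T' : ι → k[X]} (h : T' ∈ Fintype.piFinset (cell z T)) :
    cell z T' = cell z T := by
  funext i
  have h1 := Fintype.mem_piFinset.1 h i
  rw [cell, cell, cell_deg h i]
  rw [cell] at h1
  split_ifs at h1 ⊢ with h2
  · rw [mem_singleton.1 h1]
  · rfl

theorem lgs_eq {z : ℕ} {T T' : ι → k[X]} (h : T' ∈ Fintype.piFinset (cell z T)) :
    lgs z T' = lgs z T := by
  rw [lgs, lgs]
  simp only [cell_deg h]

theorem self_cell {n z : ℕ} {T : ι → k[X]} (h : T ∈ Tp k ι n) :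
    T ∈ Fintype.piFinset (cell z T) := by
  rw [Fintype.mem_piFinset]
  intro i
  rw [cell]
  split_ifs with h1
  · exact mem_singleton_self _
  · exact mem_Pr.2 ⟨((mem_Tp.1 h).1 i).1, ((mem_Tp.1 h).1 i).2, rfl⟩

theorem cell_Tp {n z : ℕ} {T T' : ι → k[X]} (hT : T ∈ Tp k ι n)
    (h : T' ∈ Fintype.piFinset (cell z T)) : T' ∈ Tp k ι n := by
  rw [mem_Tp] at hT ⊢
  refine ⟨fun i => ?_, ?_⟩
  · have h1 := Fintype.mem_piFinset.1 h i
    rw [cell] at h1
    split_ifs at h1 with h2
    · rw [mem_singleton.1 h1]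
      exact hT.1 i
    · exact ⟨(mem_Pr.1 h1).1, (mem_Pr.1 h1).2.1⟩
  · simp only [cell_deg h]
    exact hT.2

theorem cells_nonneg {z : ℕ} {X : Finset (ι → k[X])}
    (hX : ∀ T0 ∈ X, ∀ T ∈ Fintype.piFinset (cell z T0), T ∈ X)
    (hself : ∀ T ∈ X, T ∈ Fintype.piFinset (cell z T)) (F : (ι → k[X]) → ℝ)
    (h : ∀ T0 ∈ X, 0 ≤ ∑ T ∈ Fintype.piFinset (cell z T0), F T) : 0 ≤ ∑ T ∈ X, F T := by
  rw [← sum_fiberwise_of_maps_to (g := fun T => cell z T) (t := X.image fun T => cell z T)
    (fun T hT => mem_image_of_mem _ hT)]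
  apply sum_nonneg
  intro c hc
  obtain ⟨T0, hT0, rfl⟩ := mem_image.1 hc
  have h1 : X.filter (fun T => cell z T = cell z T0) = Fintype.piFinset (cell z T0) := by
    ext T
    rw [mem_filter]
    constructor
    · rintro ⟨h2, h3⟩
      rw [← h3]
      exact hself T h2
    · intro h2
      exact ⟨hX T0 hT0 T h2, cell_eq h2⟩
  rw [h1]
  exact h T0 hT0

/-- products of tuples -/
theorem tup_prod {n : ℕ} {T : ι → k[X]} (hT : T ∈ Tp k ι n) (hi : Function.Injective T) :
    (∏ i, T i) ∈ Sf k n ∧ pf (∏ i, T i) = univ.image T := by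
  have h1 := mem_Tp.1 hT
  have hmon : (∏ i, T i).Monic := monic_prod_of_monic _ _ fun i _ => (h1.1 i).1
  constructor
  · rw [mem_Sf]
    refine ⟨hmon, ?_, ?_⟩
    · rw [natDegree_prod_of_monic _ _ fun i _ => (h1.1 i).1]
      exact h1.2
    · apply Finset.squarefree_prod_of_pairwise_isCoprime
      · intro i _ j _ hij
        show IsRelPrime (T i) (T j)
        apply IsCoprime.isRelPrime
        apply coprime_of_not_dvd (h1.1 j).2
        intro hd
        apply hij
        apply hi
        exact (eq_of_monic_of_associated (h1.1 j).1 (h1.1 i).1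
          ((h1.1 j).2.associated_of_dvd (h1.1 i).2 hd)).symm
      · intro i _
        exact (h1.1 i).2.squarefree
  · ext P
    rw [mem_pf hmon.ne_zero, mem_image]
    constructor
    · rintro ⟨hP1, hP2, hP3⟩
      obtain ⟨i, -, hd⟩ := (hP2.prime.dvd_finset_prod_iff _).1 hP3
      exact ⟨i, mem_univ _, (eq_of_monic_of_associated hP1 (h1.1 i).1
          (hP2.associated_of_dvd (h1.1 i).2 hd)).symm⟩
    · rintro ⟨i, -, rfl⟩
      exact ⟨(h1.1 i).1, (h1.1 i).2, dvd_prod_of_mem _ (mem_univ i)⟩

theorem fibre {n : ℕ} {D : k[X]} (hD : D ∈ Sf k n) (hm : (pf D).card = Fintype.card ι) :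
    (((Tp k ι n).filter Function.Injective).filter fun T => ∏ i, T i = D).card = (Fintype.card ι).factorial := by
  have h0 : D ≠ 0 := (mem_Sf.1 hD).1.ne_zero
  have h1 : ((Tp k ι n).filter Function.Injective).filter (fun T => ∏ i, T i = D) =
      (univ : Finset (ι ↪ pf D)).map ⟨fun f i => (f i).1, fun f g h =>
        DFunLike.ext _ _ fun i => Subtype.ext (congrFun h i)⟩ := by
    ext T
    rw [mem_filter, mem_filter, mem_map]
    constructor
    · rintro ⟨⟨h2, h3⟩, h4⟩
      have h5 := (tup_prod h2 h3).2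
      rw [h4] at h5
      refine ⟨⟨fun i => ⟨T i, by rw [h5]; exact mem_image_of_mem _ (mem_univ i)⟩, fun i j h => ?_⟩,
        mem_univ _, rfl⟩
      exact h3 (congrArg Subtype.val h)
    · rintro ⟨f, -, rfl⟩
      have hinj : Function.Injective fun i => (f i).1 := fun i j h => f.injective (Subtype.ext h)
      have himg : univ.image (fun i => (f i).1) = pf D := by
        apply eq_of_subset_of_card_le
        · intro P hP
          obtain ⟨i, -, rfl⟩ := mem_image.1 hP
          exact (f i).2
        · rw [card_image_of_injective _ hinj, card_univ, hm]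
      have hprod : ∏ i, (f i).1 = D := by
        have h2 := prod_image (s := (univ : Finset (ι))) (g := fun i => (f i).1) (f := fun P : k[X] => P) (fun i _ j _ h => hinj h)
        rw [himg, prod_pf hD] at h2
        exact h2.symm
      refine ⟨⟨?_, hinj⟩, hprod⟩
      rw [mem_Tp]
      refine ⟨fun i => ?_, ?_⟩
      · have := (mem_pf h0).1 (f i).2
        exact ⟨this.1, this.2.1⟩
      · have h2 := sum_image (s := (univ : Finset (ι))) (g := fun i => (f i).1) (f := fun P : k[X] => P.natDegree) (fun i _ j _ h => hinj h)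
        rw [himg, deg_pf hD] at h2
        exact h2.symm
  rw [h1, card_map, card_univ, Fintype.card_embedding_eq, Fintype.card_coe, hm,
    Nat.descFactorial_self]

/-- sums over injective tuples -/
theorem tuple_sum (n : ℕ) (g : k[X] → ℝ) :
    ∑ T ∈ (Tp k ι n).filter Function.Injective, g (∏ i, T i) =
      ((Fintype.card ι).factorial : ℝ) * ∑ D ∈ (Sf k n).filter (fun D => (pf D).card = Fintype.card ι), g D := by
  rw [← sum_fiberwise_of_maps_to (g := fun T : ι → k[X] => ∏ i, T i)
    (t := (Sf k n).filter (fun D => (pf D).card = Fintype.card ι)), mul_sum]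
  · refine sum_congr rfl fun D hD => ?_
    rw [mem_filter] at hD
    rw [sum_congr rfl (fun T hT => by rw [(mem_filter.1 hT).2]), sum_const, nsmul_eq_mul,
      fibre hD.1 hD.2]
  · intro T hT
    rw [mem_filter] at hT
    have := tup_prod hT.1 hT.2
    rw [mem_filter]
    refine ⟨this.1, ?_⟩
    rw [this.2, card_image_of_injective _ hT.2, card_univ]

theorem small_eq {n z : ℕ} {T : ι → k[X]} (hT : T ∈ Tp k ι n) (hi : Function.Injective T) :
    ((pf (∏ i, T i)).filter fun P => P.natDegree < z).card = Fintype.card ι - (lgs z T).card := by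
  rw [(tup_prod hT hi).2, filter_image, card_image_of_injective _ hi]
  have h1 := card_filter_add_card_filter_not (s := (univ : Finset (ι)))
    (fun i => z ≤ (T i).natDegree)
  rw [card_univ] at h1
  have h2 : (univ.filter fun i => (T i).natDegree < z) =
      univ.filter fun i => ¬ z ≤ (T i).natDegree := by
    ext i
    rw [mem_filter, mem_filter, not_le]
  rw [h2, lgs]
  omega

end Pool.Agent.Y164.PS
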