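import Pool.Agent.Y164.PS.Cell
import Pool.Agent.Y164.PS.Cfg

/-!
The conclusion in a cell.
-/

set_option autoImplicit false
set_option linter.all false

namespace Pool.Agent.Y164.PS

open Finset Polynomial Pool.Agent.H341R2.Sharp
open scoped Classical

variable {k : Type} [Field k] [Fintype k] [DecidableEq k]
variable {ι τ : Type} [Fintype ι] [Fintype τ]
variable {D : Dat τ} {Q : τ → k[X]} {d : ι → F2} {𝒞 : ι → Finset k[X]} {lg : Finset ι} {Nd : ℕ}
  {η : ℝ} (hc : Cell D Q 𝒞 lg Nd η)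

theorem YY_nonneg : 0 ≤ YY D Q 𝒞 := sum_nonneg fun _ _ => by split_ifs <;> norm_num

theorem XX_nonneg : 0 ≤ XX D Q d 𝒞 := sum_nonneg fun _ _ => by split_ifs <;> norm_num

theorem OK_nonneg : 0 ≤ OK Q 𝒞 := sum_nonneg fun _ _ => by split_ifs <;> norm_num

include hc in
/-- the two estimates in a cell -/
theorem cell_final (hN : ∑ i, d i + D.N = 1) (hG : ∀ u : W, u ≠ 0 → ∃ s, om u (D.t s) ≠ 0)
    (hsing : ∀ i, i ∉ lg → ∃ p, 𝒞 i = {p}) {ε : ℝ} (hε : 0 < ε) (hε2 : ε ≤ 1 / 2)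
    (h1 : 4 * (4096 * (8 ^ Fintype.card τ * (3 ^ lg.card * 16 ^ (Fintype.card ι - lg.card)))) ≤
      ε * 4 ^ Fintype.card ι)
    (h2 : η * (4 ^ Fintype.card ι * 2 ^ Fintype.card τ) * 2 ^ Fintype.card τ ≤ ε)
    (h3 : (lg.card + 2 ^ Fintype.card τ) * η ≤ ε) :
    (1 - 10 * ε) * YY D Q 𝒞 ≤ 3 * XX D Q d 𝒞 ∧
      (1 - ε) * OK Q 𝒞 ≤ 2 ^ Fintype.card τ * YY D Q 𝒞 := by
  set t2 : ℝ := 2 ^ Fintype.card τ with ht2
  have ht2p : 0 < t2 := by positivity
  have hη := hc.eta0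
  by_cases hsm : ∀ T ∈ Fintype.piFinset 𝒞, ∀ x y : ι ⊕ τ, (∀ j ∈ lg, x ≠ Sum.inl j) →
    (∀ j ∈ lg, y ≠ Sum.inl j) → Sum.elim T Q x = Sum.elim T Q y → x = y
  · have e1 := OK_ge hc hsm
    have e2 := YY_ge hc d
    have e3 := SS_le (d := d) hc
    have e4 := XX_ge (Q := Q) (𝒞 := 𝒞) hc.hm hN
    have e5 := card_Gd D d lg hN hG
    have e6 := le_card_V0s D d
    have e7 := card_V0s_le D d
    set N0 : ℝ := ((Fintype.piFinset 𝒞).card : ℝ) with hN0
    have hN0n : 0 ≤ N0 := by rw [hN0]; positivity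
    set v : ℝ := ((V0s D d).card : ℝ) with hv
    have e6' : (4 : ℝ) ^ Fintype.card ι ≤ 4 * v := by rw [hv]; exact_mod_cast e6
    have e7' : v ≤ 4 ^ Fintype.card ι * t2 := by rw [hv, ht2]; exact_mod_cast e7
    have hvp : 0 < v := by
      have : (0 : ℝ) < 4 ^ Fintype.card ι := by positivity
      linarith
    have e5' : ((Gd D d lg).card : ℝ) ≤ 3 * v +
        4096 * (8 ^ Fintype.card τ * (3 ^ lg.card * 16 ^ (Fintype.card ι - lg.card))) := by
      rw [hv]; exact_mod_cast e5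
    have e8 : ((Gd D d lg).card : ℝ) ≤ (3 + ε) * v := by
      have : ε * 4 ^ Fintype.card ι ≤ ε * (4 * v) := mul_le_mul_of_nonneg_left e6' hε.le
      linarith
    have e9 : η * (v ^ 2 * t2) ≤ ε * v := by
      have : η * (v * t2) ≤ ε := by
        refine le_trans ?_ h2
        have : v * t2 ≤ 4 ^ Fintype.card ι * t2 * t2 := mul_le_mul_of_nonneg_right e7' ht2p.le
        calc η * (v * t2) ≤ η * (4 ^ Fintype.card ι * t2 * t2) := mul_le_mul_of_nonneg_left this hη
          _ = _ := by ring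
      have h4 := mul_le_mul_of_nonneg_right this hvp.le
      linarith
    have e10 : SS D Q d 𝒞 * t2 ≤ N0 * (3 + 2 * ε) := by
      have h5 : SS D Q d 𝒞 * (v * t2) ≤ N0 * ((3 + 2 * ε) * v) := by
        refine e3.trans (mul_le_mul_of_nonneg_left ?_ hN0n)
        linarith
      have h6 : v * (SS D Q d 𝒞 * t2) ≤ v * (N0 * (3 + 2 * ε)) := by linarith
      exact le_of_mul_le_mul_left h6 hvp
    have e11 : (1 - ε) * N0 ≤ YY D Q 𝒞 * t2 := by
      have h5 := mul_le_mul_of_nonneg_right h3 hN0n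
      linarith
    constructor
    · have h6 : SS D Q d 𝒞 * t2 ≤ (3 + 10 * ε) * (YY D Q 𝒞 * t2) := by
        refine e10.trans ?_
        have h7 : (3 + 10 * ε) * ((1 - ε) * N0) ≤ (3 + 10 * ε) * (YY D Q 𝒞 * t2) :=
          mul_le_mul_of_nonneg_left e11 (by linarith)
        refine le_trans ?_ h7
        have h8 : 0 ≤ N0 * (ε * (1 / 2 - ε)) := mul_nonneg hN0n (mul_nonneg hε.le (by linarith))
        nlinarith
      have h7 : t2 * SS D Q d 𝒞 ≤ t2 * ((3 + 10 * ε) * YY D Q 𝒞) := by linarith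
      have h8 := le_of_mul_le_mul_left h7 ht2p
      linarith
    · have h5 : t2 * η ≤ ε * (1 - lg.card * η) := by
        have h6 : (0 : ℝ) ≤ (lg.card : ℝ) * η := mul_nonneg (Nat.cast_nonneg _) hη
        nlinarith
      have h6 := mul_le_mul_of_nonneg_right h5 hN0n
      have h7 := mul_le_mul_of_nonneg_left e1 hε.le
      nlinarith
  · push Not at hsm
    obtain ⟨T0, hT0, x, y, hx, hy, hxy, hne⟩ := hsm
    have hno : ∀ T ∈ Fintype.piFinset 𝒞, ¬ ok Q T := by
      intro T hT hok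
      apply hne
      apply hok
      have key : ∀ x : ι ⊕ τ, (∀ j ∈ lg, x ≠ Sum.inl j) → Sum.elim T Q x = Sum.elim T0 Q x := by
        rintro (i | s) hx
        · have hi : i ∉ lg := fun h => hx i h rfl
          obtain ⟨p, hp⟩ := hsing i hi
          have h5 := Fintype.mem_piFinset.1 hT i
          have h6 := Fintype.mem_piFinset.1 hT0 i
          rw [hp, mem_singleton] at h5 h6
          show T i = T0 i
          rw [h5, h6]
        · rfl
      rw [key x hx, key y hy, hxy]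
    have h5 : YY D Q 𝒞 = 0 := sum_eq_zero fun T hT => if_neg fun h => hno T hT h.1
    have h6 : OK Q 𝒞 = 0 := sum_eq_zero fun T hT => if_neg fun h => hno T hT h
    rw [h5, h6, mul_zero, mul_zero, mul_zero]
    exact ⟨mul_nonneg (by norm_num) XX_nonneg, le_rfl⟩

end Pool.Agent.Y164.PS
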